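import Pool.Agent.H667.LV.Num

set_option autoImplicit false

/-!
Back and forth for the equivalence relations `E T`.
-/

namespace Pool.Agent.H667.LV

open Finset

theorem arith1 (T z u1 w1 ux wx : ℕ) (hz : u1 ≤ z) (hd : z - u1 < T)
    (a1 : min (2 * T) (ux - u1) = min (2 * T) (wx - w1))
    (a2 : min (2 * T) (u1 - ux) = min (2 * T) (w1 - wx)) :
    min T (ux - z) = min T (wx - (w1 + (z - u1))) ∧
      min T (z - ux) = min T (w1 + (z - u1) - wx) := by
  constructor <;> omega

theorem arith2 (T z u2 w2 ux wx : ℕ) (hz : z ≤ u2) (hd : u2 - z < T) (hw : u2 - z ≤ w2)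
    (a1 : min (2 * T) (ux - u2) = min (2 * T) (wx - w2))
    (a2 : min (2 * T) (u2 - ux) = min (2 * T) (w2 - wx)) :
    min T (ux - z) = min T (wx - (w2 - (u2 - z))) ∧
      min T (z - ux) = min T (w2 - (u2 - z) - wx) := by
  constructor <;> omega

theorem arith3 (T z u1 w1 ux wx : ℕ) (hT : 1 ≤ T) (hz : u1 ≤ z) (hd : T ≤ z - u1)
    (a1 : min (2 * T) (ux - u1) = min (2 * T) (wx - w1))
    (h : ux ≤ u1 ∨ T ≤ ux - z) :
    min T (ux - z) = min T (wx - (w1 + T)) ∧
      min T (z - ux) = min T (w1 + T - wx) := by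
  constructor <;> omega

/-- Adding a number to a finite family of numbers. -/
theorem add_number {X : Type} [Finite X] (u w : X → ℕ) (T : ℕ) (hT : 1 ≤ T) (x0 : X)
    (hu : u x0 = 0)
    (h : ∀ x y, min (2 * T) (u x - u y) = min (2 * T) (w x - w y)) (z : ℕ) :
    ∃ z', (∀ x, min T (u x - z) = min T (w x - z')) ∧ ∀ x, min T (z - u x) = min T (z' - w x) := by
  classical
  have := Fintype.ofFinite X
  obtain ⟨x1, hx1, hmax⟩ := Finset.exists_max_image (Finset.univ.filter fun x => u x ≤ z) u
    ⟨x0, by simp [hu]⟩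
  simp only [Finset.mem_filter, Finset.mem_univ, true_and] at hx1 hmax
  by_cases h1 : z - u x1 < T
  · exact ⟨w x1 + (z - u x1), fun x => (arith1 T z _ _ _ _ hx1 h1 (h x x1) (h x1 x)).1,
      fun x => (arith1 T z _ _ _ _ hx1 h1 (h x x1) (h x1 x)).2⟩
  · by_cases h2 : ∃ x, z ≤ u x ∧ u x - z < T
    · obtain ⟨x2, hx2, h2⟩ := h2
      have hw : u x2 - z ≤ w x2 := by
        have := h x2 x1
        omega
      exact ⟨w x2 - (u x2 - z), fun x => (arith2 T z _ _ _ _ hx2 h2 hw (h x x2) (h x2 x)).1,
        fun x => (arith2 T z _ _ _ _ hx2 h2 hw (h x x2) (h x2 x)).2⟩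
    · push Not at h2
      have h3 : ∀ x, u x ≤ u x1 ∨ T ≤ u x - z := by
        intro x
        by_cases hx : u x ≤ z
        · exact Or.inl (hmax x hx)
        · exact Or.inr (h2 x (by omega))
      exact ⟨w x1 + T, fun x => (arith3 T z _ _ _ _ hT hx1 (by omega) (h x x1) (h3 x)).1,
        fun x => (arith3 T z _ _ _ _ hT hx1 (by omega) (h x x1) (h3 x)).2⟩

/-- The smaller of two numbers corresponds to the smaller one. -/
theorem min_pair {T : ℕ} (hT : 1 ≤ T) {z z' u w : ℕ} (_ : min T (u - z) = min T (w - z'))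
    (h2 : min T (z - u) = min T (z' - w)) :
    (min z u = z ∧ min z' w = z') ∨ (min z u = u ∧ min z' w = w) := by
  rcases Nat.lt_or_ge u z with h | h
  · right
    have : w < z' := by omega
    exact ⟨min_eq_right h.le, min_eq_right this.le⟩
  · left
    have : z' ≤ w := by omega
    exact ⟨min_eq_left h, min_eq_left this⟩

section ext

variable {ι : Type} [Fintype ι]

/-- The tuple with one more point. -/
def ext (a : ι → Pt) (c : Pt) (o : Option ι) : Pt := o.elim c a

theorem g_ext (χ : Option ι → ZMod 2) (a : ι → Pt) (c : Pt) (k : ℕ) :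
    g χ (ext a c) k = χ none * c.co k + g (χ ∘ some) a k := by
  unfold g
  rw [Fintype.sum_option]
  rfl

theorem ls_ext (χ : Option ι → ZMod 2) (a : ι → Pt) (c : Pt) (l : ℕ) :
    ls χ (ext a c) l = (if c.lev = l then χ none else 0) + ls (χ ∘ some) a l := by
  unfold ls
  rw [Fintype.sum_option]
  rfl

theorem vis_ext0 {χ : Option ι → ZMod 2} {a : ι → Pt} {c : Pt} (h : χ none = 0) :
    Vis χ (ext a c) ↔ Vis (χ ∘ some) a := by
  unfold Vis
  simp only [ls_ext, h, ite_self, zero_add]

theorem vis_ext1 {χ : Option ι → ZMod 2} {a : ι → Pt} {c : Pt} (h : χ none = 1) :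
    Vis χ (ext a c) ↔ CoVis (χ ∘ some) a c.lev := by
  unfold Vis CoVis
  simp only [ls_ext, h]
  refine forall_congr' fun l => ?_
  by_cases hl : c.lev = l
  · rw [if_pos hl, if_pos hl.symm]
    generalize ls (χ ∘ some) a l = x
    revert x; decide
  · rw [if_neg hl, if_neg (fun h' => hl h'.symm), zero_add]

/-- Agreement of the point `c` with the combination `χ` up to `k`. -/
def Agr (c : Pt) (χ : ι → ZMod 2) (a : ι → Pt) (k : ℕ) : Prop :=
  (∀ r, χ r ≠ 0 → k ≤ (a r).lev) ∧ ∀ j < k, c.co j = g χ a j

theorem Agr.mono {c : Pt} {χ : ι → ZMod 2} {a : ι → Pt} {k k' : ℕ} (h : Agr c χ a k)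
    (hk : k' ≤ k) : Agr c χ a k' :=
  ⟨fun r hr => hk.trans (h.1 r hr), fun j hj => h.2 j (hj.trans_le hk)⟩

theorem covis_exists {χ : ι → ZMod 2} {a : ι → Pt} {l : ℕ} (h : CoVis χ a l) :
    ∃ r, χ r ≠ 0 ∧ (a r).lev = l := by
  have h1 := h l
  rw [if_pos rfl] at h1
  have h2 : ls χ a l ≠ 0 := by rw [h1]; decide
  obtain ⟨r, _, hr⟩ := Finset.exists_ne_zero_of_sum_ne_zero h2
  by_cases hc : (a r).lev = l
  · exact ⟨r, by rwa [if_pos hc] at hr, hc⟩
  · rw [if_neg hc] at hr
    exact absurd rfl hr

theorem Agr.le_lev {c : Pt} {χ : ι → ZMod 2} {a : ι → Pt} {k : ℕ} (h : Agr c χ a k)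
    (hc : CoVis χ a c.lev) : k ≤ c.lev := by
  obtain ⟨r, hr, hl⟩ := covis_exists hc
  rw [← hl]
  exact h.1 r hr

theorem covis_add {χ χ' : ι → ZMod 2} {a : ι → Pt} {l : ℕ} (h : CoVis χ a l) (h' : CoVis χ' a l) :
    Vis (χ + χ') a := by
  intro l'
  rw [ls_add, h l', h' l']
  exact z2add _

/-- The support. -/
noncomputable def supp (χ : ι → ZMod 2) : Finset ι := Finset.univ.filter fun r => χ r ≠ 0

theorem mem_supp (χ : ι → ZMod 2) (r : ι) : r ∈ supp χ ↔ χ r ≠ 0 := by simp [supp]

variable [DecidableEq ι]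

/-- The term for the agreement of two combinations. -/
noncomputable def mt (χ χ' : ι → ZMod 2) (W : Finset ι) : Tm ι := (χ + χ', supp χ ∪ supp χ' ∪ W)

theorem ne_mt {χ χ' : ι → ZMod 2} {W : Finset ι} {a : ι → Pt} {l : ℕ} (h : CoVis χ a l) :
    NE (mt χ χ' W) := by
  obtain ⟨r, hr, _⟩ := covis_exists h
  exact Or.inl ⟨r, Finset.mem_union_left _ (Finset.mem_union_left _ ((mem_supp χ r).2 hr))⟩

theorem le_mt {χ χ' : ι → ZMod 2} {W : Finset ι} {a : ι → Pt} {l : ℕ} (h : CoVis χ a l)
    (h' : CoVis χ' a l) (k : ℕ) : k ≤ val (mt χ χ' W) a ↔ (∀ r, χ r ≠ 0 → k ≤ (a r).lev) ∧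
      (∀ r, χ' r ≠ 0 → k ≤ (a r).lev) ∧ (∀ r ∈ W, k ≤ (a r).lev) ∧
      ∀ j < k, g χ a j = g χ' a j := by
  rw [le_val (ne_mt h) (covis_add h h')]
  unfold Adm mt
  simp only [Finset.mem_union, mem_supp, g_add]
  constructor
  · rintro ⟨h1, _, h3⟩
    exact ⟨fun r hr => h1 r (Or.inl (Or.inl hr)), fun r hr => h1 r (Or.inl (Or.inr hr)),
      fun r hr => h1 r (Or.inr hr), fun j hj => z2eq (h3 j hj)⟩
  · rintro ⟨h1, h2, h3, h4⟩
    refine ⟨?_, ?_, fun j hj => by rw [h4 j hj]; exact z2add _⟩
    · rintro r ((hr | hr) | hr)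
      · exact h1 r hr
      · exact h2 r hr
      · exact h3 r hr
    · intro r hr
      by_cases hc : χ r = 0
      · refine h2 r fun hc' => hr ?_
        show χ r + χ' r = 0
        rw [hc, hc', add_zero]
      · exact h1 r hc

/-- `χ0` is the closest combination to `c`, with agreement `j0`. -/
structure Best (a : ι → Pt) (c : Pt) (χ0 : ι → ZMod 2) (j0 : ℕ) : Prop where
  co : CoVis χ0 a c.lev
  agr : Agr c χ0 a j0
  max : ∀ χ, CoVis χ a c.lev → ∀ k, Agr c χ a k → k ≤ j0

/-- The set of the old indices. -/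
noncomputable def oldW (W : Finset (Option ι)) : Finset ι :=
  Finset.univ.filter fun r => some r ∈ W

theorem mem_oldW (W : Finset (Option ι)) (r : ι) : r ∈ oldW W ↔ some r ∈ W := by simp [oldW]

open Classical in
/-- The values when the level of `c` is the level of `a r0`. -/
theorem val_extA {a : ι → Pt} {c : Pt} {r0 : ι} (hr0 : c.lev = (a r0).lev) {χ0 : ι → ZMod 2}
    {j0 : ℕ} (hb : Best a c χ0 j0) (s : Tm (Option ι)) :
    val s (ext a c) = if s.1 none = 0 then
        val (s.1 ∘ some, oldW s.2 ∪ (if none ∈ s.2 then {r0} else ∅)) a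
      else if CoVis (s.1 ∘ some) a (a r0).lev then
        min j0 (val (mt (s.1 ∘ some) χ0 (oldW s.2)) a) else 0 := by
  by_cases h0 : s.1 none = 0
  · rw [if_pos h0]
    by_cases hv : Vis s.1 (ext a c)
    · have hv' : Vis (s.1 ∘ some) a := (vis_ext0 h0).1 hv
      have hne : NE ((s.1 ∘ some, oldW s.2 ∪ (if none ∈ s.2 then {r0} else ∅)) : Tm ι) ↔
          NE s := by
        unfold NE
        constructor
        · rintro (⟨r, hr⟩ | h)
          · rw [Finset.mem_union, mem_oldW] at hr
            rcases hr with hr | hr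
            · exact Or.inl ⟨_, hr⟩
            · by_cases hn : none ∈ s.2
              · exact Or.inl ⟨_, hn⟩
              · rw [if_neg hn] at hr
                exact absurd hr (Finset.notMem_empty _)
          · refine Or.inr fun h' => h ?_
            show s.1 ∘ some = 0
            rw [h']
            rfl
        · rintro (⟨o, ho⟩ | h)
          · rcases o with _ | r
            · refine Or.inl ⟨r0, Finset.mem_union_right _ ?_⟩
              rw [if_pos ho]
              exact Finset.mem_singleton_self _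
            · exact Or.inl ⟨r, Finset.mem_union_left _ ((mem_oldW _ _).2 ho)⟩
          · refine Or.inr fun h' => h ?_
            funext o
            rcases o with _ | r
            · exact h0
            · exact congrFun h' r
      by_cases hn : NE s
      · have hn' := hne.2 hn
        have key : ∀ k, k ≤ val s (ext a c) ↔
            k ≤ val ((s.1 ∘ some, oldW s.2 ∪ (if none ∈ s.2 then {r0} else ∅)) : Tm ι) a := by
          intro k
          rw [le_val hn hv, le_val hn' hv']
          unfold Adm
          constructor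
          · rintro ⟨h1, h2, h3⟩
            refine ⟨?_, fun r hr => h2 (some r) hr, fun j hj => ?_⟩
            · intro r hr
              rw [Finset.mem_union, mem_oldW] at hr
              rcases hr with hr | hr
              · exact h1 _ hr
              · by_cases hn : none ∈ s.2
                · rw [if_pos hn, Finset.mem_singleton] at hr
                  rw [hr, ← hr0]
                  exact h1 none hn
                · rw [if_neg hn] at hr
                  exact absurd hr (Finset.notMem_empty _)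
            · have := h3 j hj
              rw [g_ext, h0, zero_mul, zero_add] at this
              exact this
          · rintro ⟨h1, h2, h3⟩
            refine ⟨?_, ?_, fun j hj => ?_⟩
            · rintro (_ | r) ho
              · show k ≤ c.lev
                rw [hr0]
                refine h1 r0 (Finset.mem_union_right _ ?_)
                rw [if_pos ho]
                exact Finset.mem_singleton_self _
              · exact h1 r (Finset.mem_union_left _ ((mem_oldW _ _).2 ho))
            · rintro (_ | r) ho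
              · exact absurd h0 ho
              · exact h2 r ho
            · rw [g_ext, h0, zero_mul, zero_add]
              exact h3 j hj
        exact le_antisymm ((key _).1 le_rfl) ((key _).2 le_rfl)
      · rw [val_empty hn, val_empty (fun h => hn (hne.1 h))]
    · rw [val_not hv, val_not]
      exact fun h => hv ((vis_ext0 h0).2 h)
  · rw [if_neg h0]
    have h1 : s.1 none = 1 := (z2 _).resolve_left h0
    by_cases hv : Vis s.1 (ext a c)
    · have hv' : CoVis (s.1 ∘ some) a c.lev := (vis_ext1 h1).1 hv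
      rw [if_pos (hr0 ▸ hv')]
      have hn : NE s := Or.inr fun h => h0 (by rw [h]; rfl)
      have key : ∀ k, k ≤ val s (ext a c) ↔
          k ≤ min j0 (val (mt (s.1 ∘ some) χ0 (oldW s.2)) a) := by
        intro k
        rw [le_val hn hv, le_min_iff, le_mt hv' hb.co]
        unfold Adm
        constructor
        · rintro ⟨e1, e2, e3⟩
          have hA : Agr c (s.1 ∘ some) a k := by
            refine ⟨fun r hr => e2 (some r) hr, fun j hj => ?_⟩
            have := e3 j hj
            rw [g_ext, h1, one_mul] at this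
            exact z2eq this
          have hk := hb.max _ hv' k hA
          have hB := hb.agr.mono hk
          refine ⟨hk, hA.1, hB.1, ?_, fun j hj => ?_⟩
          · intro r hr
            exact e1 (some r) ((mem_oldW _ _).1 hr)
          · rw [← hA.2 j hj, hB.2 j hj]
        · rintro ⟨e1, e2, e3, e4, e5⟩
          have hB := hb.agr.mono e1
          have hkl : k ≤ c.lev := hB.le_lev hb.co
          refine ⟨?_, ?_, fun j hj => ?_⟩
          · rintro (_ | r) ho
            · exact hkl
            · exact e4 r ((mem_oldW _ _).2 ho)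
          · rintro (_ | r) ho
            · exact hkl
            · exact e2 r ho
          · rw [g_ext, h1, one_mul, e5 j hj, hB.2 j hj]
            exact z2add _
      exact le_antisymm ((key _).1 le_rfl) ((key _).2 le_rfl)
    · rw [val_not hv, if_neg]
      intro h
      rw [← hr0] at h
      exact hv ((vis_ext1 h1).2 h)

open Classical in
/-- The values when the level of `c` is new. -/
theorem val_extB {a : ι → Pt} {c : Pt} (hr0 : ∀ r, (a r).lev ≠ c.lev) (s : Tm (Option ι)) :
    val s (ext a c) = if s.1 none = 0 then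
        (if none ∈ s.2 then (if NE ((s.1 ∘ some, oldW s.2) : Tm ι) then
          min c.lev (val (s.1 ∘ some, oldW s.2) a) else c.lev)
        else val (s.1 ∘ some, oldW s.2) a)
      else 0 := by
  by_cases h0 : s.1 none = 0
  · rw [if_pos h0]
    by_cases hv : Vis s.1 (ext a c)
    · have hv' : Vis (s.1 ∘ some) a := (vis_ext0 h0).1 hv
      by_cases hN : none ∈ s.2
      · rw [if_pos hN]
        have hn : NE s := Or.inl ⟨_, hN⟩
        by_cases hn' : NE ((s.1 ∘ some, oldW s.2) : Tm ι)
        · rw [if_pos hn']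
          have key : ∀ k, k ≤ val s (ext a c) ↔
              k ≤ min c.lev (val ((s.1 ∘ some, oldW s.2) : Tm ι) a) := by
            intro k
            rw [le_val hn hv, le_min_iff, le_val hn' hv']
            unfold Adm
            constructor
            · rintro ⟨h1, h2, h3⟩
              refine ⟨h1 none hN, ?_, fun r hr => h2 (some r) hr, fun j hj => ?_⟩
              · intro r hr
                exact h1 _ ((mem_oldW _ _).1 hr)
              · have := h3 j hj
                rw [g_ext, h0, zero_mul, zero_add] at this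
                exact this
            · rintro ⟨hc, h1, h2, h3⟩
              refine ⟨?_, ?_, fun j hj => ?_⟩
              · rintro (_ | r) ho
                · exact hc
                · exact h1 r ((mem_oldW _ _).2 ho)
              · rintro (_ | r) ho
                · exact absurd h0 ho
                · exact h2 r ho
              · rw [g_ext, h0, zero_mul, zero_add]
                exact h3 j hj
          exact le_antisymm ((key _).1 le_rfl) ((key _).2 le_rfl)
        · rw [if_neg hn']
          have e0 : s.1 ∘ some = 0 := by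
            by_contra hc
            exact hn' (Or.inr hc)
          have key : ∀ k, k ≤ val s (ext a c) ↔ k ≤ c.lev := by
            intro k
            rw [le_val hn hv]
            unfold Adm
            constructor
            · rintro ⟨h1, _, _⟩
              exact h1 none hN
            · intro hc
              refine ⟨?_, ?_, fun j hj => ?_⟩
              · rintro (_ | r) ho
                · exact hc
                · exact absurd (Or.inl ⟨r, (mem_oldW _ _).2 ho⟩) hn'
              · rintro (_ | r) ho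
                · exact absurd h0 ho
                · exact absurd (congrFun e0 r) ho
              · rw [g_ext, h0, zero_mul, zero_add, e0, g_zero]
          exact le_antisymm ((key _).1 le_rfl) ((key _).2 le_rfl)
      · rw [if_neg hN]
        have hne : NE ((s.1 ∘ some, oldW s.2) : Tm ι) ↔ NE s := by
          unfold NE
          constructor
          · rintro (⟨r, hr⟩ | h)
            · exact Or.inl ⟨_, (mem_oldW _ _).1 hr⟩
            · refine Or.inr fun h' => h ?_
              show s.1 ∘ some = 0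
              rw [h']
              rfl
          · rintro (⟨o, ho⟩ | h)
            · rcases o with _ | r
              · exact absurd ho hN
              · exact Or.inl ⟨r, ((mem_oldW _ _).2 ho)⟩
            · refine Or.inr fun h' => h ?_
              funext o
              rcases o with _ | r
              · exact h0
              · exact congrFun h' r
        by_cases hn : NE s
        · have hn' := hne.2 hn
          have key : ∀ k, k ≤ val s (ext a c) ↔ k ≤ val ((s.1 ∘ some, oldW s.2) : Tm ι) a := by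
            intro k
            rw [le_val hn hv, le_val hn' hv']
            unfold Adm
            constructor
            · rintro ⟨h1, h2, h3⟩
              refine ⟨?_, fun r hr => h2 (some r) hr, fun j hj => ?_⟩
              · intro r hr
                exact h1 _ ((mem_oldW _ _).1 hr)
              · have := h3 j hj
                rw [g_ext, h0, zero_mul, zero_add] at this
                exact this
            · rintro ⟨h1, h2, h3⟩
              refine ⟨?_, ?_, fun j hj => ?_⟩
              · rintro (_ | r) ho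
                · exact absurd ho hN
                · exact h1 r ((mem_oldW _ _).2 ho)
              · rintro (_ | r) ho
                · exact absurd h0 ho
                · exact h2 r ho
              · rw [g_ext, h0, zero_mul, zero_add]
                exact h3 j hj
          exact le_antisymm ((key _).1 le_rfl) ((key _).2 le_rfl)
        · rw [val_empty hn, val_empty (fun h => hn (hne.1 h))]
    · rw [val_not hv]
      have hv' : ¬ Vis (s.1 ∘ some) a := fun h => hv ((vis_ext0 h0).2 h)
      rw [val_not (s := ((s.1 ∘ some, oldW s.2) : Tm ι)) hv']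
      by_cases hN : none ∈ s.2
      · rw [if_pos hN, if_pos, _root_.min_zero]
        exact Or.inr fun h => hv' (by rw [show s.1 ∘ some = 0 from h]; exact vis_zero a)
      · rw [if_neg hN]
  · rw [if_neg h0, val_not]
    intro h
    obtain ⟨r, _, hr⟩ := covis_exists ((vis_ext1 ((z2 _).resolve_left h0)).1 h)
    exact hr0 r hr

/-- Verification, case of an old level. -/
theorem extA {T : ℕ} (hT : 1 ≤ T) {a b : ι → Pt} (h : E T a b) {c d : Pt} {r0 : ι}
    (hc : c.lev = (a r0).lev) (hd : d.lev = (b r0).lev) {χ0 : ι → ZMod 2} {j0 j0' : ℕ}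
    (ha : Best a c χ0 j0) (hb : Best b d χ0 j0')
    (h1 : ∀ s, min T (val s a - j0) = min T (val s b - j0'))
    (h2 : ∀ s, min T (j0 - val s a) = min T (j0' - val s b)) :
    E T (ext a c) (ext b d) := by
  classical
  intro s t
  rw [val_extA hc ha, val_extA hc ha, val_extA hd hb, val_extA hd hb]
  have hs := h.covis hT (s.1 ∘ some) r0
  have ht := h.covis hT (t.1 ∘ some) r0
  have z1 : val ((0 : ι → ZMod 2), (∅ : Finset ι)) a = 0 := val_zero a
  have z2 : val ((0 : ι → ZMod 2), (∅ : Finset ι)) b = 0 := val_zero b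
  -- codes
  have code : ∀ s : Tm (Option ι), (CoVis (s.1 ∘ some) a (a r0).lev ↔
      CoVis (s.1 ∘ some) b (b r0).lev) → ∃ o : Option (Tm ι),
      (if s.1 none = 0 then val (s.1 ∘ some, oldW s.2 ∪ (if none ∈ s.2 then {r0} else ∅)) a
      else if CoVis (s.1 ∘ some) a (a r0).lev then
        min j0 (val (mt (s.1 ∘ some) χ0 (oldW s.2)) a) else 0) =
        o.elim j0 (fun t => val t a) ∧
      (if s.1 none = 0 then val (s.1 ∘ some, oldW s.2 ∪ (if none ∈ s.2 then {r0} else ∅)) b
      else if CoVis (s.1 ∘ some) b (b r0).lev then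
        min j0' (val (mt (s.1 ∘ some) χ0 (oldW s.2)) b) else 0) =
        o.elim j0' (fun t => val t b) := by
    intro s hs
    by_cases h0 : s.1 none = 0
    · exact ⟨some _, by rw [if_pos h0]; rfl, by rw [if_pos h0]; rfl⟩
    · by_cases hcv : CoVis (s.1 ∘ some) a (a r0).lev
      · rw [if_neg h0, if_pos hcv, if_neg h0, if_pos (hs.1 hcv)]
        rcases min_pair hT (h1 (mt (s.1 ∘ some) χ0 (oldW s.2))) (h2 _) with h | h
        · exact ⟨none, h.1, h.2⟩
        · exact ⟨some _, h.1, h.2⟩
      · exact ⟨some (0, ∅), by rw [if_neg h0, if_neg hcv]; exact z1.symm,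
          by rw [if_neg h0, if_neg (fun h => hcv (hs.2 h))]; exact z2.symm⟩
  obtain ⟨o, e1, e2⟩ := code s hs
  obtain ⟨o', e3, e4⟩ := code t ht
  rw [e1, e2, e3, e4]
  rcases o with _ | s' <;> rcases o' with _ | t'
  · simp
  · exact h2 t'
  · exact h1 s'
  · exact h s' t'

/-- Verification, case of a new level. -/
theorem extB {T : ℕ} (hT : 1 ≤ T) {a b : ι → Pt} (h : E T a b) {c d : Pt}
    (hc : ∀ r, (a r).lev ≠ c.lev)
    (h1 : ∀ s, min T (val s a - c.lev) = min T (val s b - d.lev))
    (h2 : ∀ s, min T (c.lev - val s a) = min T (d.lev - val s b)) :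
    E T (ext a c) (ext b d) := by
  classical
  have hd : ∀ r, (b r).lev ≠ d.lev := by
    intro r hr
    have e1 := h1 ((0 : ι → ZMod 2), ({r} : Finset ι))
    have e2 := h2 ((0 : ι → ZMod 2), ({r} : Finset ι))
    rw [val_lev, val_lev] at e1 e2
    have := hc r
    omega
  intro s t
  rw [val_extB hc, val_extB hc, val_extB hd, val_extB hd]
  have z1 : val ((0 : ι → ZMod 2), (∅ : Finset ι)) a = 0 := val_zero a
  have z2 : val ((0 : ι → ZMod 2), (∅ : Finset ι)) b = 0 := val_zero b
  have code : ∀ s : Tm (Option ι), ∃ o : Option (Tm ι),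
      (if s.1 none = 0 then
        (if none ∈ s.2 then (if NE ((s.1 ∘ some, oldW s.2) : Tm ι) then
          min c.lev (val (s.1 ∘ some, oldW s.2) a) else c.lev)
        else val (s.1 ∘ some, oldW s.2) a)
      else 0) = o.elim c.lev (fun t => val t a) ∧
      (if s.1 none = 0 then
        (if none ∈ s.2 then (if NE ((s.1 ∘ some, oldW s.2) : Tm ι) then
          min d.lev (val (s.1 ∘ some, oldW s.2) b) else d.lev)
        else val (s.1 ∘ some, oldW s.2) b)
      else 0) = o.elim d.lev (fun t => val t b) := by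
    intro s
    by_cases h0 : s.1 none = 0
    · by_cases hN : none ∈ s.2
      · by_cases hn : NE ((s.1 ∘ some, oldW s.2) : Tm ι)
        · rw [if_pos h0, if_pos hN, if_pos hn, if_pos h0, if_pos hN, if_pos hn]
          rcases min_pair hT (h1 (s.1 ∘ some, oldW s.2)) (h2 _) with h | h
          · exact ⟨none, h.1, h.2⟩
          · exact ⟨some _, h.1, h.2⟩
        · rw [if_pos h0, if_pos hN, if_neg hn, if_pos h0, if_pos hN, if_neg hn]
          exact ⟨none, rfl, rfl⟩
      · rw [if_pos h0, if_neg hN, if_pos h0, if_neg hN]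
        exact ⟨some _, rfl, rfl⟩
    · rw [if_neg h0, if_neg h0]
      exact ⟨some (0, ∅), z1.symm, z2.symm⟩
  obtain ⟨o, e1, e2⟩ := code s
  obtain ⟨o', e3, e4⟩ := code t
  rw [e1, e2, e3, e4]
  rcases o with _ | s' <;> rcases o' with _ | t'
  · simp
  · exact h2 t'
  · exact h1 s'
  · exact h s' t'

/-- A closest combination exists. -/
theorem exists_best (a : ι → Pt) (c : Pt) (r0 : ι) (hc : c.lev = (a r0).lev) :
    ∃ χ0 j0, Best a c χ0 j0 := by
  classical
  let P : ℕ → Prop := fun k => ∃ χ, CoVis χ a c.lev ∧ Agr c χ a k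
  have h0 : P 0 := by
    refine ⟨Pi.single r0 1, ?_, fun _ _ => Nat.zero_le _, fun _ h => absurd h (Nat.not_lt_zero _)⟩
    intro l
    unfold ls
    rw [Finset.sum_eq_single r0]
    · rw [Pi.single_eq_same, hc]
      by_cases h : (a r0).lev = l
      · rw [if_pos h, if_pos h.symm]
      · rw [if_neg h, if_neg (fun h' => h h'.symm)]
    · intro r _ hr
      rw [Pi.single_eq_of_ne hr, ite_self]
    · intro h
      exact absurd (Finset.mem_univ _) h
  have hspec : P (Nat.findGreatest P c.lev) := Nat.findGreatest_spec (Nat.zero_le _) h0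
  obtain ⟨χ0, h1, h2⟩ := hspec
  refine ⟨χ0, _, h1, h2, ?_⟩
  intro χ hχ k hk
  exact Nat.le_findGreatest (hk.le_lev hχ) ⟨χ, hχ, hk⟩

/-- A point with a prescribed agreement. -/
theorem exists_pt {T : ℕ} (hT : 1 ≤ T) {a b : ι → Pt} (h : E T a b) {c : Pt} {r0 : ι}
    (hc : c.lev = (a r0).lev) {χ0 : ι → ZMod 2} {j0 j0' : ℕ}
    (ha : Best a c χ0 j0)
    (h1 : ∀ s, min T (val s a - j0) = min T (val s b - j0'))
    (h2 : ∀ s, min T (j0 - val s a) = min T (j0' - val s b)) :
    ∃ d : Pt, d.lev = (b r0).lev ∧ Best b d χ0 j0' := by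
  classical
  -- comparison of levels with the new number
  have hlev : ∀ r, j0 ≤ (a r).lev ↔ j0' ≤ (b r).lev := by
    intro r
    have e1 := h1 ((0 : ι → ZMod 2), ({r} : Finset ι))
    have e2 := h2 ((0 : ι → ZMod 2), ({r} : Finset ι))
    rw [val_lev, val_lev] at e1 e2
    omega
  have hlev' : ∀ r, j0 + 1 ≤ (a r).lev ↔ j0' + 1 ≤ (b r).lev := by
    intro r
    have e1 := h1 ((0 : ι → ZMod 2), ({r} : Finset ι))
    have e2 := h2 ((0 : ι → ZMod 2), ({r} : Finset ι))
    rw [val_lev, val_lev] at e1 e2
    omega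
  have hcov : ∀ χ, CoVis χ a c.lev ↔ CoVis χ b (b r0).lev := by
    intro χ
    rw [hc]
    exact h.covis hT χ r0
  let Bad : (ι → ZMod 2) → Prop := fun χ => CoVis χ b (b r0).lev ∧
    (∀ r, χ r ≠ 0 → j0' + 1 ≤ (b r).lev) ∧ ∀ j < j0', g χ b j = g χ0 b j
  have hco0 : CoVis χ0 b (b r0).lev := (hcov χ0).1 ha.co
  have hl0 : ∀ r, χ0 r ≠ 0 → j0' ≤ (b r).lev := fun r hr => (hlev r).1 (ha.agr.1 r hr)
  -- the bad combinations are different from `c` at `j0`
  have bad : ∀ χ, Bad χ → (∀ r, χ r ≠ 0 → j0 + 1 ≤ (a r).lev) ∧ (∀ j < j0, g χ a j = g χ0 a j) ∧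
      c.co j0 ≠ g χ a j0 := by
    rintro χ ⟨b1, b2, b3⟩
    have c1 : ∀ r, χ r ≠ 0 → j0 + 1 ≤ (a r).lev := fun r hr => (hlev' r).2 (b2 r hr)
    have c2 : j0' ≤ val (mt χ χ0 ∅) b := by
      rw [le_mt b1 hco0]
      exact ⟨fun r hr => (Nat.le_succ _).trans (b2 r hr), hl0,
        fun r hr => absurd hr (Finset.notMem_empty _), b3⟩
    have c3 : j0 ≤ val (mt χ χ0 ∅) a := by
      have e1 := h1 (mt χ χ0 ∅)
      have e2 := h2 (mt χ χ0 ∅)
      omega
    rw [le_mt ((hcov χ).2 b1) ha.co] at c3
    refine ⟨c1, c3.2.2.2, fun heq => ?_⟩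
    have := ha.max χ ((hcov χ).2 b1) (j0 + 1) ⟨c1, fun j hj => ?_⟩
    · omega
    · rcases Nat.lt_succ_iff_lt_or_eq.1 hj with hj | rfl
      · rw [c3.2.2.2 j hj]
        exact ha.agr.2 j hj
      · exact heq
  have same : ∀ χ χ', Bad χ → Bad χ' → g χ b j0' = g χ' b j0' := by
    intro χ χ' hχ hχ'
    obtain ⟨c1, c2, c3⟩ := bad χ hχ
    obtain ⟨c1', c2', c3'⟩ := bad χ' hχ'
    have e : g χ a j0 = g χ' a j0 := z2three c3 c3'
    have c4 : j0 + 1 ≤ val (mt χ χ' ∅) a := by
      rw [le_mt ((hcov χ).2 hχ.1) ((hcov χ').2 hχ'.1)]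
      refine ⟨c1, c1', fun r hr => absurd hr (Finset.notMem_empty _), fun j hj => ?_⟩
      rcases Nat.lt_succ_iff_lt_or_eq.1 hj with hj | rfl
      · rw [c2 j hj, c2' j hj]
      · exact e
    have c5 : j0' + 1 ≤ val (mt χ χ' ∅) b := by
      have e1 := h1 (mt χ χ' ∅)
      have e2 := h2 (mt χ χ' ∅)
      omega
    rw [le_mt hχ.1 hχ'.1] at c5
    exact c5.2.2.2 j0' (Nat.lt_succ_self _)
  -- the point
  let co : ℕ → ZMod 2 := fun j => if j < j0' then g χ0 b j else if hj : j = j0' ∧ ∃ χ, Bad χ then
    1 + g hj.2.choose b j0' else 0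
  have hco1 : ∀ j < j0', co j = g χ0 b j := fun j hj => if_pos hj
  have hj0' : j0' ≤ (b r0).lev := by
    obtain ⟨r, hr, hl⟩ := covis_exists hco0
    rw [← hl]
    exact hl0 r hr
  have hsupp : ∀ k, (b r0).lev ≤ k → co k = 0 := by
    intro k hk
    show (if k < j0' then g χ0 b k else if hj : k = j0' ∧ ∃ χ, Bad χ then
      1 + g hj.2.choose b j0' else 0) = 0
    rw [if_neg (by omega)]
    by_cases hj : k = j0' ∧ ∃ χ, Bad χ
    · exfalso
      obtain ⟨hk', χ, hχ⟩ := hj
      obtain ⟨r, hr, hl⟩ := covis_exists hχ.1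
      have := hχ.2.1 r hr
      omega
    · rw [dif_neg hj]
  refine ⟨⟨(b r0).lev, co, hsupp⟩, rfl, hco0, ⟨hl0, hco1⟩, ?_⟩
  intro χ hχ k hk
  by_contra hlt
  push Not at hlt
  have hk' := hk.mono (Nat.succ_le_of_lt hlt)
  have hBad : Bad χ := ⟨hχ, hk'.1, fun j hj => by
    have := hk'.2 j (Nat.lt_succ_of_lt hj)
    rw [← this]
    exact hco1 j hj⟩
  have hex : ∃ χ, Bad χ := ⟨χ, hBad⟩
  have e1 : co j0' = 1 + g hex.choose b j0' := by
    show (if j0' < j0' then g χ0 b j0' else if hj : j0' = j0' ∧ ∃ χ, Bad χ then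
      1 + g hj.2.choose b j0' else 0) = _
    rw [if_neg (lt_irrefl _), dif_pos ⟨rfl, hex⟩]
  have e2 : co j0' = g χ b j0' := hk'.2 j0' (Nat.lt_succ_self _)
  have e3 := same _ _ hex.choose_spec hBad
  rw [e1, e3] at e2
  generalize g χ b j0' = x at e2
  revert x
  decide

/-- **Back and forth.** -/
theorem forth {T : ℕ} (hT : 1 ≤ T) {a b : ι → Pt} (h : E (2 * T) a b) (c : Pt) :
    ∃ d, E T (ext a c) (ext b d) := by
  classical
  have h' : E T a b := h.mono (by omega)
  by_cases hl : ∃ r, (a r).lev = c.lev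
  · obtain ⟨r0, hr0⟩ := hl
    obtain ⟨χ0, j0, hbest⟩ := exists_best a c r0 hr0.symm
    obtain ⟨j0', h1, h2⟩ := add_number (fun s : Tm ι => val s a) (fun s => val s b) T hT (0, ∅)
      (val_zero a) h j0
    obtain ⟨d, hd, hb⟩ := exists_pt hT h' hr0.symm hbest h1 h2
    exact ⟨d, extA hT h' hr0.symm hd hbest hb h1 h2⟩
  · push Not at hl
    obtain ⟨l, h1, h2⟩ := add_number (fun s : Tm ι => val s a) (fun s => val s b) T hT (0, ∅)
      (val_zero a) h c.lev
    exact ⟨⟨l, 0, fun _ _ => rfl⟩, extB hT h' hl h1 h2⟩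

end ext

end Pool.Agent.H667.LV
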