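import Pool.Agent.H667.LV.One

set_option autoImplicit false

/-!
There is no definable branch.
-/

namespace Pool.Agent.H667.LV

open Finset FirstOrder FirstOrder.Language Pool.Agent.H667.MT

universe u

/-- Flipping a bit. -/
def flip (z : Pt) (i : ℕ) (h : i < z.lev) : Pt where
  lev := z.lev
  co := fun k => z.co k + if k = i then 1 else 0
  supp := fun k hk => by
    rw [z.supp k hk, if_neg (by omega), add_zero]

section flips

variable {ι : Type} [Fintype ι] [DecidableEq ι]

theorem g_two (χ : Fin 2 ⊕ ι → ZMod 2) (z w : Pt) (a : ι → Pt) (k : ℕ) :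
    g χ (Sum.elim ![z, w] a) k = χ (Sum.inl 0) * z.co k + χ (Sum.inl 1) * w.co k +
      ∑ r, χ (Sum.inr r) * (a r).co k := by
  unfold g
  rw [Fintype.sum_sum_type, Fin.sum_univ_two]
  rfl

theorem ls_two (χ : Fin 2 ⊕ ι → ZMod 2) (z w : Pt) (a : ι → Pt) (l : ℕ) :
    ls χ (Sum.elim ![z, w] a) l = (if z.lev = l then χ (Sum.inl 0) else 0) +
      (if w.lev = l then χ (Sum.inl 1) else 0) +
      ∑ r, if (a r).lev = l then χ (Sum.inr r) else 0 := by
  unfold ls
  rw [Fintype.sum_sum_type, Fin.sum_univ_two]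
  rfl

theorem adm_small {a : ι → Pt} {z w : Pt} (i : ℕ) (ha : ∀ r, (a r).lev ≤ i)
    (h0 : z.co 0 ≠ w.co 0) {χ : Fin 2 ⊕ ι → ZMod 2} (h1 : χ (Sum.inl 0) = 1)
    (h2 : χ (Sum.inl 1) = 1) {W : Finset (Fin 2 ⊕ ι)} {k : ℕ}
    (h : Adm χ W (Sum.elim ![z, w] a) k) : k ≤ i := by
  by_contra hk
  push Not at hk
  by_cases hr : ∃ r, χ (Sum.inr r) ≠ 0
  · obtain ⟨r, hr⟩ := hr
    have := h.2.1 (Sum.inr r) hr
    have h3 : k ≤ (a r).lev := this
    have := ha r
    omega
  · push Not at hr
    have := h.2.2 0 (by omega)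
    rw [g_two, h1, h2] at this
    simp only [hr, zero_mul, Finset.sum_const_zero, add_zero, one_mul] at this
    exact h0 (z2eq this)

theorem val_flip (a : ι → Pt) (z w : Pt) (hl : z.lev = w.lev) (i : ℕ) (hi : 1 ≤ i)
    (h : i < z.lev) (ha : ∀ r, (a r).lev ≤ i) (h0 : z.co 0 ≠ w.co 0) (s : Tm (Fin 2 ⊕ ι)) :
    val s (Sum.elim ![flip z i h, w] a) = val s (Sum.elim ![z, w] a) := by
  have hlev : ∀ r, (Sum.elim ![flip z i h, w] a r).lev = (Sum.elim ![z, w] a r).lev := by
    intro r
    rcases r with r | r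
    · fin_cases r <;> rfl
    · rfl
  have hls : ∀ χ l, ls χ (Sum.elim ![flip z i h, w] a) l = ls χ (Sum.elim ![z, w] a) l := by
    intro χ l
    unfold ls
    simp only [hlev]
  by_cases hs : NE s
  · by_cases hv : Vis s.1 (Sum.elim ![z, w] a)
    · have hv' : Vis s.1 (Sum.elim ![flip z i h, w] a) := fun l => by
        rw [hls]
        exact hv l
      have hχ : s.1 (Sum.inl 0) = s.1 (Sum.inl 1) := by
        have := hv z.lev
        rw [ls_two, if_pos rfl, if_pos hl.symm, Finset.sum_eq_zero, add_zero] at this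
        · exact z2eq this
        · intro r _
          rw [if_neg]
          have := ha r
          omega
      have hfl0 : (flip z i h).co 0 ≠ w.co 0 := by
        show z.co 0 + (if 0 = i then 1 else 0) ≠ w.co 0
        rw [if_neg (by omega), add_zero]
        exact h0
      have key : ∀ k, Adm s.1 s.2 (Sum.elim ![flip z i h, w] a) k ↔
          Adm s.1 s.2 (Sum.elim ![z, w] a) k := by
        intro k
        rcases z2 (s.1 (Sum.inl 0)) with h1 | h1
        · unfold Adm
          simp only [hlev, g_two, h1, zero_mul]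
        · have h2 : s.1 (Sum.inl 1) = 1 := by rw [← hχ]; exact h1
          have hg : ∀ j < i, g s.1 (Sum.elim ![flip z i h, w] a) j =
              g s.1 (Sum.elim ![z, w] a) j := by
            intro j hj
            rw [g_two, g_two]
            show _ * (z.co j + if j = i then 1 else 0) + _ + _ = _
            rw [if_neg hj.ne, add_zero]
          constructor
          · intro hA
            have hk := adm_small i ha hfl0 h1 h2 hA
            refine ⟨fun r hr => ?_, fun r hr => ?_, fun j hj => ?_⟩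
            · rw [← hlev]; exact hA.1 r hr
            · rw [← hlev]; exact hA.2.1 r hr
            · rw [← hg j (by omega)]; exact hA.2.2 j hj
          · intro hA
            have hk := adm_small i ha h0 h1 h2 hA
            refine ⟨fun r hr => ?_, fun r hr => ?_, fun j hj => ?_⟩
            · rw [hlev]; exact hA.1 r hr
            · rw [hlev]; exact hA.2.1 r hr
            · rw [hg j (by omega)]; exact hA.2.2 j hj
      have key2 : ∀ k, k ≤ val s (Sum.elim ![flip z i h, w] a) ↔
          k ≤ val s (Sum.elim ![z, w] a) := fun k => by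
        rw [le_val hs hv', le_val hs hv]
        exact key k
      exact le_antisymm ((key2 _).1 le_rfl) ((key2 _).2 le_rfl)
    · have hv' : ¬ Vis s.1 (Sum.elim ![flip z i h, w] a) := fun hc => hv fun l => by
        rw [← hls]
        exact hc l
      rw [val_not hv, val_not hv']
  · rw [val_empty hs, val_empty hs]

end flips

/-- A definable set of pairs of points (with parameters) does not distinguish between the pairs
`(z, w)` and `(z', w)`, if `z'` differs from `z` only in the bit `i`, for sufficiently large `i`. -/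
theorem definable_flip {S : Set (Fin 2 → Pt)} (hS : (Set.univ : Set Pt).Definable LL S) :
    ∃ i, 1 ≤ i ∧ ∀ (z w : Pt) (_ : z.lev = w.lev) (h : i < z.lev), z.co 0 ≠ w.co 0 →
      (![flip z i h, w] ∈ S ↔ ![z, w] ∈ S) := by
  classical
  rw [Set.definable_iff_exists_formula_sum] at hS
  obtain ⟨φ, rfl⟩ := hS
  obtain ⟨ι, _, t, T, hT, hφ⟩ := inv_all φ
  -- the parameters
  let z0 : Pt := ⟨0, fun _ => 0, fun _ _ => rfl⟩
  let a : ι → Pt := fun i => Sum.elim (Sum.elim Subtype.val fun _ => z0) (fun _ => z0) (t i)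
  let i : ℕ := 1 + ∑ r, (a r).lev
  have ha : ∀ r, (a r).lev ≤ i := fun r =>
    (Finset.single_le_sum (f := fun r => (a r).lev) (fun _ _ => Nat.zero_le _)
      (Finset.mem_univ r)).trans (Nat.le_add_left _ _)
  refine ⟨i, by omega, fun z w hl h h0 => ?_⟩
  let σ : ι → Fin 2 ⊕ ι := fun r => Sum.elim (Sum.elim (fun _ => Sum.inr r) Sum.inl)
    (fun _ => Sum.inr r) (t r)
  have hσ : ∀ (v : Fin 2 → Pt) (xs : Fin 0 → Pt),
      (Sum.elim (Sum.elim Subtype.val v) xs) ∘ t =
        (Sum.elim v a) ∘ σ := by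
    intro v xs
    funext r
    show Sum.elim (Sum.elim Subtype.val v) xs (t r) =
      Sum.elim v a (Sum.elim (Sum.elim (fun _ => Sum.inr r) Sum.inl) (fun _ => Sum.inr r) (t r))
    rcases ht : t r with (p | y) | y
    · show (p : Pt) = a r
      show (p : Pt) = Sum.elim (Sum.elim Subtype.val fun _ => z0)
        (fun _ => z0) (t r)
      rw [ht]
      rfl
    · rfl
    · exact y.elim0
  have hE : E T (Sum.elim ![flip z i h, w] a) (Sum.elim ![z, w] a) := by
    intro s t
    rw [val_flip a z w hl i (by omega) h ha h0, val_flip a z w hl i (by omega) h ha h0]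
  refine hφ _ default _ default ?_
  rw [hσ, hσ]
  exact hE.comp σ

/-- **No definable branch.** -/
theorem no_branch {S : Set (Fin 2 → Pt)} (hS : (Set.univ : Set Pt).Definable LL S)
    (hb : ∀ j : ℕ, 1 ≤ j → ∃ z w : Pt, z.lev = j ∧ w.lev = j ∧ z.co 0 ≠ w.co 0 ∧ ![z, w] ∈ S)
    (hu : ∀ z w z' w' : Pt, ![z, w] ∈ S → ![z', w'] ∈ S → z.lev = w.lev → z'.lev = z.lev →
      w'.lev = z.lev → ∀ k < z.lev, z.co k + w.co k = z'.co k + w'.co k) : False := by
  obtain ⟨i, hi, h⟩ := definable_flip hS
  obtain ⟨z, w, hz, hw, h0, hzw⟩ := hb (i + 1) (by omega)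
  have hiz : i < z.lev := by omega
  have h1 := (h z w (by omega) hiz h0).2 hzw
  have h2 := hu z w (flip z i hiz) w hzw h1 (by omega) rfl (by omega) i hiz
  have h3 : z.co i + w.co i = z.co i + (if i = i then 1 else 0) + w.co i := h2
  rw [if_pos rfl] at h3
  generalize z.co i = x at h3
  generalize w.co i = y at h3
  revert x y
  decide

end Pool.Agent.H667.LV
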