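import Mathlib

set_option autoImplicit false

/-!
Definitions: dp-minimal and distal theories.
-/

namespace Pool.Agent.H667.MT

open FirstOrder FirstOrder.Language

universe u

variable {L : FirstOrder.Language.{0, 0}}

/-- `T` is dp-minimal: there are no formulas `φ(x; y)`, `ψ(x; z)` with `x` a single variable and
tuples `a i`, `b j` (`i, j < ω`) in a model of `T` such that for all `i`, `j` the set of formulas
`φ(x; a i)`, `ψ(x; b j)`, `¬ φ(x; a l)` for `l ≠ i`, `¬ ψ(x; b l)` for `l ≠ j` is consistent
(finitely satisfiable in the model). -/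
def DpMinimal (T : L.Theory) : Prop :=
  ∀ (N : Type u) [L.Structure N], N ⊨ T →
    ∀ (p q : ℕ) (φ : L.Formula (Fin 1 ⊕ Fin p)) (ψ : L.Formula (Fin 1 ⊕ Fin q))
      (a : ℕ → Fin p → N) (b : ℕ → Fin q → N),
      ¬ ∀ i j k : ℕ, ∃ c : N, φ.Realize (Sum.elim (fun _ => c) (a i)) ∧
        ψ.Realize (Sum.elim (fun _ => c) (b j)) ∧
        ∀ l < k, (l ≠ i → ¬ φ.Realize (Sum.elim (fun _ => c) (a l))) ∧
          (l ≠ j → ¬ ψ.Realize (Sum.elim (fun _ => c) (b l)))

/-- `T` is NIP: for every formula `φ(x; y)` there is `n` such that no `n` tuples in a model of `T`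
are shattered by `φ`. -/
def NIP (T : L.Theory) : Prop :=
  ∀ (p q : ℕ) (φ : L.Formula (Fin p ⊕ Fin q)), ∃ n : ℕ, ∀ (N : Type u) [L.Structure N], N ⊨ T →
    ∀ b : Fin n → Fin q → N, ¬ ∀ S : Set (Fin n), ∃ a : Fin p → N, ∀ i,
      (φ.Realize (Sum.elim a (b i)) ↔ i ∈ S)

/-- The sequence `e` of `k`-tuples, indexed by a linear order, is indiscernible over `B`. -/
def Indisc {N : Type u} [L.Structure N] {J : Type u} [LinearOrder J] {k : ℕ} (B : Set N)
    (e : J → Fin k → N) : Prop :=
  ∀ (n m : ℕ) (φ : L.Formula ((Fin n × Fin k) ⊕ Fin m)) (b : Fin m → N), (∀ i, b i ∈ B) →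
    ∀ i j : Fin n → J, StrictMono i → StrictMono j →
      (φ.Realize (Sum.elim (fun x => e (i x.1) x.2) b) ↔
        φ.Realize (Sum.elim (fun x => e (j x.1) x.2) b))

variable (L) in
/-- The distality of indiscernible sequences in the structure `N`: if `I₁ + a + I₂` is
indiscernible, where `I₁` is nonempty without a last element and `I₂` is nonempty without a first
element, and `I₁ + I₂` is indiscernible over `B`, then `I₁ + a + I₂` is indiscernible over `B`. The
element `a` is `e c`. -/
def DistalSequences (N : Type u) [L.Structure N] : Prop :=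
  ∀ (J : Type u) [LinearOrder J] (c : J) (k : ℕ) (e : J → Fin k → N) (B : Set N),
    (∃ i, i < c) → (∀ i < c, ∃ j, i < j ∧ j < c) → (∃ i, c < i) → (∀ i > c, ∃ j, c < j ∧ j < i) →
    Indisc (L := L) ∅ e → Indisc (L := L) B (fun i : {i : J // i ≠ c} => e i) →
      Indisc (L := L) B e

/-- `T` is distal: it is NIP and all indiscernible sequences in models of `T` are distal. -/
def Distal (T : L.Theory) : Prop :=
  NIP.{u} T ∧ ∀ (N : Type u) [L.Structure N], N ⊨ T → DistalSequences L N

variable (L) in
/-- A definable family of subsets of `M^n`: the index set `Y ⊆ M^m` and the total set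
`X ⊆ M^m × M^n` are definable with parameters. -/
structure DefFamily (M : Type u) [L.Structure M] (m n : ℕ) where
  Y : Set (Fin m → M)
  X : Set (Fin m ⊕ Fin n → M)
  defY : (Set.univ : Set M).Definable L Y
  defX : (Set.univ : Set M).Definable L X

/-- The member of the family with the index `b`. -/
def DefFamily.member {M : Type u} [L.Structure M] {m n : ℕ} (F : DefFamily L M m n)
    (b : Fin m → M) : Set (Fin n → M) := {a | Sum.elim b a ∈ F.X}

/-- The family is downward directed and its members are nonempty. -/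
def DefFamily.Directed {M : Type u} [L.Structure M] {m n : ℕ} (F : DefFamily L M m n) : Prop :=
  F.Y.Nonempty ∧ (∀ b ∈ F.Y, (F.member b).Nonempty) ∧
    ∀ b ∈ F.Y, ∀ b' ∈ F.Y, ∃ c ∈ F.Y, F.member c ⊆ F.member b ∩ F.member b'

variable (L) in
/-- A complete `n`-type over the structure `M`, as the ultrafilter of those subsets of `M^n` which
are definable (with parameters from `M`) by a formula of the type. -/
structure IsType {M : Type u} [L.Structure M] {n : ℕ} (p : Set (Set (Fin n → M))) : Prop where
  definable : ∀ s ∈ p, (Set.univ : Set M).Definable L s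
  empty_notMem : ∅ ∉ p
  inter : ∀ s ∈ p, ∀ t ∈ p, s ∩ t ∈ p
  mono : ∀ s ∈ p, ∀ t, (Set.univ : Set M).Definable L t → s ⊆ t → t ∈ p
  compl : ∀ s, (Set.univ : Set M).Definable L s → s ∈ p ∨ sᶜ ∈ p

variable (L) in
/-- The type `p` over `M` is definable: for every formula `φ(x; y)` without parameters the set of
all `b` in `M` with `φ(x; b) ∈ p` is definable with parameters from `M`. -/
def DefinableType {M : Type u} [L.Structure M] {n : ℕ} (p : Set (Set (Fin n → M))) : Prop :=
  ∀ (k : ℕ) (φ : L.Formula (Fin n ⊕ Fin k)),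
    (Set.univ : Set M).Definable L {b : Fin k → M | {a | φ.Realize (Sum.elim a b)} ∈ p}

end Pool.Agent.H667.MT
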