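import Pool.Agent.H667.LV.Dp

set_option autoImplicit false

/-!
The combinatorial core of distality.
-/

namespace Pool.Agent.H667.LV

open Finset FirstOrder FirstOrder.Language

section arith

/-- Either constant or spread. -/
theorem spread {T p q : ℕ} (hT : 1 ≤ T) {u : Fin 5 → ℕ}
    (h : ∀ i j, i < j → min T (u i - u j) = p ∧ min T (u j - u i) = q) :
    (u 1 = u 2 ∧ u 2 = u 3) ∨ (u 1 + T ≤ u 2 ∧ u 2 + T ≤ u 3) ∨ (u 3 + T ≤ u 2 ∧ u 2 + T ≤ u 1) := by
  have h1 := h 1 2 (by decide)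
  have h2 := h 2 3 (by decide)
  have h3 := h 1 3 (by decide)
  omega

theorem mid {T x u1 u2 u3 : ℕ} (h : (u1 = u2 ∧ u2 = u3) ∨ (u1 + T ≤ u2 ∧ u2 + T ≤ u3) ∨
      (u3 + T ≤ u2 ∧ u2 + T ≤ u1)) (h1 : min T (x - u1) = min T (x - u3))
    (h2 : min T (u1 - x) = min T (u3 - x)) :
    min T (x - u2) = min T (x - u1) ∧ min T (u2 - x) = min T (u1 - x) := by
  rcases h with ⟨rfl, rfl⟩ | ⟨a, b⟩ | ⟨a, b⟩
  · exact ⟨rfl, rfl⟩
  · constructor <;> omega
  · constructor <;> omega

/-- The sign pattern of two numbers. -/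
def Sg (x y x' y' : ℕ) : Prop := (x < y ↔ x' < y') ∧ (y < x ↔ y' < x')

theorem Sg.of {T x y x' y' : ℕ} (hT : 1 ≤ T) (h1 : min T (x - y) = min T (x' - y'))
    (h2 : min T (y - x) = min T (y' - x')) : Sg x y x' y' := by
  unfold Sg; omega

theorem Sg.eq {x y x' y' : ℕ} (h : Sg x y x' y') : x = y ↔ x' = y' := by
  unfold Sg at h; omega

/-- The arithmetic of distality. -/
theorem arith_dist {T : ℕ} (hT : 1 ≤ T) (K : Fin 5 → Fin 5 → ℕ) (α u m : Fin 5 → ℕ)
    -- ultrametric inequalities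
    (U2 : ∀ i j k, i < j → j < k → min (K i j) (K j k) ≤ K i k ∧ min (K i j) (K i k) ≤ K j k ∧
      min (K i k) (K j k) ≤ K i j)
    (U1 : ∀ i j, i < j → K i j ≤ m i ∧ K i j ≤ m j)
    (U3 : K 1 2 = K 1 3 → K 1 2 = K 2 3 → m 1 = K 1 2 ∨ m 2 = K 1 2 ∨ m 3 = K 1 2)
    (V1 : ∀ i, α i ≤ m i)
    (V2 : ∀ i j, i < j → min (α i) (K i j) ≤ α j ∧ min (α j) (K i j) ≤ α i ∧
      min (α i) (α j) ≤ K i j)
    -- indiscernibility
    (G3a : ∀ i j k i' j' k', i < j → j < k → i' < j' → j' < k' →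
      Sg (K i j) (K j k) (K i' j') (K j' k'))
    (G3b : ∀ i j k i' j' k', i < j → j < k → i' < j' → j' < k' →
      Sg (K i j) (K i k) (K i' j') (K i' k'))
    (G3c : ∀ i j k i' j' k', i < j → j < k → i' < j' → j' < k' →
      Sg (K i k) (K j k) (K i' k') (K j' k'))
    (G2m : ∀ i j i' j', i < j → i' < j' → Sg (m i) (K i j) (m i') (K i' j'))
    (G2u : ∀ i j i' j', i < j → i' < j' → min T (u i - u j) = min T (u i' - u j') ∧
      min T (u j - u i) = min T (u j' - u i'))
    (G2a : ∀ i j i' j', i < j → i' < j' → min T (K i j - u i) = min T (K i' j' - u i') ∧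
      min T (u i - K i j) = min T (u i' - K i' j'))
    (G2b : ∀ i j i' j', i < j → i' < j' → min T (K i j - u j) = min T (K i' j' - u j') ∧
      min T (u j - K i j) = min T (u j' - K i' j'))
    (H1 : min T (α 1 - u 1) = min T (α 3 - u 3) ∧ min T (u 1 - α 1) = min T (u 3 - α 3))
    (H2 : ∀ i j i' j', i ≠ 2 → j ≠ 2 → i' ≠ 2 → j' ≠ 2 → i < j → i' < j' →
      Sg (α i) (K i j) (α i') (K i' j')) :
    min T (α 2 - u 2) = min T (α 1 - u 1) ∧ min T (u 2 - α 2) = min T (u 1 - α 1) := by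
  have hs := spread hT (u := u) (fun i j hij => G2u i j 0 1 hij (by decide))
  -- the pattern of the triples
  have pat : (∀ i j k, i < j → j < k → K i j = K j k ∧ K i j = K i k) ∨
      (∀ i j k, i < j → j < k → K i j = K i k ∧ K i k < K j k) ∨
      (∀ i j k, i < j → j < k → K i k = K j k ∧ K i k < K i j) := by
    have e0 := U2 0 1 2 (by decide) (by decide)
    by_cases c1 : K 0 1 = K 1 2
    · by_cases c2 : K 0 1 = K 0 2
      · left
        intro i j k hij hjk
        exact ⟨(G3a 0 1 2 i j k (by decide) (by decide) hij hjk).eq.1 c1,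
          (G3b 0 1 2 i j k (by decide) (by decide) hij hjk).eq.1 c2⟩
      · exfalso
        have e1 := (G3a 0 1 2 0 2 3 (by decide) (by decide) (by decide) (by decide)).eq.1 c1
        have e2 := (G3a 0 1 2 1 2 3 (by decide) (by decide) (by decide) (by decide)).eq.1 c1
        omega
    · right
      by_cases c2 : K 0 1 < K 1 2
      · left
        intro i j k hij hjk
        have c3 : K 0 1 = K 0 2 := by omega
        have c4 : K 0 2 < K 1 2 := by omega
        exact ⟨(G3b 0 1 2 i j k (by decide) (by decide) hij hjk).eq.1 c3,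
          (G3c 0 1 2 i j k (by decide) (by decide) hij hjk).1.1 c4⟩
      · right
        intro i j k hij hjk
        have c3 : K 0 2 = K 1 2 := by omega
        have c4 : K 0 2 < K 0 1 := by omega
        exact ⟨(G3c 0 1 2 i j k (by decide) (by decide) hij hjk).eq.1 c3,
          (G3b 0 1 2 i j k (by decide) (by decide) hij hjk).2.1 c4⟩
  rcases pat with pE | pR | pL
  · -- all equal
    have a1 := pE 1 2 3 (by decide) (by decide)
    have a2 := pE 2 3 4 (by decide) (by decide)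
    have hm : m 1 = K 1 2 ∧ m 2 = K 2 3 ∧ m 3 = K 3 4 := by
      have key : ∀ i j, i < j → m i = K i j → m 1 = K 1 2 ∧ m 2 = K 2 3 ∧ m 3 = K 3 4 :=
        fun i j hij h => ⟨(G2m i j 1 2 hij (by decide)).eq.1 h,
          (G2m i j 2 3 hij (by decide)).eq.1 h, (G2m i j 3 4 hij (by decide)).eq.1 h⟩
      rcases U3 a1.2 a1.1 with h | h | h
      · exact key 1 2 (by decide) h
      · exact key 2 3 (by decide) (by omega)
      · exact key 3 4 (by decide) (by omega)
    have b1 := V1 1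
    have b2 := V1 2
    have b3 := V1 3
    have b4 := V2 1 2 (by decide)
    have b5 := V2 2 3 (by decide)
    have e1 : α 2 = α 1 := by omega
    have e2 : α 3 = α 1 := by omega
    rw [e1]
    rw [e2] at H1
    exact mid hs H1.1 H1.2
  · -- right combs
    have a0 := pR 0 1 2 (by decide) (by decide)
    have a1 := pR 0 1 3 (by decide) (by decide)
    have a2 := pR 1 2 3 (by decide) (by decide)
    have a3 := pR 1 3 4 (by decide) (by decide)
    have a4 := pR 2 3 4 (by decide) (by decide)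
    rcases lt_trichotomy (α 0) (K 0 1) with h | h | h
    · have h1 := (H2 0 1 1 3 (by decide) (by decide) (by decide) (by decide) (by decide)
        (by decide)).1.1 h
      have v0 := V2 0 1 (by decide)
      have v1 := V2 1 2 (by decide)
      have v2 := V2 1 3 (by decide)
      have e1 : α 2 = α 1 := by omega
      have e2 : α 3 = α 1 := by omega
      rw [e1]
      rw [e2] at H1
      exact mid hs H1.1 H1.2
    · have h1 := (H2 0 1 1 3 (by decide) (by decide) (by decide) (by decide) (by decide)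
        (by decide)).eq.1 h
      have h3 := (H2 0 1 3 4 (by decide) (by decide) (by decide) (by decide) (by decide)
        (by decide)).eq.1 h
      have v1 := V2 2 3 (by decide)
      have e1 : α 2 = K 2 3 := by omega
      have e2 : α 1 = K 1 2 := by omega
      rw [e1, e2]
      exact G2a 2 3 1 2 (by decide) (by decide)
    · exfalso
      have h1 := (H2 0 1 0 3 (by decide) (by decide) (by decide) (by decide) (by decide)
        (by decide)).2.1 h
      have h2 := (H2 0 1 1 3 (by decide) (by decide) (by decide) (by decide) (by decide)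
        (by decide)).2.1 h
      have v1 := V2 0 3 (by decide)
      have v2 := V2 1 3 (by decide)
      omega
  · -- left combs
    have a0 := pL 0 1 2 (by decide) (by decide)
    have a1 := pL 0 1 3 (by decide) (by decide)
    have a2 := pL 1 2 3 (by decide) (by decide)
    have a3 := pL 1 3 4 (by decide) (by decide)
    have a4 := pL 2 3 4 (by decide) (by decide)
    rcases lt_trichotomy (α 0) (K 0 1) with h | h | h
    · have h1 := (H2 0 1 1 3 (by decide) (by decide) (by decide) (by decide) (by decide)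
        (by decide)).1.1 h
      have h3 := (H2 0 1 3 4 (by decide) (by decide) (by decide) (by decide) (by decide)
        (by decide)).1.1 h
      have v1 := V2 2 3 (by decide)
      have v2 := V2 1 3 (by decide)
      have e2 : α 3 = α 1 := by omega
      have e1 : α 2 = α 1 := by omega
      rw [e1]
      rw [e2] at H1
      exact mid hs H1.1 H1.2
    · exfalso
      have h1 := (H2 0 1 0 3 (by decide) (by decide) (by decide) (by decide) (by decide)
        (by decide)).eq.1 h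
      omega
    · have h1 := (H2 0 1 1 3 (by decide) (by decide) (by decide) (by decide) (by decide)
        (by decide)).2.1 h
      have v0 := V2 0 1 (by decide)
      have v1 := V2 1 2 (by decide)
      have e1 : α 1 = K 0 1 := by omega
      have e2 : α 2 = K 1 2 := by omega
      rw [e1, e2]
      exact G2b 1 2 0 1 (by decide) (by decide)

end arith

section core

variable {ι : Type} [Fintype ι] [DecidableEq ι]

theorem E.gap {κ₁ κ₂ : Type} [Fintype κ₁] [Fintype κ₂] [DecidableEq κ₁] [DecidableEq κ₂] {T : ℕ}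
    {A B : ι → Pt} (h : E T A B) (σ : κ₁ → ι) (τ : κ₂ → ι) (s : Tm κ₁) (t : Tm κ₂) :
    min T (val s (A ∘ σ) - val t (A ∘ τ)) = min T (val s (B ∘ σ) - val t (B ∘ τ)) := by
  rw [← val_sub, ← val_sub, ← val_sub, ← val_sub]
  exact h _ _

/-- Agreement of the combinations `χ` of two tuples. -/
noncomputable def kp (χ : ι → ZMod 2) (x y : ι → Pt) : ℕ :=
  val ((Sum.elim χ χ, ∅) : Tm (ι ⊕ ι)) (Sum.elim x y)

/-- The least level of the combination. -/
noncomputable def ml (χ : ι → ZMod 2) (x : ι → Pt) : ℕ := val ((0, supp χ) : Tm ι) x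

/-- Agreement of the combination with a point. -/
noncomputable def ag (χ : ι → ZMod 2) (x : ι → Pt) (b : Pt) : ℕ :=
  val ((fun o => o.elim 1 χ, ∅) : Tm (Option ι)) (ext x b)

theorem g_sum (χ χ' : ι → ZMod 2) (x y : ι → Pt) (k : ℕ) :
    g (Sum.elim χ χ') (Sum.elim x y) k = g χ x k + g χ' y k := by
  unfold g
  rw [Fintype.sum_sum_type]
  rfl

theorem ls_sum (χ χ' : ι → ZMod 2) (x y : ι → Pt) (k : ℕ) :
    ls (Sum.elim χ χ') (Sum.elim x y) k = ls χ x k + ls χ' y k := by
  unfold ls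
  rw [Fintype.sum_sum_type]
  rfl

theorem le_kp {χ : ι → ZMod 2} {x y : ι → Pt} {l : ℕ} (hx : CoVis χ x l) (hy : CoVis χ y l)
    (k : ℕ) : k ≤ kp χ x y ↔ (∀ r, χ r ≠ 0 → k ≤ (x r).lev) ∧ (∀ r, χ r ≠ 0 → k ≤ (y r).lev) ∧
      ∀ j < k, g χ x j = g χ y j := by
  have hv : Vis (Sum.elim χ χ) (Sum.elim x y) := by
    intro l'
    rw [ls_sum, hx l', hy l']
    exact z2add _
  have hn : NE ((Sum.elim χ χ, ∅) : Tm (ι ⊕ ι)) := by
    obtain ⟨r, hr, _⟩ := covis_exists hx
    exact Or.inr fun h => hr (congrFun h (Sum.inl r))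
  rw [kp, le_val hn hv]
  unfold Adm
  constructor
  · rintro ⟨_, h2, h3⟩
    refine ⟨fun r hr => h2 (Sum.inl r) hr, fun r hr => h2 (Sum.inr r) hr, fun j hj => ?_⟩
    have := h3 j hj
    rw [g_sum] at this
    exact z2eq this
  · rintro ⟨h1, h2, h3⟩
    refine ⟨fun r hr => absurd hr (Finset.notMem_empty _), ?_, fun j hj => ?_⟩
    · rintro (r | r) hr
      · exact h1 r hr
      · exact h2 r hr
    · rw [g_sum, h3 j hj]
      exact z2add _

theorem le_ml {χ : ι → ZMod 2} {x : ι → Pt} {l : ℕ} (hx : CoVis χ x l) (k : ℕ) :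
    k ≤ ml χ x ↔ ∀ r, χ r ≠ 0 → k ≤ (x r).lev := by
  have hn : NE ((0, supp χ) : Tm ι) := by
    obtain ⟨r, hr, _⟩ := covis_exists hx
    exact Or.inl ⟨r, (mem_supp χ r).2 hr⟩
  rw [ml, le_val hn (vis_zero x)]
  unfold Adm
  constructor
  · rintro ⟨h1, _, _⟩ r hr
    exact h1 r ((mem_supp χ r).2 hr)
  · intro h
    exact ⟨fun r hr => h r ((mem_supp χ r).1 hr), fun r hr => absurd rfl hr, fun j _ => g_zero x j⟩

theorem le_ag {χ : ι → ZMod 2} {x : ι → Pt} {b : Pt} (hx : CoVis χ x b.lev) (k : ℕ) :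
    k ≤ ag χ x b ↔ Agr b χ x k := by
  have hv : Vis (fun o : Option ι => o.elim (1 : ZMod 2) χ) (ext x b) := by
    rw [vis_ext1 rfl]
    exact hx
  have hn : NE ((fun o => o.elim 1 χ, ∅) : Tm (Option ι)) := by
    refine Or.inr fun h => ?_
    have := congrFun h none
    exact one_ne_zero this
  rw [ag, le_val hn hv]
  constructor
  · rintro ⟨_, h2, h3⟩
    refine ⟨fun r hr => h2 (some r) hr, fun j hj => ?_⟩
    have h4 := h3 j hj
    rw [g_ext] at h4
    have h5 : 1 * b.co j + g χ x j = 0 := h4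
    rw [one_mul] at h5
    exact z2eq h5
  · intro h
    refine ⟨fun r hr => absurd hr (Finset.notMem_empty _), ?_, fun j hj => ?_⟩
    · rintro (_ | r) hr
      · exact h.le_lev hx
      · exact h.1 r hr
    · rw [g_ext]
      show 1 * b.co j + g χ x j = 0
      rw [one_mul, h.2 j hj]
      exact z2add _

/-- The sequence `e` with the point `b`, from which the element `e 2` was deleted. -/
structure Conf (T : ℕ) (e : Fin 5 → ι → Pt) (b : Pt) : Prop where
  h1 : ∀ i j, E T (e i) (e j)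
  h2 : ∀ i j i' j', i < j → i' < j' → E T (Sum.elim (e i) (e j)) (Sum.elim (e i') (e j'))
  h3 : ∀ i j k i' j' k', i < j → j < k → i' < j' → j' < k' →
    E T (Sum.elim (e i) (Sum.elim (e j) (e k))) (Sum.elim (e i') (Sum.elim (e j') (e k')))
  b1 : ∀ i j, i ≠ 2 → j ≠ 2 → E T (ext (e i) b) (ext (e j) b)
  b2 : ∀ i j i' j', i ≠ 2 → j ≠ 2 → i' ≠ 2 → j' ≠ 2 → i < j → i' < j' →
    E T (ext (Sum.elim (e i) (e j)) b) (ext (Sum.elim (e i') (e j')) b)

theorem conf_ag {T : ℕ} (hT : 1 ≤ T) {e : Fin 5 → ι → Pt} {b : Pt} (h : Conf T e b)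
    {χ : ι → ZMod 2} (hc : ∀ i, CoVis χ (e i) b.lev) (s : Tm ι) :
    min T (ag χ (e 2) b - val s (e 2)) = min T (ag χ (e 1) b - val s (e 1)) ∧
      min T (val s (e 2) - ag χ (e 2) b) = min T (val s (e 1) - ag χ (e 1) b) := by
  have pr : ∀ {i j i' j' : Fin 5}, i < j → i' < j' → ∀ {κ₁ κ₂ : Type} [Fintype κ₁] [Fintype κ₂]
      [DecidableEq κ₁] [DecidableEq κ₂] (σ : κ₁ → ι ⊕ ι) (τ : κ₂ → ι ⊕ ι) (s : Tm κ₁) (t : Tm κ₂),
      min T (val s (Sum.elim (e i) (e j) ∘ σ) - val t (Sum.elim (e i) (e j) ∘ τ)) =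
      min T (val s (Sum.elim (e i') (e j') ∘ σ) - val t (Sum.elim (e i') (e j') ∘ τ)) :=
    fun hij hij' => (h.h2 _ _ _ _ hij hij').gap
  let σ12 : ι ⊕ ι → ι ⊕ ι ⊕ ι := Sum.elim Sum.inl (Sum.inr ∘ Sum.inl)
  let σ23 : ι ⊕ ι → ι ⊕ ι ⊕ ι := Sum.inr
  let σ13 : ι ⊕ ι → ι ⊕ ι ⊕ ι := Sum.elim Sum.inl (Sum.inr ∘ Sum.inr)
  have t12 : ∀ i j k, Sum.elim (e i) (Sum.elim (e j) (e k)) ∘ σ12 = Sum.elim (e i) (e j) := by
    intro i j k; funext r; rcases r with r | r <;> rfl
  have t23 : ∀ i j k, Sum.elim (e i) (Sum.elim (e j) (e k)) ∘ σ23 = Sum.elim (e j) (e k) := by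
    intro i j k; funext r; rcases r with r | r <;> rfl
  have t13 : ∀ i j k, Sum.elim (e i) (Sum.elim (e j) (e k)) ∘ σ13 = Sum.elim (e i) (e k) := by
    intro i j k; funext r; rcases r with r | r <;> rfl
  have tl : ∀ i j, Sum.elim (e i) (e j) ∘ (Sum.inl : ι → ι ⊕ ι) = e i := fun i j => rfl
  have tr : ∀ i j, Sum.elim (e i) (e j) ∘ (Sum.inr : ι → ι ⊕ ι) = e j := fun i j => rfl
  have tid : ∀ i j, Sum.elim (e i) (e j) ∘ (id : ι ⊕ ι → ι ⊕ ι) = Sum.elim (e i) (e j) :=
    fun i j => rfl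
  let κp : Tm (ι ⊕ ι) := (Sum.elim χ χ, ∅)
  let mp : Tm ι := (0, supp χ)
  let ap : Tm (Option ι) := (fun o => o.elim 1 χ, ∅)
  refine arith_dist hT (fun i j => kp χ (e i) (e j)) (fun i => ag χ (e i) b)
    (fun i => val s (e i)) (fun i => ml χ (e i)) ?_ ?_ ?_ ?_ ?_ ?_ ?_ ?_ ?_ ?_ ?_ ?_ ?_ ?_
  · -- U2
    intro i j k _ _
    refine ⟨?_, ?_, ?_⟩
    · rw [le_kp (hc i) (hc k)]
      have x1 := (le_kp (hc i) (hc j) _).1 (min_le_left (kp χ (e i) (e j)) (kp χ (e j) (e k)))
      have x2 := (le_kp (hc j) (hc k) _).1 (min_le_right (kp χ (e i) (e j)) (kp χ (e j) (e k)))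
      exact ⟨x1.1, x2.2.1, fun l hl => (x1.2.2 l hl).trans (x2.2.2 l hl)⟩
    · rw [le_kp (hc j) (hc k)]
      have x1 := (le_kp (hc i) (hc j) _).1 (min_le_left (kp χ (e i) (e j)) (kp χ (e i) (e k)))
      have x2 := (le_kp (hc i) (hc k) _).1 (min_le_right (kp χ (e i) (e j)) (kp χ (e i) (e k)))
      exact ⟨x1.2.1, x2.2.1, fun l hl => (x1.2.2 l hl).symm.trans (x2.2.2 l hl)⟩
    · rw [le_kp (hc i) (hc j)]
      have x1 := (le_kp (hc i) (hc k) _).1 (min_le_left (kp χ (e i) (e k)) (kp χ (e j) (e k)))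
      have x2 := (le_kp (hc j) (hc k) _).1 (min_le_right (kp χ (e i) (e k)) (kp χ (e j) (e k)))
      exact ⟨x1.1, x2.1, fun l hl => (x1.2.2 l hl).trans (x2.2.2 l hl).symm⟩
  · -- U1
    intro i j _
    have x1 := (le_kp (hc i) (hc j) _).1 le_rfl
    exact ⟨(le_ml (hc i) _).2 x1.1, (le_ml (hc j) _).2 x1.2.1⟩
  · -- U3
    intro e1 e2
    by_contra hcon
    push Not at hcon
    obtain ⟨n1, n2, n3⟩ := hcon
    have u1 := (le_ml (hc 1) (kp χ (e 1) (e 2))).2 ((le_kp (hc 1) (hc 2) _).1 le_rfl).1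
    have u2 := (le_ml (hc 2) (kp χ (e 1) (e 2))).2 ((le_kp (hc 1) (hc 2) _).1 le_rfl).2.1
    have u3 := (le_ml (hc 3) (kp χ (e 1) (e 3))).2 ((le_kp (hc 1) (hc 3) _).1 le_rfl).2.1
    have m1 : kp χ (e 1) (e 2) + 1 ≤ ml χ (e 1) := by omega
    have m2 : kp χ (e 1) (e 2) + 1 ≤ ml χ (e 2) := by omega
    have m3 : kp χ (e 1) (e 2) + 1 ≤ ml χ (e 3) := by omega
    rw [le_ml (hc 1)] at m1
    rw [le_ml (hc 2)] at m2
    rw [le_ml (hc 3)] at m3
    have q12 : g χ (e 1) (kp χ (e 1) (e 2)) ≠ g χ (e 2) (kp χ (e 1) (e 2)) := by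
      intro hq
      have : kp χ (e 1) (e 2) + 1 ≤ kp χ (e 1) (e 2) := by
        rw [le_kp (hc 1) (hc 2)]
        refine ⟨m1, m2, fun l hl => ?_⟩
        rcases Nat.lt_succ_iff_lt_or_eq.1 hl with hl | rfl
        · exact ((le_kp (hc 1) (hc 2) _).1 le_rfl).2.2 l hl
        · exact hq
      omega
    have q13 : g χ (e 1) (kp χ (e 1) (e 2)) ≠ g χ (e 3) (kp χ (e 1) (e 2)) := by
      intro hq
      have : kp χ (e 1) (e 2) + 1 ≤ kp χ (e 1) (e 3) := by
        rw [le_kp (hc 1) (hc 3)]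
        refine ⟨m1, m3, fun l hl => ?_⟩
        rcases Nat.lt_succ_iff_lt_or_eq.1 hl with hl | rfl
        · exact ((le_kp (hc 1) (hc 3) _).1 le_rfl).2.2 l (by rw [← e1]; exact hl)
        · exact hq
      omega
    have q23 : g χ (e 2) (kp χ (e 1) (e 2)) ≠ g χ (e 3) (kp χ (e 1) (e 2)) := by
      intro hq
      have : kp χ (e 1) (e 2) + 1 ≤ kp χ (e 2) (e 3) := by
        rw [le_kp (hc 2) (hc 3)]
        refine ⟨m2, m3, fun l hl => ?_⟩
        rcases Nat.lt_succ_iff_lt_or_eq.1 hl with hl | rfl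
        · exact ((le_kp (hc 2) (hc 3) _).1 le_rfl).2.2 l (by rw [← e2]; exact hl)
        · exact hq
      omega
    exact q23 (z2three q12 q13)
  · -- V1
    intro i
    exact (le_ml (hc i) _).2 ((le_ag (hc i) _).1 le_rfl).1
  · -- V2
    intro i j _
    refine ⟨?_, ?_, ?_⟩
    · rw [le_ag (hc j)]
      have x1 := (le_ag (hc i) _).1 (min_le_left (ag χ (e i) b) (kp χ (e i) (e j)))
      have x2 := (le_kp (hc i) (hc j) _).1 (min_le_right (ag χ (e i) b) (kp χ (e i) (e j)))
      exact ⟨x2.2.1, fun l hl => (x1.2 l hl).trans (x2.2.2 l hl)⟩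
    · rw [le_ag (hc i)]
      have x1 := (le_ag (hc j) _).1 (min_le_left (ag χ (e j) b) (kp χ (e i) (e j)))
      have x2 := (le_kp (hc i) (hc j) _).1 (min_le_right (ag χ (e j) b) (kp χ (e i) (e j)))
      exact ⟨x2.1, fun l hl => (x1.2 l hl).trans (x2.2.2 l hl).symm⟩
    · rw [le_kp (hc i) (hc j)]
      have x1 := (le_ag (hc i) _).1 (min_le_left (ag χ (e i) b) (ag χ (e j) b))
      have x2 := (le_ag (hc j) _).1 (min_le_right (ag χ (e i) b) (ag χ (e j) b))
      exact ⟨x1.1, x2.1, fun l hl => (x1.2 l hl).symm.trans (x2.2 l hl)⟩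
  · -- G3a
    intro i j k i' j' k' a1 a2 a3 a4
    have x := (h.h3 i j k i' j' k' a1 a2 a3 a4).gap σ12 σ23 κp κp
    have y := (h.h3 i j k i' j' k' a1 a2 a3 a4).gap σ23 σ12 κp κp
    rw [t12, t12, t23, t23] at x y
    exact Sg.of hT x y
  · intro i j k i' j' k' a1 a2 a3 a4
    have x := (h.h3 i j k i' j' k' a1 a2 a3 a4).gap σ12 σ13 κp κp
    have y := (h.h3 i j k i' j' k' a1 a2 a3 a4).gap σ13 σ12 κp κp
    rw [t12, t12, t13, t13] at x y
    exact Sg.of hT x y
  · intro i j k i' j' k' a1 a2 a3 a4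
    have x := (h.h3 i j k i' j' k' a1 a2 a3 a4).gap σ13 σ23 κp κp
    have y := (h.h3 i j k i' j' k' a1 a2 a3 a4).gap σ23 σ13 κp κp
    rw [t13, t13, t23, t23] at x y
    exact Sg.of hT x y
  · intro i j i' j' a1 a2
    exact Sg.of hT (pr a1 a2 Sum.inl id mp κp) (pr a1 a2 id Sum.inl κp mp)
  · intro i j i' j' a1 a2
    exact ⟨pr a1 a2 Sum.inl Sum.inr s s, pr a1 a2 Sum.inr Sum.inl s s⟩
  · intro i j i' j' a1 a2
    exact ⟨pr a1 a2 id Sum.inl κp s, pr a1 a2 Sum.inl id s κp⟩
  · intro i j i' j' a1 a2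
    exact ⟨pr a1 a2 id Sum.inr κp s, pr a1 a2 Sum.inr id s κp⟩
  · have x := (h.b1 1 3 (by decide) (by decide)).gap (id : Option ι → Option ι) some ap s
    have y := (h.b1 1 3 (by decide) (by decide)).gap some (id : Option ι → Option ι) s ap
    exact ⟨x, y⟩
  · intro i j i' j' n1 n2 n3 n4 a1 a2
    have hb := h.b2 i j i' j' n1 n2 n3 n4 a1 a2
    have x := hb.gap (Option.map Sum.inl : Option ι → Option (ι ⊕ ι)) some ap κp
    have y := hb.gap some (Option.map Sum.inl : Option ι → Option (ι ⊕ ι)) κp ap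
    have z : ∀ i j, ext (Sum.elim (e i) (e j)) b ∘ (Option.map Sum.inl : Option ι → Option (ι ⊕ ι)) =
        ext (e i) b := by
      intro i j; funext o; rcases o with _ | o <;> rfl
    rw [z, z] at x y
    exact Sg.of hT x y

/-- **The core of distality.** -/
theorem conf_main {T : ℕ} (hT : 1 ≤ T) {e : Fin 5 → ι → Pt} {b : Pt} (h : Conf T e b) :
    E T (ext (e 2) b) (ext (e 1) b) := by
  classical
  -- the level of `b`
  have hlev : ∀ s : Tm ι, min T (b.lev - val s (e 2)) = min T (b.lev - val s (e 1)) ∧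
      min T (val s (e 2) - b.lev) = min T (val s (e 1) - b.lev) := by
    intro s
    have hs := spread hT (u := fun i => val s (e i)) (fun i j hij =>
      ⟨(h.h2 i j 0 1 hij (by decide)).gap Sum.inl Sum.inr s s,
        (h.h2 i j 0 1 hij (by decide)).gap Sum.inr Sum.inl s s⟩)
    have x := (h.b1 1 3 (by decide) (by decide)).gap (id : Option ι → Option ι) some
      ((0, {none}) : Tm (Option ι)) s
    have y := (h.b1 1 3 (by decide) (by decide)).gap some (id : Option ι → Option ι) s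
      ((0, {none}) : Tm (Option ι))
    have z : ∀ i, val ((0, {none}) : Tm (Option ι)) (ext (e i) b ∘ (id : Option ι → Option ι)) =
        b.lev := fun i => val_lev (ext (e i) b) none
    rw [z, z] at x y
    exact mid hs x y
  by_cases hr : ∃ r, (e 1 r).lev = b.lev
  · obtain ⟨r0, hr0⟩ := hr
    have hlr : ∀ i, (e i r0).lev = b.lev := by
      intro i
      by_cases hi : i = 2
      · subst hi
        have := hlev ((0 : ι → ZMod 2), ({r0} : Finset ι))
        rw [val_lev, val_lev] at this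
        omega
      · have hE := h.b1 1 i (by decide) hi
        exact (hE.lev_eq hT (some r0) none).1 hr0
    obtain ⟨χ0, j0, hb⟩ := exists_best (e 1) b r0 hr0.symm
    have hcov : ∀ χ, CoVis χ (e 1) b.lev → ∀ i, CoVis χ (e i) b.lev := by
      intro χ hχ i
      have := (h.h1 1 i).covis hT χ r0
      rw [hlr i, hr0] at this
      exact this.1 hχ
    have hj0 : j0 = ag χ0 (e 1) b := by
      apply le_antisymm
      · rw [le_ag hb.co]; exact hb.agr
      · exact hb.max χ0 hb.co _ ((le_ag hb.co _).1 le_rfl)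
    have hb' : Best (e 2) b χ0 (ag χ0 (e 2) b) := by
      refine ⟨hcov χ0 hb.co 2, (le_ag (hcov χ0 hb.co 2) _).1 le_rfl, ?_⟩
      intro χ hχ k hk
      by_contra hlt
      push Not at hlt
      have hχ1 : CoVis χ (e 1) b.lev := by
        have := (h.h1 2 1).covis hT χ r0
        rw [hlr 2, hlr 1] at this
        exact this.1 hχ
      have k1 : Agr b χ (e 2) (ag χ0 (e 2) b + 1) := hk.mono hlt
      have k3 : Agr b χ0 (e 2) (ag χ0 (e 2) b) := (le_ag (hcov χ0 hb.co 2) _).1 le_rfl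
      have k2 : ¬ Agr b χ0 (e 2) (ag χ0 (e 2) b + 1) := fun hc => by
        have := (le_ag (hcov χ0 hb.co 2) _).2 hc
        omega
      have hκ : val (mt χ χ0 ∅) (e 2) = ag χ0 (e 2) b := by
        apply le_antisymm
        · by_contra hc
          push Not at hc
          have h1 : ag χ0 (e 2) b + 1 ≤ val (mt χ χ0 ∅) (e 2) := hc
          rw [le_mt hχ (hcov χ0 hb.co 2)] at h1
          exact k2 ⟨h1.2.1, fun j hj => (k1.2 j hj).trans (h1.2.2.2 j hj)⟩
        · rw [le_mt hχ (hcov χ0 hb.co 2)]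
          exact ⟨fun r hr => (Nat.le_succ _).trans (k1.1 r hr), k3.1,
            fun r hr => absurd hr (Finset.notMem_empty _),
            fun j hj => by rw [← k1.2 j (Nat.lt_succ_of_lt hj), k3.2 j hj]⟩
      have y1 := conf_ag hT h (hcov χ hχ1) (mt χ χ0 ∅)
      have y2 := conf_ag hT h (hcov χ0 hb.co) (mt χ χ0 ∅)
      have y3 : ag χ0 (e 2) b + 1 ≤ ag χ (e 2) b := (le_ag hχ _).2 k1
      have y4 : ag χ (e 1) b ≤ j0 := hb.max χ hχ1 _ ((le_ag hχ1 _).1 le_rfl)
      rw [hκ] at y1 y2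
      omega
    have y := conf_ag hT h (hcov χ0 hb.co)
    rw [hj0] at hb
    exact extA hT (h.h1 2 1) (hlr 2).symm (hlr 1).symm hb' hb (fun s => (y s).2) fun s => (y s).1
  · push Not at hr
    have hr2 : ∀ r, (e 2 r).lev ≠ b.lev := by
      intro r hc
      have := hlev ((0 : ι → ZMod 2), ({r} : Finset ι))
      rw [val_lev, val_lev] at this
      have := hr r
      omega
    exact extB hT (h.h1 2 1) hr2 (fun s => (hlev s).2) fun s => (hlev s).1

end core

end Pool.Agent.H667.LV
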