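import Pool.Agent.H667.LV.QE

set_option autoImplicit false

/-!
The structure has no ICT pattern of depth two in one variable.
-/

namespace Pool.Agent.H667.LV

open Finset FirstOrder FirstOrder.Language

section grid

/-- A grid of points separated by few convex sets is small. -/
theorem grid_bound {X : Type} [LinearOrder X] {I₁ I₂ : Type} [Fintype I₁] [Fintype I₂] (N : ℕ)
    (A : Fin N → I₁ → Set X) (C : Fin N → I₂ → Set X) (hA : ∀ i k, (A i k).OrdConnected)
    (hC : ∀ i k, (C i k).OrdConnected) (x : Fin N → Fin N → X) (φ ψ : Fin N → X → Prop)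
    (hφ : ∀ i y z, (∀ k, y ∈ A i k ↔ z ∈ A i k) → (φ i y ↔ φ i z))
    (hψ : ∀ i y z, (∀ k, y ∈ C i k ↔ z ∈ C i k) → (ψ i y ↔ ψ i z))
    (hx : ∀ i j k, (φ k (x i j) ↔ k = i) ∧ (ψ k (x i j) ↔ k = j)) :
    N * N - 1 ≤ N * Fintype.card I₁ * 2 + N * Fintype.card I₂ * 2 := by
  classical
  have hinj : Function.Injective fun p : Fin N × Fin N => x p.1 p.2 := by
    rintro ⟨i, j⟩ ⟨i', j'⟩ h
    simp only at h
    have h1 := ((hx i j i).1).2 rfl
    have h2 := ((hx i j j).2).2 rfl
    rw [h] at h1 h2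
    exact Prod.ext ((hx i' j' i).1.1 h1) ((hx i' j' j).2.1 h2)
  let S : Finset X := Finset.univ.image fun p : Fin N × Fin N => x p.1 p.2
  have hS : S.card = N * N := by
    rw [Finset.card_image_of_injective _ hinj]
    simp
  let e := S.orderEmbOfFin hS
  have he : ∀ t, ∃ i j, e t = x i j := by
    intro t
    have := Finset.orderEmbOfFin_mem S hS t
    rw [Finset.mem_image] at this
    obtain ⟨p, _, hp⟩ := this
    exact ⟨p.1, p.2, hp.symm⟩
  let P : Fin (N * N - 1) → X := fun t => e ⟨t, by omega⟩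
  let P' : Fin (N * N - 1) → X := fun t => e ⟨t + 1, by omega⟩
  have hPP : ∀ t, P t < P' t := fun t => e.strictMono (by
    rw [Fin.mk_lt_mk]; exact Nat.lt_succ_self _)
  have hlt : ∀ t t', t < t' → P' t ≤ P t' := fun t t' h => e.monotone (by
    rw [Fin.mk_le_mk]; exact h)
  -- a change for a set
  let Ch : Set X → Bool → Fin (N * N - 1) → Prop := fun D d t =>
    if d then P t ∈ D ∧ P' t ∉ D else P t ∉ D ∧ P' t ∈ D
  have hch : ∀ (D : Set X), D.OrdConnected → ∀ d t t', t < t' → Ch D d t → Ch D d t' → False := by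
    intro D hD d t t' h h1 h2
    cases d with
    | true =>
      obtain ⟨a1, a2⟩ := h1
      obtain ⟨b1, b2⟩ := h2
      exact a2 (hD.out a1 b1 ⟨(hPP t).le, hlt t t' h⟩)
    | false =>
      obtain ⟨a1, a2⟩ := h1
      obtain ⟨b1, b2⟩ := h2
      exact b1 (hD.out a2 b2 ⟨hlt t t' h, (hPP t').le⟩)
  let idx := (Fin N × I₁ × Bool) ⊕ (Fin N × I₂ × Bool)
  let st : idx → Set X × Bool := fun s => Sum.elim (fun p => (A p.1 p.2.1, p.2.2))
    (fun p => (C p.1 p.2.1, p.2.2)) s
  have hst : ∀ s, (st s).1.OrdConnected := by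
    rintro (p | p)
    · exact hA _ _
    · exact hC _ _
  have hex : ∀ t, ∃ s : idx, Ch (st s).1 (st s).2 t := by
    intro t
    obtain ⟨i, j, h1⟩ := he ⟨t, by omega⟩
    obtain ⟨i', j', h2⟩ := he ⟨t + 1, by omega⟩
    have h1' : P t = x i j := h1
    have h2' : P' t = x i' j' := h2
    have hne : P t ≠ P' t := (hPP t).ne
    by_cases hi : i = i'
    · have hj : j ≠ j' := by
        rintro rfl
        subst hi
        exact hne (h1'.trans h2'.symm)
      have : ¬ ∀ k, P t ∈ C j k ↔ P' t ∈ C j k := by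
        intro h
        have h3 := hψ j _ _ h
        rw [h1', h2', (hx i j j).2, (hx i' j' j).2] at h3
        exact hj (h3.1 rfl)
      push Not at this
      obtain ⟨k, hk⟩ := this
      rcases hk with ⟨hk1, hk2⟩ | ⟨hk1, hk2⟩
      · exact ⟨Sum.inr (j, k, true), hk1, hk2⟩
      · exact ⟨Sum.inr (j, k, false), hk1, hk2⟩
    · have : ¬ ∀ k, P t ∈ A i k ↔ P' t ∈ A i k := by
        intro h
        have h3 := hφ i _ _ h
        rw [h1', h2', (hx i j i).1, (hx i' j' i).1] at h3
        exact hi (h3.1 rfl)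
      push Not at this
      obtain ⟨k, hk⟩ := this
      rcases hk with ⟨hk1, hk2⟩ | ⟨hk1, hk2⟩
      · exact ⟨Sum.inl (i, k, true), hk1, hk2⟩
      · exact ⟨Sum.inl (i, k, false), hk1, hk2⟩
  choose f hf using hex
  have hfinj : Function.Injective f := by
    intro t t' h
    by_contra hne
    rcases lt_or_gt_of_ne hne with hlt | hlt
    · exact hch _ (hst (f t)) _ t t' hlt (hf t) (by rw [h]; exact hf t')
    · exact hch _ (hst (f t)) _ t' t hlt (by rw [h]; exact hf t') (hf t)
  have := Fintype.card_le_of_injective f hfinj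
  simp only [Fintype.card_fin, idx, Fintype.card_sum, Fintype.card_prod, Fintype.card_bool] at this
  rw [mul_assoc, mul_assoc]
  exact this

end grid

section order

/-- The lexicographic order of the points. -/
noncomputable def lx (p : Pt) : ℕ ×ₗ Lex (ℕ → ℕ) := toLex (p.lev, toLex fun k => (p.co k).val)

theorem lx_inj : Function.Injective lx := by
  intro p q h
  have h1 : p.lev = q.lev := congrArg (fun z => (ofLex z).1) h
  have h2 : (fun k => (p.co k).val) = fun k => (q.co k).val := by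
    have h3 : (toLex fun k => (p.co k).val : Lex (ℕ → ℕ)) = toLex fun k => (q.co k).val :=
      congrArg (fun z : ℕ ×ₗ Lex (ℕ → ℕ) => (ofLex z).2) h
    exact h3
  refine Pt.ext h1 (funext fun k => ?_)
  exact ZMod.val_injective 2 (congrFun h2 k)

noncomputable instance : LinearOrder Pt := LinearOrder.lift' lx lx_inj

theorem le_iff (p q : Pt) : p ≤ q ↔ lx p ≤ lx q := Iff.rfl

theorem lev_mono {p q : Pt} (h : p ≤ q) : p.lev ≤ q.lev := by
  rw [le_iff] at h
  have h1 := Prod.Lex.monotone_fst _ _ h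
  exact h1

theorem co_le {p q : Pt} (h : p ≤ q) (hl : p.lev = q.lev) {j : ℕ}
    (hj : ∀ i < j, p.co i = q.co i) : (p.co j).val ≤ (q.co j).val := by
  rw [le_iff, lx, lx, Prod.Lex.toLex_le_toLex] at h
  rcases h with h | ⟨_, h⟩
  · exact absurd hl h.ne
  · by_contra hc
    push Not at hc
    have : (toLex fun k => (q.co k).val : Lex (ℕ → ℕ)) < toLex fun k => (p.co k).val := by
      refine ⟨j, fun i hi => ?_, hc⟩
      show (q.co i).val = (p.co i).val
      rw [hj i hi]
    exact absurd h (not_le.2 this)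

theorem agree_convex {p q r : Pt} (h1 : p ≤ q) (h2 : q ≤ r) (hl : p.lev = r.lev) (f : ℕ → ZMod 2)
    (k : ℕ) (hp : ∀ j < k, p.co j = f j) (hr : ∀ j < k, r.co j = f j) :
    q.lev = r.lev ∧ ∀ j < k, q.co j = f j := by
  have e1 : p.lev = q.lev := le_antisymm (lev_mono h1) (by rw [hl]; exact lev_mono h2)
  have e2 : q.lev = r.lev := by rw [← e1, hl]
  refine ⟨e2, ?_⟩
  intro j
  induction j using Nat.strong_induction_on with
  | _ j ih =>
    intro hj
    have a1 := co_le h1 e1 (j := j) fun i hi => by rw [hp i (hi.trans hj), ih i hi (hi.trans hj)]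
    have a2 := co_le h2 e2 (j := j) fun i hi => by rw [hr i (hi.trans hj), ih i hi (hi.trans hj)]
    rw [hp j hj] at a1
    rw [hr j hj] at a2
    exact ZMod.val_injective 2 (le_antisymm a2 a1)

end order

section sets

variable {ι : Type} [Fintype ι]

/-- The thresholds. -/
noncomputable def thr (T : ℕ) (a : ι → Pt) (s : Tm ι) (k : Fin (2 * T + 1)) : ℕ := val s a + k - T

/-- The indices of the convex sets. -/
abbrev Ix (ι : Type) (T : ℕ) := (Tm ι × Fin (2 * T + 1)) ⊕ (ι × (ι → ZMod 2) × Tm ι × Fin (2 * T + 1))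

/-- The convex sets. -/
def cs (T : ℕ) (a : ι → Pt) : Ix ι T → Set Pt
  | Sum.inl (s, k) => {x | thr T a s k ≤ x.lev}
  | Sum.inr (r, χ, s, k) => {x | x.lev = (a r).lev ∧ Agr x χ a (thr T a s k)}

theorem cs_convex (T : ℕ) (a : ι → Pt) (i : Ix ι T) : (cs T a i).OrdConnected := by
  constructor
  intro x hx y hy z hz
  rcases i with ⟨s, k⟩ | ⟨r, χ, s, k⟩
  · exact le_trans (show thr T a s k ≤ x.lev from hx) (lev_mono hz.1)
  · obtain ⟨x1, x2, x3⟩ := hx
    obtain ⟨y1, y2, y3⟩ := hy
    obtain ⟨z1, z2⟩ := agree_convex hz.1 hz.2 (x1.trans y1.symm) _ _ x3 y3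
    exact ⟨z1.trans y1, x2, z2⟩

variable [DecidableEq ι]

theorem cs_sep (T : ℕ) (hT : 1 ≤ T) (a : ι → Pt) (x y : Pt)
    (h : ∀ i, x ∈ cs T a i ↔ y ∈ cs T a i) : E T (ext a x) (ext a y) := by
  have hl : ∀ (s : Tm ι) (k : ℕ), k ≤ 2 * T → (val s a + k - T ≤ x.lev ↔ val s a + k - T ≤ y.lev) :=
    fun s k hk => h (Sum.inl (s, ⟨k, by omega⟩))
  have hl1 : ∀ s, min T (val s a - x.lev) = min T (val s a - y.lev) := by
    intro s
    by_contra hc
    rcases Nat.lt_or_gt_of_ne hc with hc | hc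
    · have := hl s (T - min T (val s a - x.lev)) (by omega)
      omega
    · have := hl s (T - min T (val s a - y.lev)) (by omega)
      omega
  have hl2 : ∀ s, min T (x.lev - val s a) = min T (y.lev - val s a) := by
    intro s
    by_contra hc
    rcases Nat.lt_or_gt_of_ne hc with hc | hc
    · have := hl s (T + min T (y.lev - val s a)) (by omega)
      omega
    · have := hl s (T + min T (x.lev - val s a)) (by omega)
      omega
  by_cases hr : ∃ r, (a r).lev = x.lev
  · obtain ⟨r0, hr0⟩ := hr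
    have hy : y.lev = (a r0).lev := by
      have e1 := hl1 ((0 : ι → ZMod 2), ({r0} : Finset ι))
      have e2 := hl2 ((0 : ι → ZMod 2), ({r0} : Finset ι))
      rw [val_lev] at e1 e2
      omega
    obtain ⟨χ0, j0, hb⟩ := exists_best a x r0 hr0.symm
    have hag : ∀ (χ : ι → ZMod 2) (s : Tm ι) (k : ℕ), k ≤ 2 * T →
        (Agr x χ a (val s a + k - T) ↔ Agr y χ a (val s a + k - T)) := by
      intro χ s k hk
      have := h (Sum.inr (r0, χ, s, ⟨k, by omega⟩))
      constructor
      · intro h'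
        exact (this.1 ⟨hr0.symm, h'⟩).2
      · intro h'
        exact (this.2 ⟨hy, h'⟩).2
    have hco' : CoVis χ0 a y.lev := by
      rw [hy, hr0]; exact hb.co
    -- the agreement of `y` with `χ0`
    classical
    let j0' := Nat.findGreatest (fun k => Agr y χ0 a k) y.lev
    have hj0' : ∀ k, k ≤ j0' ↔ Agr y χ0 a k := by
      intro k
      constructor
      · intro hk
        have : Agr y χ0 a j0' := Nat.findGreatest_spec (P := fun k => Agr y χ0 a k) (Nat.zero_le _)
          ⟨fun _ _ => Nat.zero_le _, fun _ h => absurd h (Nat.not_lt_zero _)⟩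
        exact this.mono hk
      · intro hk
        exact Nat.le_findGreatest (hk.le_lev hco') hk
    have hj0 : ∀ k, k ≤ j0 ↔ Agr x χ0 a k := fun k =>
      ⟨fun hk => hb.agr.mono hk, fun hk => hb.max χ0 hb.co k hk⟩
    have hjj : ∀ (s : Tm ι) (k : ℕ), k ≤ 2 * T → (val s a + k - T ≤ j0 ↔ val s a + k - T ≤ j0') := by
      intro s k hk
      rw [hj0, hj0']
      exact hag χ0 s k hk
    have hj1 : ∀ s, min T (val s a - j0) = min T (val s a - j0') := by
      intro s
      by_contra hc
      rcases Nat.lt_or_gt_of_ne hc with hc | hc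
      · have := hjj s (T - min T (val s a - j0)) (by omega)
        omega
      · have := hjj s (T - min T (val s a - j0')) (by omega)
        omega
    have hj2 : ∀ s, min T (j0 - val s a) = min T (j0' - val s a) := by
      intro s
      by_contra hc
      rcases Nat.lt_or_gt_of_ne hc with hc | hc
      · have := hjj s (T + min T (j0' - val s a)) (by omega)
        omega
      · have := hjj s (T + min T (j0 - val s a)) (by omega)
        omega
    have hb' : Best a y χ0 j0' := by
      refine ⟨hco', (hj0' _).1 le_rfl, ?_⟩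
      intro χ hχ k hk
      by_contra hlt
      push Not at hlt
      have hχx : CoVis χ a x.lev := by
        rw [← hr0, ← hy]; exact hχ
      have k1 : Agr y χ a (j0' + 1) := hk.mono hlt
      have k2 : ¬ Agr y χ0 a (j0' + 1) := fun hc => by
        have := (hj0' _).2 hc
        omega
      have k3 : Agr y χ0 a j0' := (hj0' _).1 le_rfl
      have hκ : val (mt χ χ0 ∅) a = j0' := by
        apply le_antisymm
        · by_contra hc
          push Not at hc
          have h1 : j0' + 1 ≤ val (mt χ χ0 ∅) a := hc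
          rw [le_mt hχx hb.co] at h1
          exact k2 ⟨h1.2.1, fun j hj => (k1.2 j hj).trans (h1.2.2.2 j hj)⟩
        · rw [le_mt hχx hb.co]
          exact ⟨fun r hr => (Nat.le_succ _).trans (k1.1 r hr), k3.1,
            fun r hr => absurd hr (Finset.notMem_empty _),
            fun j hj => by rw [← k1.2 j (Nat.lt_succ_of_lt hj), k3.2 j hj]⟩
      have e1 := hag χ (mt χ χ0 ∅) (T + 1) (by omega)
      have e2 := hag χ0 (mt χ χ0 ∅) (T + 1) (by omega)
      have e3 : val (mt χ χ0 ∅) a + (T + 1) - T = j0' + 1 := by rw [hκ]; omega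
      rw [e3] at e1 e2
      exact k2 (e2.1 (hb.agr.mono (hb.max χ hχx _ (e1.2 k1))))
    exact extA hT (E.refl T a) hr0.symm hy hb hb' hj1 hj2
  · push Not at hr
    exact extB hT (E.refl T a) hr hl1 hl2

end sets

/-- The points of a formula in one variable with parameters are separated by the convex sets. -/
theorem form_sep {p : ℕ} (φ : LL.Formula (Fin 1 ⊕ Fin p)) : ∃ T, 1 ≤ T ∧ ∀ (a : Fin p → Pt) (x y : Pt),
    (∀ i, x ∈ cs T a i ↔ y ∈ cs T a i) →
      (φ.Realize (Sum.elim (fun _ => x) a) ↔ φ.Realize (Sum.elim (fun _ => y) a)) := by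
  obtain ⟨T, hT, h⟩ := formula_inv φ
  refine ⟨T, hT, fun a x y hxy => h _ _ ?_⟩
  have h1 := (cs_sep T hT a x y hxy).comp (Sum.elim (fun _ => none) some : Fin 1 ⊕ Fin p → Option (Fin p))
  have e : ∀ x : Pt, ext a x ∘ (Sum.elim (fun _ => none) some : Fin 1 ⊕ Fin p → Option (Fin p)) =
      Sum.elim (fun _ => x) a := by
    intro x
    funext i
    rcases i with i | i <;> rfl
  rw [e, e] at h1
  exact h1

/-- **No ICT pattern.** -/
theorem no_pattern {p q : ℕ} (φ : LL.Formula (Fin 1 ⊕ Fin p)) (ψ : LL.Formula (Fin 1 ⊕ Fin q)) :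
    ∃ N : ℕ, ∀ (a : Fin N → Fin p → Pt) (c : Fin N → Fin q → Pt) (x : Fin N → Fin N → Pt),
      ¬ ∀ i j k, (φ.Realize (Sum.elim (fun _ => x i j) (a k)) ↔ k = i) ∧
        (ψ.Realize (Sum.elim (fun _ => x i j) (c k)) ↔ k = j) := by
  classical
  obtain ⟨T₁, _, h₁⟩ := form_sep φ
  obtain ⟨T₂, _, h₂⟩ := form_sep ψ
  refine ⟨2 * (Fintype.card (Ix (Fin p) T₁) + Fintype.card (Ix (Fin q) T₂)) + 2, ?_⟩
  intro a c x hx
  have := grid_bound _ (fun i => cs T₁ (a i)) (fun i => cs T₂ (c i)) (fun i => cs_convex T₁ (a i))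
    (fun i => cs_convex T₂ (c i)) x (fun i y => φ.Realize (Sum.elim (fun _ => y) (a i)))
    (fun i y => ψ.Realize (Sum.elim (fun _ => y) (c i))) (fun i => h₁ (a i)) (fun i => h₂ (c i)) hx
  generalize Fintype.card (Ix (Fin p) T₁) = K₁ at this
  generalize Fintype.card (Ix (Fin q) T₂) = K₂ at this
  have e : (2 * (K₁ + K₂) + 2) * K₁ * 2 + (2 * (K₁ + K₂) + 2) * K₂ * 2 =
      (2 * (K₁ + K₂) + 2) * (2 * (K₁ + K₂)) := by ring
  rw [e] at this
  have e2 : (2 * (K₁ + K₂) + 2) * (2 * (K₁ + K₂) + 2) =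
      (2 * (K₁ + K₂) + 2) * (2 * (K₁ + K₂)) + (2 * (K₁ + K₂) + 2) * 2 := by ring
  rw [e2] at this
  omega

end Pool.Agent.H667.LV
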