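import Pool.Agent.H667.LV.QE

set_option autoImplicit false

/-!
The structure has NIP: counting.
-/

namespace Pool.Agent.H667.LV

open Finset FirstOrder FirstOrder.Language

theorem cell_arith {T u x x' : ℕ}
    (h : ∀ d < 2 * T + 1, (u + d ≤ x + T ↔ u + d ≤ x' + T)) :
    min T (x - u) = min T (x' - u) ∧ min T (u - x) = min T (u - x') := by
  constructor
  · have h1 := h (min T (x - u) + T) (by omega)
    have h2 := h (min T (x' - u) + T) (by omega)
    omega
  · by_cases hT : T = 0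
    · omega
    · have h1 := h (T - min T (u - x) + 1) 
      have h2 := h (T - min T (u - x') + 1) 
      have h3 := h T (by omega)
      omega

/-- The minimum of corresponding sets of numbers. -/
theorem min_corr {Z : Type} {T : ℕ} (hT : 1 ≤ T) {U U' : Z → ℕ}
    (h : ∀ z z', min T (U z - U z') = min T (U' z - U' z')) {S S' : Finset Z} (hS : S.Nonempty)
    (hS' : S'.Nonempty) {x y x' y' : ℕ} (hx : ∀ k, k ≤ x ↔ ∀ z ∈ S, k ≤ U z)
    (hy : ∀ k, k ≤ y ↔ ∀ z ∈ S', k ≤ U z) (hx' : ∀ k, k ≤ x' ↔ ∀ z ∈ S, k ≤ U' z)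
    (hy' : ∀ k, k ≤ y' ↔ ∀ z ∈ S', k ≤ U' z) : min T (x - y) = min T (x' - y') := by
  obtain ⟨z, hz, hzm⟩ := Finset.exists_min_image S U hS
  obtain ⟨w, hw, hwm⟩ := Finset.exists_min_image S' U hS'
  have hle : ∀ z z', U z ≤ U z' → U' z ≤ U' z' := by
    intro z z' hzz
    have := h z z'
    omega
  have e1 : x = U z := le_antisymm ((hx x).1 le_rfl z hz) ((hx _).2 hzm)
  have e2 : y = U w := le_antisymm ((hy y).1 le_rfl w hw) ((hy _).2 hwm)
  have e3 : x' = U' z := le_antisymm ((hx' x').1 le_rfl z hz)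
    ((hx' _).2 fun v hv => hle _ _ (hzm v hv))
  have e4 : y' = U' w := le_antisymm ((hy' y').1 le_rfl w hw)
    ((hy' _).2 fun v hv => hle _ _ (hwm v hv))
  rw [e1, e2, e3, e4]
  exact h z w

section agree

variable {ι : Type} [Fintype ι]

open Classical in
/-- The length of the agreement of the combination `χ` of `a` with the sequence `w`. -/
noncomputable def lam (χ : ι → ZMod 2) (a : ι → Pt) (w : ℕ → ZMod 2) : ℕ :=
  Nat.findGreatest (fun k => (∀ r, χ r ≠ 0 → k ≤ (a r).lev) ∧ ∀ j < k, g χ a j = w j)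
    (∑ r, (a r).lev)

theorem le_lam {χ : ι → ZMod 2} (hχ : χ ≠ 0) (a : ι → Pt) (w : ℕ → ZMod 2) (k : ℕ) :
    k ≤ lam χ a w ↔ (∀ r, χ r ≠ 0 → k ≤ (a r).lev) ∧ ∀ j < k, g χ a j = w j := by
  classical
  constructor
  · intro h
    have h1 := Nat.findGreatest_spec
      (P := fun k => (∀ r, χ r ≠ 0 → k ≤ (a r).lev) ∧ ∀ j < k, g χ a j = w j)
      (n := ∑ r, (a r).lev) (Nat.zero_le _)
      ⟨fun _ _ => Nat.zero_le _, fun _ h => absurd h (Nat.not_lt_zero _)⟩
    exact ⟨fun r hr => h.trans (h1.1 r hr), fun j hj => h1.2 j (hj.trans_le h)⟩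
  · intro h
    refine Nat.le_findGreatest ?_ h
    obtain ⟨r, hr⟩ : ∃ r, χ r ≠ 0 := by
      by_contra hc
      push Not at hc
      exact hχ (funext hc)
    exact (h.1 r hr).trans (Finset.single_le_sum (f := fun r => (a r).lev)
      (fun _ _ => Nat.zero_le _) (Finset.mem_univ r))

open Classical in
/-- The first difference of two sequences (0 if they are equal). -/
noncomputable def fd (w w' : ℕ → ZMod 2) : ℕ :=
  if h : ∃ j, w j ≠ w' j then Nat.find h else 0

theorem le_fd {w w' : ℕ → ZMod 2} (h : w ≠ w') (k : ℕ) : k ≤ fd w w' ↔ ∀ j < k, w j = w' j := by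
  classical
  have h' : ∃ j, w j ≠ w' j := by
    by_contra hc
    push Not at hc
    exact h (funext hc)
  rw [fd, dif_pos h', Nat.le_find_iff]
  simp only [not_not, ne_eq]

end agree

section count

variable {ι κ : Type} [Fintype ι] [Fintype κ] [DecidableEq ι] [DecidableEq κ] {n : ℕ}

/-- Indices of sequences. -/
abbrev SI (κ : Type) (n : ℕ) := Fin n × (κ → ZMod 2)

/-- Indices of the numbers given by the parameters. -/
abbrev FI (κ : Type) (n : ℕ) := Unit ⊕ (Fin n × κ) ⊕ (SI κ n × SI κ n)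

/-- Indices of the numbers given by the tuple. -/
abbrev KI (ι : Type) := ι ⊕ (ι → ZMod 2)

/-- The sequences. -/
def sq (b : Fin n → κ → Pt) (x : SI κ n) (k : ℕ) : ZMod 2 := g x.2 (b x.1) k

noncomputable def fnum (b : Fin n → κ → Pt) : FI κ n → ℕ :=
  Sum.elim (fun _ => 0) (Sum.elim (fun z => (b z.1 z.2).lev) fun z => fd (sq b z.1) (sq b z.2))

noncomputable def knum (b : Fin n → κ → Pt) (a : ι → Pt) (xs : (ι → ZMod 2) → SI κ n) :
    KI ι → ℕ :=
  Sum.elim (fun r => (a r).lev) fun χ => lam χ a (sq b (xs χ))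

/-- The closest sequences. -/
def Closest (b : Fin n → κ → Pt) (a : ι → Pt) (xs : (ι → ZMod 2) → SI κ n) : Prop :=
  ∀ χ x, lam χ a (sq b x) ≤ lam χ a (sq b (xs χ))

/-- The numbers. -/
noncomputable def znum (b : Fin n → κ → Pt) (a : ι → Pt) (xs : (ι → ZMod 2) → SI κ n) :
    KI ι ⊕ FI κ n → ℕ := Sum.elim (knum b a xs) (fnum b)

/-- The numbers of the terms are minima. -/
theorem val_min (b : Fin n → κ → Pt) (xs : (ι → ZMod 2) → SI κ n) (i : Fin n) (s : Tm (ι ⊕ κ))
    (vis : Prop) : ∃ S : Finset (KI ι ⊕ FI κ n), S.Nonempty ∧ ∀ a : ι → Pt, Closest b a xs →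
      (Vis s.1 (Sum.elim a (b i)) ↔ vis) →
      ∀ k, k ≤ val s (Sum.elim a (b i)) ↔ ∀ z ∈ S, k ≤ znum b a xs z := by
  classical
  by_cases hN : NE s ∧ vis
  · obtain ⟨hN, hvis⟩ := hN
    -- the sets of indices
    let lv : ι ⊕ κ → KI ι ⊕ FI κ n := Sum.elim (fun r => Sum.inl (Sum.inl r))
      fun r => Sum.inr (Sum.inr (Sum.inl (i, r)))
    let χ : ι → ZMod 2 := fun r => s.1 (Sum.inl r)
    let χ' : κ → ZMod 2 := fun r => s.1 (Sum.inr r)
    let y : SI κ n := if χ = 0 then (i, 0) else xs χ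
    let S1 : Finset (KI ι ⊕ FI κ n) := (s.2 ∪ Finset.univ.filter fun r => s.1 r ≠ 0).image lv
    let S2 : Finset (KI ι ⊕ FI κ n) := if χ = 0 then ∅ else {Sum.inl (Sum.inr χ)}
    let S3 : Finset (KI ι ⊕ FI κ n) :=
      if sq b (i, χ') = sq b y then ∅ else {Sum.inr (Sum.inr (Sum.inr ((i, χ'), y)))}
    have hS1 : S1.Nonempty := by
      rw [Finset.image_nonempty]
      rcases hN with ⟨r, hr⟩ | h
      · exact ⟨r, Finset.mem_union_left _ hr⟩
      · obtain ⟨r, hr⟩ : ∃ r, s.1 r ≠ 0 := by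
          by_contra hc
          push Not at hc
          exact h (funext hc)
        exact ⟨r, Finset.mem_union_right _ (by simpa using hr)⟩
    refine ⟨S1 ∪ S2 ∪ S3, (hS1.mono Finset.subset_union_left).mono Finset.subset_union_left, ?_⟩
    intro a ha hv k
    have hv' : Vis s.1 (Sum.elim a (b i)) := hv.2 hvis
    rw [le_val hN hv']
    have hlv : ∀ r, znum b a xs (lv r) = (Sum.elim a (b i) r).lev := by
      rintro (r | r) <;> rfl
    have hgg : ∀ j, g s.1 (Sum.elim a (b i)) j = g χ a j + sq b (i, χ') j := by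
      intro j
      unfold g
      rw [Fintype.sum_sum_type]
      rfl
    have h1 : (∀ z ∈ S1, k ≤ znum b a xs z) ↔ (∀ r ∈ s.2, k ≤ (Sum.elim a (b i) r).lev) ∧
        ∀ r, s.1 r ≠ 0 → k ≤ (Sum.elim a (b i) r).lev := by
      constructor
      · intro h
        refine ⟨fun r hr => ?_, fun r hr => ?_⟩
        · rw [← hlv]
          exact h _ (Finset.mem_image_of_mem _ (Finset.mem_union_left _ hr))
        · rw [← hlv]
          exact h _ (Finset.mem_image_of_mem _ (Finset.mem_union_right _ (by simpa using hr)))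
      · rintro ⟨h1, h2⟩ z hz
        obtain ⟨r, hr, rfl⟩ := Finset.mem_image.1 hz
        rw [hlv]
        rcases Finset.mem_union.1 hr with hr | hr
        · exact h1 r hr
        · exact h2 r (by simpa using hr)
    have h3 : (∀ z ∈ S3, k ≤ znum b a xs z) ↔ ∀ j < k, sq b (i, χ') j = sq b y j := by
      by_cases h : sq b (i, χ') = sq b y
      · have e : S3 = ∅ := if_pos h
        rw [e, h]
        exact ⟨fun _ _ _ => rfl, fun _ z hz => absurd hz (Finset.notMem_empty _)⟩
      · have e : S3 = {Sum.inr (Sum.inr (Sum.inr ((i, χ'), y)))} := if_neg h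
        rw [e, ← le_fd h]
        constructor
        · intro h
          exact h _ (Finset.mem_singleton_self _)
        · intro h z hz
          rw [Finset.mem_singleton] at hz
          rw [hz]
          exact h
    have hall : (∀ z ∈ S1 ∪ S2 ∪ S3, k ≤ znum b a xs z) ↔ (∀ z ∈ S1, k ≤ znum b a xs z) ∧
        (∀ z ∈ S2, k ≤ znum b a xs z) ∧ ∀ z ∈ S3, k ≤ znum b a xs z := by
      constructor
      · intro h
        exact ⟨fun z hz => h z (by simp [hz]), fun z hz => h z (by simp [hz]),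
          fun z hz => h z (by simp [hz])⟩
      · rintro ⟨h1, h2, h3⟩ z hz
        rcases Finset.mem_union.1 hz with hz | hz
        · rcases Finset.mem_union.1 hz with hz | hz
          · exact h1 z hz
          · exact h2 z hz
        · exact h3 z hz
    rw [hall, h1, h3]
    unfold Adm
    by_cases hχ : χ = 0
    · have e2 : S2 = ∅ := if_pos hχ
      have ey : y = (i, 0) := if_pos hχ
      have ez : ∀ j, sq b y j = 0 := by
        intro j
        rw [ey]
        exact g_zero _ _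
      have e3 : ∀ j, g s.1 (Sum.elim a (b i)) j = sq b (i, χ') j := by
        intro j
        rw [hgg, hχ, g_zero, zero_add]
      rw [e2]
      constructor
      · rintro ⟨g1, g2, g3⟩
        refine ⟨⟨g1, g2⟩, fun z hz => absurd hz (Finset.notMem_empty _), fun j hj => ?_⟩
        rw [ez, ← e3]
        exact g3 j hj
      · rintro ⟨⟨g1, g2⟩, _, g3⟩
        refine ⟨g1, g2, fun j hj => ?_⟩
        rw [e3, g3 j hj, ez]
    · have e2 : S2 = {Sum.inl (Sum.inr χ)} := if_neg hχ
      have ey : y = xs χ := if_neg hχ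
      have h2 : (∀ z ∈ S2, k ≤ znum b a xs z) ↔ k ≤ lam χ a (sq b y) := by
        rw [e2, ey]
        constructor
        · intro h
          exact h _ (Finset.mem_singleton_self _)
        · intro h z hz
          rw [Finset.mem_singleton] at hz
          rw [hz]
          exact h
      rw [h2]
      constructor
      · rintro ⟨g1, g2, g3⟩
        have c1 : k ≤ lam χ a (sq b (i, χ')) := by
          rw [le_lam hχ]
          refine ⟨fun r hr => g2 (Sum.inl r) hr, fun j hj => ?_⟩
          have := g3 j hj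
          rw [hgg] at this
          exact z2eq this
        have c2 : k ≤ lam χ a (sq b y) := by
          rw [ey]
          exact c1.trans (ha χ _)
        refine ⟨⟨g1, g2⟩, c2, fun j hj => ?_⟩
        rw [← ((le_lam hχ a _ k).1 c1).2 j hj, ((le_lam hχ a _ k).1 c2).2 j hj]
      · rintro ⟨⟨g1, g2⟩, c2, g3⟩
        refine ⟨g1, g2, fun j hj => ?_⟩
        rw [hgg, g3 j hj, ((le_lam hχ a _ k).1 c2).2 j hj]
        exact z2add _
  · refine ⟨{Sum.inr (Sum.inl ())}, Finset.singleton_nonempty _, ?_⟩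
    intro a ha hv k
    have h0 : val s (Sum.elim a (b i)) = 0 := by
      by_cases h1 : NE s
      · refine val_not fun h2 => hN ⟨h1, hv.1 h2⟩
      · exact val_empty h1
    rw [h0]
    constructor
    · intro h z hz
      rw [Finset.mem_singleton] at hz
      rw [hz]
      exact h
    · intro h
      exact h _ (Finset.mem_singleton_self _)

/-- The data of a tuple. -/
abbrev Dt (ι κ : Type) [Fintype ι] [Fintype κ] [DecidableEq κ] (n T : ℕ) :=
  ((ι → ZMod 2) → SI κ n) × (KI ι → Fin (Fintype.card (FI κ n × Fin (2 * T + 1)) + 1)) ×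
    (KI ι → KI ι → Fin (T + 1))

noncomputable def cell (b : Fin n → κ → Pt) (T x : ℕ) :
    Fin (Fintype.card (FI κ n × Fin (2 * T + 1)) + 1) :=
  ⟨(Finset.univ.filter fun z : FI κ n × Fin (2 * T + 1) => fnum b z.1 + z.2 ≤ x + T).card,
    Nat.lt_succ_of_le (Finset.card_le_univ _)⟩

theorem cell_le {b : Fin n → κ → Pt} {T x x' : ℕ} (hx : x ≤ x')
    (h : cell b T x = cell b T x') (z : FI κ n) (d : ℕ) (hd : d < 2 * T + 1) :
    (fnum b z + d ≤ x + T ↔ fnum b z + d ≤ x' + T) := by
  have h1 : (Finset.univ.filter fun z : FI κ n × Fin (2 * T + 1) => fnum b z.1 + z.2 ≤ x + T) ⊆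
      (Finset.univ.filter fun z : FI κ n × Fin (2 * T + 1) => fnum b z.1 + z.2 ≤ x' + T) := by
    intro y hy
    simp only [Finset.mem_filter, Finset.mem_univ, true_and] at hy ⊢
    omega
  have h2 := Finset.eq_of_subset_of_card_le h1 (le_of_eq (congrArg Fin.val h).symm)
  have h3 := Finset.ext_iff.1 h2 (z, ⟨d, hd⟩)
  simpa using h3

theorem cell_eq {b : Fin n → κ → Pt} {T x x' : ℕ} (h : cell b T x = cell b T x') (z : FI κ n) :
    min T (x - fnum b z) = min T (x' - fnum b z) ∧ min T (fnum b z - x) = min T (fnum b z - x') := by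
  apply cell_arith
  intro d hd
  rcases le_total x x' with hx | hx
  · exact cell_le hx h z d hd
  · exact (cell_le hx h.symm z d hd).symm

noncomputable def dt (b : Fin n → κ → Pt) (T : ℕ) (a : ι → Pt) (xs : (ι → ZMod 2) → SI κ n) :
    Dt ι κ n T :=
  (xs, fun k => cell b T (knum b a xs k), fun k l =>
    ⟨min T (knum b a xs k - knum b a xs l), Nat.lt_succ_of_le (min_le_left _ _)⟩)

theorem dt_E {b : Fin n → κ → Pt} {T : ℕ} (hT : 1 ≤ T) {a a' : ι → Pt}
    {xs xs' : (ι → ZMod 2) → SI κ n} (ha : Closest b a xs) (ha' : Closest b a' xs')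
    (h : dt b T a xs = dt b T a' xs') (i : Fin n) :
    E T (Sum.elim a (b i)) (Sum.elim a' (b i)) := by
  classical
  have e1 : xs = xs' := congrArg Prod.fst h
  subst e1
  have e2 : ∀ k, cell b T (knum b a xs k) = cell b T (knum b a' xs k) :=
    fun k => congrFun (congrArg (fun z => z.2.1) h) k
  have e3 : ∀ k l, min T (knum b a xs k - knum b a xs l) =
      min T (knum b a' xs k - knum b a' xs l) := fun k l =>
    congrArg Fin.val (congrFun (congrFun (congrArg (fun z => z.2.2) h) k) l)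
  have hZ : ∀ z z', min T (znum b a xs z - znum b a xs z') =
      min T (znum b a' xs z - znum b a' xs z') := by
    rintro (z | z) (z' | z')
    · exact e3 z z'
    · exact (cell_eq (e2 z) z').1
    · exact (cell_eq (e2 z') z).2
    · rfl
  -- visibility
  have hlv : ∀ r r', ((Sum.elim a (b i) r).lev = (Sum.elim a (b i) r').lev ↔
      (Sum.elim a' (b i) r).lev = (Sum.elim a' (b i) r').lev) := by
    intro r r'
    let lv : ι ⊕ κ → KI ι ⊕ FI κ n := Sum.elim (fun r => Sum.inl (Sum.inl r))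
      fun r => Sum.inr (Sum.inr (Sum.inl (i, r)))
    have h1 := hZ (lv r) (lv r')
    have h2 := hZ (lv r') (lv r)
    have h3 : ∀ (a : ι → Pt) r, znum b a xs (lv r) = (Sum.elim a (b i) r).lev := by
      rintro a (r | r) <;> rfl
    rw [h3, h3, h3, h3] at h1 h2
    omega
  have hvis : ∀ {a a' : ι → Pt}, (∀ r r', ((Sum.elim a (b i) r).lev = (Sum.elim a (b i) r').lev ↔
      (Sum.elim a' (b i) r).lev = (Sum.elim a' (b i) r').lev)) → ∀ χ : ι ⊕ κ → ZMod 2,
      Vis χ (Sum.elim a (b i)) → Vis χ (Sum.elim a' (b i)) := by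
    intro a a' hlv χ hv l
    by_cases hl : ∃ r, (Sum.elim a' (b i) r).lev = l
    · obtain ⟨r', rfl⟩ := hl
      rw [← hv (Sum.elim a (b i) r').lev]
      unfold ls
      refine Finset.sum_congr rfl fun r _ => ?_
      by_cases hc : (Sum.elim a (b i) r).lev = (Sum.elim a (b i) r').lev
      · rw [if_pos hc, if_pos ((hlv r r').1 hc)]
      · rw [if_neg hc, if_neg (fun hc' => hc ((hlv r r').2 hc'))]
    · push Not at hl
      exact ls_out χ hl
  intro s t
  obtain ⟨S, hS, h1⟩ := val_min b xs i s (Vis s.1 (Sum.elim a (b i)))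
  obtain ⟨S', hS', h2⟩ := val_min b xs i t (Vis t.1 (Sum.elim a (b i)))
  refine min_corr hT hZ hS hS' (h1 a ha Iff.rfl) (h2 a ha Iff.rfl) (h1 a' ha' ?_) (h2 a' ha' ?_)
  · exact ⟨hvis (fun r r' => (hlv r r').symm) _, hvis hlv _⟩
  · exact ⟨hvis (fun r r' => (hlv r r').symm) _, hvis hlv _⟩

theorem closest_exists (hn : 0 < n) (b : Fin n → κ → Pt) (a : ι → Pt) :
    ∃ xs, Closest b a xs := by
  have : Nonempty (SI κ n) := ⟨(⟨0, hn⟩, 0)⟩
  have h : ∀ χ, ∃ x : SI κ n, ∀ y, lam χ a (sq b y) ≤ lam χ a (sq b x) := fun χ =>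
    Finite.exists_max fun x => lam χ a (sq b x)
  choose xs hxs using h
  exact ⟨xs, hxs⟩

end count

theorem poly_lt_exp (C D : ℕ) : ∃ n : ℕ, 1 ≤ n ∧ C * n ^ D < 2 ^ n := by
  have h := tendsto_pow_const_div_const_pow_of_one_lt D (r := (2 : ℝ)) (by norm_num)
  have h2 : (0 : ℝ) < 1 / ((C : ℝ) + 1) := by positivity
  have h3 := (h.eventually (gt_mem_nhds h2)).and (Filter.eventually_ge_atTop 1)
  obtain ⟨n, hn, hn1⟩ := h3.exists
  refine ⟨n, hn1, ?_⟩
  have h4 : (0 : ℝ) < 2 ^ n := by positivity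
  rw [div_lt_div_iff₀ h4 (by positivity), one_mul] at hn
  have h5 : ((C * n ^ D : ℕ) : ℝ) < ((2 ^ n : ℕ) : ℝ) := by
    push_cast
    have h6 : (0 : ℝ) ≤ (n : ℝ) ^ D := by positivity
    nlinarith
  exact_mod_cast h5

/-- **The structure has NIP.** -/
theorem nip_pt {p q : ℕ} (φ : LL.Formula (Fin p ⊕ Fin q)) : ∃ n : ℕ, ∀ b : Fin n → Fin q → Pt,
    ¬ ∀ S : Set (Fin n), ∃ a : Fin p → Pt, ∀ i, (φ.Realize (Sum.elim a (b i)) ↔ i ∈ S) := by
  classical
  obtain ⟨T, hT, hφ⟩ := formula_inv φ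
  -- the bound for the number of data
  let A := Fintype.card (Fin p → ZMod 2)
  let Q := Fintype.card (Fin q → ZMod 2)
  let K := Fintype.card (KI (Fin p))
  have hcard : ∀ n : ℕ, 1 ≤ n → Fintype.card (Dt (Fin p) (Fin q) n T) ≤
      (Q ^ A * ((1 + q + Q * Q) * (2 * T + 1) + 1) ^ K * ((T + 1) ^ K) ^ K) * n ^ (A + 2 * K) := by
    intro n hn
    have e1 : Fintype.card (SI (Fin q) n) = n * Q := by
      rw [Fintype.card_prod, Fintype.card_fin]
    have e2 : Fintype.card (FI (Fin q) n × Fin (2 * T + 1)) + 1 ≤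
        ((1 + q + Q * Q) * (2 * T + 1) + 1) * n ^ 2 := by
      rw [Fintype.card_prod, Fintype.card_sum, Fintype.card_sum, Fintype.card_prod,
        Fintype.card_prod (SI (Fin q) n), e1, Fintype.card_unit, Fintype.card_fin, Fintype.card_fin,
        Fintype.card_fin]
      have hn2 : n ≤ n ^ 2 := by nlinarith
      have hn3 : 1 ≤ n ^ 2 := by nlinarith
      have h1 : 1 + (n * q + n * Q * (n * Q)) ≤ (1 + q + Q * Q) * n ^ 2 := by
        have a1 : n * q ≤ q * n ^ 2 := by nlinarith
        have a2 : n * Q * (n * Q) = Q * Q * n ^ 2 := by ring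
        nlinarith
      calc (1 + (n * q + n * Q * (n * Q))) * (2 * T + 1) + 1
          ≤ ((1 + q + Q * Q) * n ^ 2) * (2 * T + 1) + n ^ 2 :=
            Nat.add_le_add (Nat.mul_le_mul_right _ h1) hn3
        _ = _ := by ring
    have e3 : Fintype.card (Dt (Fin p) (Fin q) n T) = (n * Q) ^ A *
        ((Fintype.card (FI (Fin q) n × Fin (2 * T + 1)) + 1) ^ K * ((T + 1) ^ K) ^ K) := by
      have a1 : Fintype.card ((Fin p → ZMod 2) → SI (Fin q) n) = (n * Q) ^ A := by
        rw [Fintype.card_fun, e1]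
      have a2 : Fintype.card (KI (Fin p) →
          Fin (Fintype.card (FI (Fin q) n × Fin (2 * T + 1)) + 1)) =
          (Fintype.card (FI (Fin q) n × Fin (2 * T + 1)) + 1) ^ K := by
        rw [Fintype.card_fun, Fintype.card_fin]
      have a3 : Fintype.card (KI (Fin p) → KI (Fin p) → Fin (T + 1)) = ((T + 1) ^ K) ^ K := by
        rw [Fintype.card_fun, Fintype.card_fun, Fintype.card_fin]
      rw [Fintype.card_prod, Fintype.card_prod, a1, a2, a3]
    rw [e3]
    calc (n * Q) ^ A * ((Fintype.card (FI (Fin q) n × Fin (2 * T + 1)) + 1) ^ K *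
          ((T + 1) ^ K) ^ K)
        ≤ (n * Q) ^ A * ((((1 + q + Q * Q) * (2 * T + 1) + 1) * n ^ 2) ^ K *
          ((T + 1) ^ K) ^ K) := by
          refine Nat.mul_le_mul_left _ (Nat.mul_le_mul_right _ ?_)
          exact Nat.pow_le_pow_left e2 K
      _ = _ := by
          rw [mul_pow, mul_pow, ← pow_mul n 2 K, pow_add]
          ring
  obtain ⟨n, hn, hlt⟩ := poly_lt_exp
    (Q ^ A * ((1 + q + Q * Q) * (2 * T + 1) + 1) ^ K * ((T + 1) ^ K) ^ K) (A + 2 * K)
  refine ⟨n, fun b hb => ?_⟩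
  choose a ha using hb
  choose xs hxs using fun S => closest_exists (ι := Fin p) (by omega : 0 < n) b (a S)
  have hinj : Function.Injective fun S : Set (Fin n) => dt b T (a S) (xs S) := by
    intro S S' hSS
    ext i
    rw [← ha S i, ← ha S' i]
    exact hφ _ _ (dt_E hT (hxs S) (hxs S') hSS i)
  have h1 := Fintype.card_le_of_injective _ hinj
  rw [Fintype.card_set, Fintype.card_fin] at h1
  have h2 := hcard n hn
  omega

end Pool.Agent.H667.LV
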