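import Pool.Agent.H667.LV.Br
import Pool.Agent.H667.LV.Nip

set_option autoImplicit false

/-!
The directed family.
-/

namespace Pool.Agent.H667.LV

open Finset FirstOrder FirstOrder.Language Pool.Agent.H667.MT

universe u

section general

variable {L : FirstOrder.Language.{0, 0}} {M : Type u} [L.Structure M] {n : ℕ}

theorem definable_fiber {k : ℕ} (φ : L.Formula (Fin n ⊕ Fin k)) (b : Fin k → M) :
    (Set.univ : Set M).Definable L {a : Fin n → M | φ.Realize (Sum.elim a b)} := by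
  rw [Set.definable_iff_exists_formula_sum]
  refine ⟨φ.relabel (Sum.elim Sum.inr fun j => Sum.inl ⟨b j, trivial⟩), ?_⟩
  ext a
  simp only [Set.mem_ofPred_eq, Formula.realize_relabel]
  apply iff_of_eq
  congr 1
  funext z
  rcases z with z | z <;> rfl

theorem definable_of_formula {α : Type} {S : Set (α → M)} {φ : L.Formula α}
    (h : ∀ v, φ.Realize v ↔ v ∈ S) : (Set.univ : Set M).Definable L S := by
  rw [Set.definable_iff_exists_formula_sum]
  refine ⟨φ.relabel Sum.inr, ?_⟩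
  ext a
  simp only [Set.mem_ofPred_eq, Formula.realize_relabel]
  rw [← h a]
  rfl

theorem type_union {p : Set (Set (Fin n → M))} (hp : IsType L p) {s : Set (Fin n → M)}
    (hs : s ∈ p) {I : Type} [Fintype I] (U : I → Set (Fin n → M))
    (hU : ∀ i, (Set.univ : Set M).Definable L (U i)) (h : s ⊆ ⋃ i, U i) : ∃ i, U i ∈ p := by
  classical
  by_contra hc
  push Not at hc
  have h1 : ∀ F : Finset I, {a | a ∈ s ∧ ∀ i ∈ F, a ∉ U i} ∈ p := by
    intro F
    induction F using Finset.induction with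
    | empty =>
      have : {a | a ∈ s ∧ ∀ i ∈ (∅ : Finset I), a ∉ U i} = s := by
        ext a
        simp
      rw [this]
      exact hs
    | insert i F _ ih =>
      have h2 : (U i)ᶜ ∈ p := (hp.compl _ (hU i)).resolve_left (hc i)
      have h3 := hp.inter _ ih _ h2
      have : {a | a ∈ s ∧ ∀ j ∈ insert i F, a ∉ U j} =
          {a | a ∈ s ∧ ∀ i ∈ F, a ∉ U i} ∩ (U i)ᶜ := by
        ext a
        simp only [Finset.mem_insert, forall_eq_or_imp, Set.mem_inter_iff, Set.mem_compl_iff,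
          Set.mem_ofPred_eq]
        tauto
      rw [this]
      exact h3
  have h2 := h1 Finset.univ
  have h3 : {a | a ∈ s ∧ ∀ i ∈ (Finset.univ : Finset I), a ∉ U i} = ∅ := by
    ext a
    simp only [Finset.mem_univ, true_implies, Set.mem_ofPred_eq, Set.mem_empty_iff_false, iff_false]
    rintro ⟨h4, h5⟩
    obtain ⟨i, hi⟩ := Set.mem_iUnion.1 (h h4)
    exact h5 i hi
  rw [h3] at h2
  exact hp.empty_notMem h2

theorem type_inter {p : Set (Set (Fin n → M))} (hp : IsType L p) {s t : Set (Fin n → M)}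
    (hs : s ∈ p) (ht : t ∈ p) : (s ∩ t).Nonempty := by
  rw [Set.nonempty_iff_ne_empty]
  intro h
  have := hp.inter _ hs _ ht
  rw [h] at this
  exact hp.empty_notMem this

end general

/-- Invariant sets are definable. -/
theorem definable_of_inv {ι : Type} [Fintype ι] [DecidableEq ι] (T : ℕ) (S : Set (ι → Pt))
    (h : ∀ a b, E T a b → a ∈ S → b ∈ S) : ∃ φ : LL.Formula ι, ∀ v : ι → Pt,
      φ.Realize v ↔ v ∈ S := by
  let ρ : Fin (Fintype.card ι) → ι := (Fintype.equivFin ι).symm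
  let K : Set (Key T (Fin (Fintype.card ι))) := {κ | ∃ v ∈ S, key T (v ∘ ρ) = κ}
  let φ : LL.Formula ι := (BoundedFormula.rel (⟨T, K⟩ : LL.Relations (Fintype.card ι))
    fun i => Term.var (Sum.inl (ρ i)) : LL.BoundedFormula ι 0)
  refine ⟨φ, fun v => ?_⟩
  have e : φ.Realize v ↔ key T (v ∘ ρ) ∈ K := Iff.rfl
  rw [e]
  constructor
  · rintro ⟨w, hw, h1⟩
    have h2 := (key_eq.1 h1).comp (Fintype.equivFin ι)
    have e : ∀ y : ι → Pt, (y ∘ ρ) ∘ (Fintype.equivFin ι) = y := by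
      intro y
      funext z
      simp [ρ]
    rw [e, e] at h2
    exact h _ _ h2 hw
  · intro hv
    exact ⟨v, hv, rfl⟩

/-- The total set of the family. -/
def XX : Set (Fin 1 ⊕ Fin 2 → Pt) :=
  {v | (v (Sum.inr 0)).lev = (v (Sum.inr 1)).lev ∧ (v (Sum.inl 0)).lev < (v (Sum.inr 0)).lev ∧
    (v (Sum.inr 0)).co 0 ≠ (v (Sum.inr 1)).co 0}

theorem pair_val {ι : Type} [Fintype ι] [DecidableEq ι] (a : ι → Pt) {r r' : ι} (hne : r ≠ r')
    (hl : (a r).lev = (a r').lev) (k : ℕ) :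
    k ≤ val (Pi.single r 1 + Pi.single r' 1, {r}) a ↔
      k ≤ (a r).lev ∧ ∀ j < k, (a r).co j = (a r').co j := by
  have hNE : NE ((Pi.single r 1 + Pi.single r' 1, {r}) : Tm ι) :=
    Or.inl ⟨r, Finset.mem_singleton_self r⟩
  have hvis : Vis (Pi.single r 1 + Pi.single r' 1) a := by
    intro l
    rw [ls_pair a hne, hl]
    exact z2add _
  rw [le_val hNE hvis]
  constructor
  · rintro ⟨h1, _, h3⟩
    refine ⟨h1 r (Finset.mem_singleton_self r), fun j hj => ?_⟩
    have := h3 j hj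
    rw [g_add, g_single, g_single] at this
    exact z2eq this
  · rintro ⟨h1, h2⟩
    refine ⟨?_, ?_, fun j hj => ?_⟩
    · intro i hi
      rw [Finset.mem_singleton] at hi
      rw [hi]
      exact h1
    · intro i hi
      by_cases hi1 : i = r
      · rw [hi1]; exact h1
      · by_cases hi2 : i = r'
        · rw [hi2, ← hl]; exact h1
        · exfalso
          apply hi
          show (Pi.single r 1 : ι → ZMod 2) i + (Pi.single r' 1 : ι → ZMod 2) i = 0
          rw [Pi.single_eq_of_ne hi1, Pi.single_eq_of_ne hi2, add_zero]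
    · rw [g_add, g_single, g_single, h2 j hj]
      exact z2add _

theorem XX_inv (a b : Fin 1 ⊕ Fin 2 → Pt) (h : E 1 a b) (ha : a ∈ XX) : b ∈ XX := by
  obtain ⟨h1, h2, h3⟩ := ha
  have hl := (h.lev_eq le_rfl (Sum.inr 0) (Sum.inr 1)).1 h1
  have hne : (Sum.inr 0 : Fin 1 ⊕ Fin 2) ≠ Sum.inr 1 := by simp
  refine ⟨hl, ?_, ?_⟩
  · have := h.lt le_rfl ((0, {Sum.inl 0}) : Tm (Fin 1 ⊕ Fin 2)) (0, {Sum.inr 0})
    rw [val_lev, val_lev, val_lev, val_lev] at this
    exact this.1 h2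
  · intro hc
    have h4 : (b (Sum.inl 0)).lev < (b (Sum.inr 0)).lev := by
      have := h.lt le_rfl ((0, {Sum.inl 0}) : Tm (Fin 1 ⊕ Fin 2)) (0, {Sum.inr 0})
      rw [val_lev, val_lev, val_lev, val_lev] at this
      exact this.1 h2
    have h5 : 1 ≤ val (Pi.single (Sum.inr 0) 1 + Pi.single (Sum.inr 1) 1, {Sum.inr 0}) b := by
      rw [pair_val b hne hl]
      refine ⟨by omega, fun j hj => ?_⟩
      have : j = 0 := by omega
      rw [this]
      exact hc
    have h6 := h.lt le_rfl ((0, ∅) : Tm (Fin 1 ⊕ Fin 2))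
      (Pi.single (Sum.inr 0) 1 + Pi.single (Sum.inr 1) 1, {Sum.inr 0})
    rw [val_zero, val_zero] at h6
    have h7 : 1 ≤ val (Pi.single (Sum.inr 0) 1 + Pi.single (Sum.inr 1) 1, {Sum.inr 0}) a :=
      h6.2 h5
    rw [pair_val a hne h1] at h7
    exact h3 (h7.2 0 (by omega))

/-- The relation `R(x, y; z, w)`. -/
def RR : Set (Fin 2 ⊕ Fin 2 → Pt) :=
  {v | (v (Sum.inl 0)).lev = (v (Sum.inl 1)).lev ∧ (v (Sum.inr 0)).lev = (v (Sum.inr 1)).lev ∧
    (v (Sum.inr 0)).lev ≤ (v (Sum.inl 0)).lev ∧ ∀ k < (v (Sum.inr 0)).lev,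
      (v (Sum.inl 0)).co k + (v (Sum.inl 1)).co k = (v (Sum.inr 0)).co k + (v (Sum.inr 1)).co k}

theorem four_val (a : Fin 2 ⊕ Fin 2 → Pt) (h1 : (a (Sum.inl 0)).lev = (a (Sum.inl 1)).lev)
    (h2 : (a (Sum.inr 0)).lev = (a (Sum.inr 1)).lev)
    (h3 : (a (Sum.inr 0)).lev ≤ (a (Sum.inl 0)).lev) :
    (a (Sum.inr 0)).lev ≤ val ((fun _ => 1, ∅) : Tm (Fin 2 ⊕ Fin 2)) a ↔ ∀ k < (a (Sum.inr 0)).lev,
      (a (Sum.inl 0)).co k + (a (Sum.inl 1)).co k =
        (a (Sum.inr 0)).co k + (a (Sum.inr 1)).co k := by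
  have hNE : NE ((fun _ => 1, ∅) : Tm (Fin 2 ⊕ Fin 2)) := by
    refine Or.inr fun h => ?_
    exact one_ne_zero (congrFun h (Sum.inl 0))
  have hvis : Vis (fun _ => 1) a := by
    intro l
    unfold ls
    rw [Fintype.sum_sum_type, Fin.sum_univ_two, Fin.sum_univ_two, h1, h2, z2add, z2add, add_zero]
  have hg : ∀ k, g (fun _ => 1) a k = ((a (Sum.inl 0)).co k + (a (Sum.inl 1)).co k) +
        ((a (Sum.inr 0)).co k + (a (Sum.inr 1)).co k) := by
    intro k
    unfold g
    rw [Fintype.sum_sum_type, Fin.sum_univ_two, Fin.sum_univ_two, one_mul, one_mul, one_mul, one_mul]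
  rw [le_val hNE hvis]
  constructor
  · rintro ⟨_, _, h⟩ k hk
    have := h k hk
    rw [hg] at this
    exact z2eq this
  · intro h
    refine ⟨fun r hr => absurd hr (Finset.notMem_empty _), fun r _ => ?_, fun j hj => ?_⟩
    · rcases r with r | r
      · fin_cases r
        · exact h3
        · exact h3.trans h1.le
      · fin_cases r
        · exact le_rfl
        · exact h2.le
    · rw [hg, h j hj]
      exact z2add _

theorem RR_inv (a b : Fin 2 ⊕ Fin 2 → Pt) (h : E 1 a b) (ha : a ∈ RR) : b ∈ RR := by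
  obtain ⟨h1, h2, h3, h4⟩ := ha
  have g1 := (h.lev_eq le_rfl _ _).1 h1
  have g2 := (h.lev_eq le_rfl _ _).1 h2
  have g3 : (b (Sum.inr 0)).lev ≤ (b (Sum.inl 0)).lev := by
    have := h.lt le_rfl ((0, {Sum.inl 0}) : Tm (Fin 2 ⊕ Fin 2)) (0, {Sum.inr 0})
    rw [val_lev, val_lev, val_lev, val_lev] at this
    by_contra hc
    push Not at hc
    exact absurd (this.2 hc) (not_lt.2 h3)
  refine ⟨g1, g2, g3, ?_⟩
  rw [← four_val a h1 h2 h3] at h4
  rw [← four_val b g1 g2 g3]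
  have := h.lt le_rfl ((fun _ => 1, ∅) : Tm (Fin 2 ⊕ Fin 2)) (0, {Sum.inr 0})
  rw [val_lev, val_lev] at this
  by_contra hc
  push Not at hc
  exact absurd (this.2 hc) (not_lt.2 h4)

theorem exists_phiX : ∃ φ : LL.Formula (Fin 1 ⊕ Fin 2), ∀ v : Fin 1 ⊕ Fin 2 → Pt,
    φ.Realize v ↔ v ∈ XX := definable_of_inv 1 XX XX_inv

theorem exists_phiR : ∃ φ : LL.Formula (Fin 2 ⊕ Fin 2), ∀ v : Fin 2 ⊕ Fin 2 → Pt,
    φ.Realize v ↔ v ∈ RR := definable_of_inv 1 RR RR_inv

/-- The point of level `j` with given bits. -/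
def mkPt (j : ℕ) (f : Fin j → ZMod 2) : Pt where
  lev := j
  co := fun k => if h : k < j then f ⟨k, h⟩ else 0
  supp := fun k hk => dif_neg (not_lt.2 hk)

/-- The directed family. -/
noncomputable def fam : DefFamily LL Pt 1 2 where
  Y := Set.univ
  X := XX
  defY := Set.definable_univ
  defX := definable_of_formula exists_phiX.choose_spec

theorem mem_member (b : Fin 1 → Pt) (a : Fin 2 → Pt) : a ∈ fam.member b ↔
    (a 0).lev = (a 1).lev ∧ (b 0).lev < (a 0).lev ∧ (a 0).co 0 ≠ (a 1).co 0 := Iff.rfl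

theorem fam_directed : fam.Directed := by
  refine ⟨⟨fun _ => mkPt 0 0, trivial⟩, fun b _ => ?_, fun b _ b' _ => ?_⟩
  · refine ⟨![mkPt ((b 0).lev + 1) 0, mkPt ((b 0).lev + 1) 1], ?_⟩
    rw [mem_member]
    refine ⟨rfl, Nat.lt_succ_self _, ?_⟩
    show (if h : 0 < (b 0).lev + 1 then (0 : Fin ((b 0).lev + 1) → ZMod 2) ⟨0, h⟩ else 0) ≠
      (if h : 0 < (b 0).lev + 1 then (1 : Fin ((b 0).lev + 1) → ZMod 2) ⟨0, h⟩ else 0)
    rw [dif_pos (Nat.succ_pos _), dif_pos (Nat.succ_pos _)]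
    exact zero_ne_one
  · refine ⟨fun _ => mkPt (max (b 0).lev (b' 0).lev) 0, trivial, fun a ha => ?_⟩
    rw [mem_member] at ha
    obtain ⟨h1, h2, h3⟩ := ha
    have h2' : max (b 0).lev (b' 0).lev < (a 0).lev := h2
    rw [max_lt_iff] at h2'
    exact ⟨(mem_member _ _).2 ⟨h1, h2'.1, h3⟩, (mem_member _ _).2 ⟨h1, h2'.2, h3⟩⟩

/-- No definable type contains the members of the family. -/
theorem fam_no_type (p : Set (Set (Fin 2 → Pt))) (hp : IsType LL p) (hd : DefinableType LL p)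
    (hX : ∀ b ∈ fam.Y, fam.member b ∈ p) : False := by
  classical
  obtain ⟨φ, hφ⟩ := exists_phiR
  refine no_branch (hd 2 φ) ?_ ?_
  · intro j hj
    let U : (Fin j → ZMod 2) → Set (Fin 2 → Pt) := fun f =>
      {a | φ.Realize (Sum.elim a ![mkPt j f, mkPt j 0])}
    have hcov : fam.member (fun _ => mkPt j 0) ⊆ ⋃ f, U f := by
      intro a ha
      rw [mem_member] at ha
      obtain ⟨h1, h2, h3⟩ := ha
      have h2' : j < (a 0).lev := h2
      rw [Set.mem_iUnion]
      refine ⟨fun k => (a 0).co k + (a 1).co k, ?_⟩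
      show φ.Realize _
      rw [hφ]
      refine ⟨h1, rfl, h2'.le, ?_⟩
      intro k hk
      have hk' : k < j := hk
      show (a 0).co k + (a 1).co k =
        (if h : k < j then (a 0).co (⟨k, h⟩ : Fin j) + (a 1).co (⟨k, h⟩ : Fin j) else 0) +
          (if h : k < j then (0 : Fin j → ZMod 2) ⟨k, h⟩ else 0)
      rw [dif_pos hk', dif_pos hk']
      show _ = _ + 0
      rw [add_zero]
    obtain ⟨f, hf⟩ := type_union hp (hX (fun _ => mkPt j 0) trivial) U
      (fun f => definable_fiber φ _) hcov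
    refine ⟨mkPt j f, mkPt j 0, rfl, rfl, ?_, hf⟩
    obtain ⟨a, ha1, ha2⟩ := type_inter hp hf (hX (fun _ => mkPt j 0) trivial)
    have ha3 : φ.Realize (Sum.elim a ![mkPt j f, mkPt j 0]) := ha1
    rw [hφ] at ha3
    have ha4 := ((mem_member _ _).1 ha2).2.2
    have ha5 := ha3.2.2.2 0 hj
    have ha6 : (a 0).co 0 + (a 1).co 0 = (mkPt j f).co 0 + (mkPt j 0).co 0 := ha5
    intro hc
    rw [hc, z2add] at ha6
    exact ha4 (z2eq ha6)
  · intro z w z' w' h1 h2 hl1 hl2 hl3 k hk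
    obtain ⟨a, ha1, ha2⟩ := type_inter hp (s := {a | φ.Realize (Sum.elim a ![z, w])})
      (t := {a | φ.Realize (Sum.elim a ![z', w'])}) h1 h2
    have ha3 : φ.Realize (Sum.elim a ![z, w]) := ha1
    have ha4 : φ.Realize (Sum.elim a ![z', w']) := ha2
    rw [hφ] at ha3 ha4
    have ha5 := ha3.2.2.2 k hk
    have ha6 := ha4.2.2.2 k (show k < z'.lev by rw [hl2]; exact hk)
    exact ha5.symm.trans ha6

instance : Countable Pt := by
  have : Function.Surjective (fun x : Σ j : ℕ, (Fin j → ZMod 2) => mkPt x.1 x.2) := by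
    intro p
    refine ⟨⟨p.lev, fun k => p.co k⟩, ?_⟩
    refine Pt.ext rfl (funext fun k => ?_)
    show (if h : k < p.lev then p.co k else 0) = p.co k
    split_ifs with h
    · rfl
    · exact (p.supp k (not_lt.1 h)).symm
  exact this.countable

theorem dp_pt : DpMinimal.{u} (LL.completeTheory Pt) := dpMinimal_of fun _ _ φ ψ => no_pattern φ ψ

theorem distal_pt : Distal.{u} (LL.completeTheory Pt) :=
  ⟨nip_of fun _ _ φ => nip_pt φ, fun _ _ hN => distalSequences hN⟩

end Pool.Agent.H667.LV
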