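import Mathlib

set_option autoImplicit false

/-!
Saturated elementary extensions.
-/

namespace Pool.Agent.H667.MT

open FirstOrder FirstOrder.Language

universe u

variable {L : FirstOrder.Language.{0, 0}}

variable (L) in
/-- The structure `N` is countably saturated: every countable set of formulas in one variable with
parameters in `N` which is finitely satisfiable in `N` is satisfiable in `N`. -/
def CountablySaturated (N : Type u) [L.Structure N] : Prop :=
  ∀ (q : ℕ → ℕ) (σ : ∀ n, L.Formula (Fin 1 ⊕ Fin (q n))) (b : ∀ n, Fin (q n) → N),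
    (∀ n, ∃ x : N, ∀ m < n, (σ m).Realize (Sum.elim (fun _ => x) (b m))) →
      ∃ x : N, ∀ m, (σ m).Realize (Sum.elim (fun _ => x) (b m))

/-- The ultrapower. -/
abbrev UP (M : Type) : Type := ((Filter.hyperfilter ℕ : Ultrafilter ℕ) : Filter ℕ).Product fun _ => M

/-- The class of a sequence. -/
noncomputable def cls {M : Type} (x : ℕ → M) : UP M :=
  ((x : ∀ _ : ℕ, M) : ((Filter.hyperfilter ℕ : Ultrafilter ℕ) : Filter ℕ).Product fun _ => M)

theorem cls_surj {M : Type} (y : UP M) : ∃ x : ℕ → M, cls x = y := by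
  induction y using Quotient.inductionOn' with
  | h x => exact ⟨x, rfl⟩

theorem realize_cls {M : Type} [L.Structure M] [Nonempty M] {β : Type} (φ : L.Formula β)
    (x : β → ℕ → M) : (φ.Realize fun i => cls (x i)) ↔
      ∀ᶠ a in ((Filter.hyperfilter ℕ : Ultrafilter ℕ) : Filter ℕ), φ.Realize fun i => x i a :=
  Ultraproduct.realize_formula_cast φ x

/-- The diagonal embedding. -/
noncomputable def diag (M : Type) [L.Structure M] [Nonempty M] : M ↪ₑ[L] UP M where
  toFun := fun m => cls fun _ => m
  map_formula' := by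
    intro n φ x
    have h := realize_cls φ fun (i : Fin n) (_ : ℕ) => x i
    have h2 : (φ.Realize ((fun m => cls fun _ => m) ∘ x : Fin n → UP M)) ↔
        ∀ᶠ _ in ((Filter.hyperfilter ℕ : Ultrafilter ℕ) : Filter ℕ), φ.Realize x := h
    rw [h2, Filter.eventually_const]

theorem up_saturated (M : Type) [L.Structure M] [Nonempty M] : CountablySaturated L (UP M) := by
  classical
  intro q σ b hfin
  choose b' hb' using fun n i => cls_surj (b n i)
  -- the sets of good indices
  let G : ℕ → Set ℕ := fun n => {a | ∃ x : M, ∀ m < n, (σ m).Realize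
    (Sum.elim (fun _ => x) fun i => b' m i a)}
  have hG : ∀ n, ∀ᶠ a in ((Filter.hyperfilter ℕ : Ultrafilter ℕ) : Filter ℕ), a ∈ G n := by
    intro n
    obtain ⟨x, hx⟩ := hfin n
    obtain ⟨x', rfl⟩ := cls_surj x
    have h1 : ∀ m ∈ Finset.range n, ∀ᶠ a in ((Filter.hyperfilter ℕ : Ultrafilter ℕ) : Filter ℕ),
        (σ m).Realize (Sum.elim (fun _ => x' a) fun i => b' m i a) := by
      intro m hm
      have h2 := hx m (Finset.mem_range.1 hm)
      have h3 : Sum.elim (fun _ => cls x') (b m) =
          fun i => cls ((Sum.elim (fun _ => x') (b' m) : Fin 1 ⊕ Fin (q m) → ℕ → M) i) := by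
        funext i
        rcases i with i | i
        · rfl
        · exact (hb' m i).symm
      rw [h3, realize_cls] at h2
      refine h2.mono fun a ha => ?_
      convert ha using 1
      funext i
      rcases i with i | i <;> rfl
    rw [← Filter.eventually_all_finset] at h1
    refine h1.mono fun a ha => ⟨x' a, fun m hm => ha m (Finset.mem_range.2 hm)⟩
  -- the diagonal element
  have hch : ∀ a : ℕ, ∃ x : M, ∀ n ≤ a, a ∈ G n → ∀ m < n, (σ m).Realize
      (Sum.elim (fun _ => x) fun i => b' m i a) := by
    intro a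
    by_cases h0 : ∃ n ≤ a, a ∈ G n
    · let n := Nat.findGreatest (fun n => a ∈ G n) a
      obtain ⟨n0, hn0, hn0'⟩ := h0
      have hn : a ∈ G n := Nat.findGreatest_spec (P := fun n => a ∈ G n) hn0 hn0'
      obtain ⟨x, hx⟩ := hn
      refine ⟨x, fun n' hn' hG' m hm => hx m (hm.trans_le ?_)⟩
      exact Nat.le_findGreatest hn' hG'
    · exact ⟨Classical.arbitrary M, fun n hn h => absurd ⟨n, hn, h⟩ h0⟩
  choose x hx using hch
  refine ⟨cls x, fun m => ?_⟩
  have h3 : Sum.elim (fun _ => cls x) (b m) =
      fun i => cls ((Sum.elim (fun _ => x) (b' m) : Fin 1 ⊕ Fin (q m) → ℕ → M) i) := by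
    funext i
    rcases i with i | i
    · rfl
    · exact (hb' m i).symm
  rw [h3, realize_cls]
  have h4 : ∀ᶠ a in ((Filter.hyperfilter ℕ : Ultrafilter ℕ) : Filter ℕ), m + 1 ≤ a := by
    have h5 : {a : ℕ | m + 1 ≤ a} ∈ Filter.hyperfilter ℕ := by
      apply Filter.mem_hyperfilter_of_finite_compl
      refine (Set.finite_lt_nat (m + 1)).subset ?_
      intro a ha
      have : ¬ m + 1 ≤ a := ha
      show a < m + 1
      omega
    exact h5
  filter_upwards [hG (m + 1), h4] with a ha1 ha2
  have h6 := hx a (m + 1) ha2 ha1 m (Nat.lt_succ_self m)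
  convert h6 using 1
  funext i
  rcases i with i | i <;> rfl

/-- Countably saturated elementary extensions exist. -/
theorem exists_saturated (M : Type) [L.Structure M] [Nonempty M] :
    ∃ (N : Type) (_ : L.Structure N) (_ : M ↪ₑ[L] N), CountablySaturated L N :=
  ⟨UP M, inferInstance, diag M, up_saturated M⟩

end Pool.Agent.H667.MT
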