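import Pool.Agent.H667.LV.Defs
import Pool.Agent.H667.LV.Sat

set_option autoImplicit false

/-!
Definitions: dividing, forking and definable global types.
-/

namespace Pool.Agent.H667.MT

open FirstOrder FirstOrder.Language

universe u

variable {L : FirstOrder.Language.{0, 0}}

/-- The tuples `c` and `c'` in the elementary extension `N` of `M` have the same type over `M`. -/
def SameType {M : Type} {N : Type u} [L.Structure M] [L.Structure N] (f : M ↪ₑ[L] N) {q : ℕ}
    (c c' : Fin q → N) : Prop :=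
  ∀ (m : ℕ) (φ : L.Formula (Fin q ⊕ Fin m)) (a : Fin m → M),
    (φ.Realize (Sum.elim c (f ∘ a)) ↔ φ.Realize (Sum.elim c' (f ∘ a)))

/-- The formula `ψ(x; c)` divides over `M`: there are `k` and a sequence of tuples with the same
type over `M` as `c` such that no `k` of the corresponding formulas are jointly satisfiable. -/
def Divides {M : Type} {N : Type u} [L.Structure M] [L.Structure N] (f : M ↪ₑ[L] N) {n q : ℕ}
    (ψ : L.Formula (Fin n ⊕ Fin q)) (c : Fin q → N) : Prop :=
  ∃ (k : ℕ) (s : ℕ → Fin q → N), (∀ i, SameType f c (s i)) ∧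
    ∀ t : Fin k → ℕ, StrictMono t → ¬ ∃ x : Fin n → N, ∀ i, ψ.Realize (Sum.elim x (s (t i)))

/-- The formula `φ(x; b)` forks over `M`: it implies a finite disjunction of formulas each of which
divides over `M`. -/
def Forks {M : Type} {N : Type u} [L.Structure M] [L.Structure N] (f : M ↪ₑ[L] N) {n q : ℕ}
    (φ : L.Formula (Fin n ⊕ Fin q)) (b : Fin q → N) : Prop :=
  ∃ (K : ℕ) (r : Fin K → ℕ) (ψ : ∀ k, L.Formula (Fin n ⊕ Fin (r k))) (c : ∀ k, Fin (r k) → N),
    (∀ k, Divides f (ψ k) (c k)) ∧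
      ∀ x : Fin n → N, φ.Realize (Sum.elim x b) → ∃ k, (ψ k).Realize (Sum.elim x (c k))

/-- The complete type `p` over `N` is `M`-definable. -/
def DefinableOver {M : Type} {N : Type u} [L.Structure M] [L.Structure N] (f : M ↪ₑ[L] N) {n : ℕ}
    (p : Set (Set (Fin n → N))) : Prop :=
  ∀ (k : ℕ) (χ : L.Formula (Fin n ⊕ Fin k)), ∃ (m : ℕ) (d : L.Formula (Fin k ⊕ Fin m))
    (a : Fin m → M), ∀ e : Fin k → N,
      ({x | χ.Realize (Sum.elim x e)} ∈ p ↔ d.Realize (Sum.elim e (f ∘ a)))

end Pool.Agent.H667.MT
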