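import Pool.Agent.H667.LV.Fam
import Pool.Agent.H667.LV.ForkDefs

set_option autoImplicit false

/-!
The formula does not fork.
-/

namespace Pool.Agent.H667.MT

open FirstOrder FirstOrder.Language

universe u

variable {L : FirstOrder.Language.{0, 0}} {M : Type} {N : Type u} [L.Structure M] [L.Structure N]

/-- Finite configurations over `M`. -/
theorem approxP (f : M ↪ₑ[L] N) {γ β D : Type} [Finite β] [Finite D] (δ : D → L.Formula (γ ⊕ β))
    (a : γ → M) (v : β → N) :
    ∃ v' : β → M, ∀ d, ((δ d).Realize (Sum.elim (f ∘ a) v) ↔ (δ d).Realize (Sum.elim a v')) := by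
  classical
  let χ : L.Formula (γ ⊕ β) := BoundedFormula.iInf fun d =>
    if (δ d).Realize (Sum.elim (f ∘ a) v) then δ d else (δ d).not
  have hχ : χ.Realize (Sum.elim (f ∘ a) v) := by
    show BoundedFormula.Realize (BoundedFormula.iInf _) _ _
    rw [BoundedFormula.realize_iInf]
    intro d
    by_cases h : (δ d).Realize (Sum.elim (f ∘ a) v)
    · rw [if_pos h]
      exact h
    · rw [if_neg h]
      exact h
  have h1 : (Formula.iExs β χ).Realize (f ∘ a) := by
    rw [Formula.realize_iExs]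
    exact ⟨v, hχ⟩
  have h2 : (Formula.iExs β χ).Realize a := by
    rw [← f.map_formula]
    exact h1
  rw [Formula.realize_iExs] at h2
  obtain ⟨v', hv'⟩ := h2
  refine ⟨v', fun d => ?_⟩
  have h1 : (if (δ d).Realize (Sum.elim (f ∘ a) v) then δ d else (δ d).not).Realize
      (Sum.elim a v') := by
    have h2 : BoundedFormula.Realize χ (Sum.elim a v') default := hv'
    have h3 := (BoundedFormula.realize_iInf (L := L) (M := M)
      (f := fun d => if (δ d).Realize (Sum.elim (f ∘ a) v) then δ d else (δ d).not)).1 h2 d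
    exact h3
  by_cases h : (δ d).Realize (Sum.elim (f ∘ a) v)
  · rw [if_pos h] at h1
    exact ⟨fun _ => h1, fun _ => h⟩
  · rw [if_neg h, Formula.realize_not] at h1
    exact ⟨fun h' => absurd h' h, fun h' => absurd h' h1⟩

/-- Transfer of existence statements. -/
theorem ae_transfer (f : M ↪ₑ[L] N) {γ α β D : Type} [Finite α] [Finite β] [Finite D]
    (δ : D → L.Formula ((γ ⊕ α) ⊕ β)) (a : γ → M)
    (h : ∀ v : α → M, ∃ x : β → M, ∀ d, (δ d).Realize (Sum.elim (Sum.elim a v) x)) (v : α → N) :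
    ∃ x : β → N, ∀ d, (δ d).Realize (Sum.elim (Sum.elim (f ∘ a) v) x) := by
  classical
  let χ : L.Formula ((γ ⊕ α) ⊕ β) := BoundedFormula.iInf δ
  have hχ : ∀ {K : Type u} [L.Structure K] (w : (γ ⊕ α) ⊕ β → K),
      χ.Realize w ↔ ∀ d, (δ d).Realize w := by
    intro K _ w
    show BoundedFormula.Realize (BoundedFormula.iInf _) _ _ ↔ _
    rw [BoundedFormula.realize_iInf]
    rfl
  have hχ' : ∀ {K : Type} [L.Structure K] (w : (γ ⊕ α) ⊕ β → K),
      χ.Realize w ↔ ∀ d, (δ d).Realize w := by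
    intro K _ w
    show BoundedFormula.Realize (BoundedFormula.iInf _) _ _ ↔ _
    rw [BoundedFormula.realize_iInf]
    rfl
  obtain ⟨v', hv'⟩ := approxP f (fun _ : Unit => Formula.iExs β χ) a v
  have h1 := (hv' ()).2 (by
    rw [Formula.realize_iExs]
    obtain ⟨x, hx⟩ := h v'
    exact ⟨x, (hχ' _).2 hx⟩)
  rw [Formula.realize_iExs] at h1
  obtain ⟨x, hx⟩ := h1
  exact ⟨x, (hχ _).1 hx⟩

end Pool.Agent.H667.MT
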