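import Pool.Agent.H667.LV.NonFork

set_option autoImplicit false

/-!
No definable global type contains the formula.
-/

namespace Pool.Agent.H667.LV

open Finset FirstOrder FirstOrder.Language Pool.Agent.H667.MT

universe u

/-- The comparison of levels. -/
def LevS : Set (Fin 1 ⊕ Fin 1 → Pt) := {v | (v (Sum.inr 0)).lev < (v (Sum.inl 0)).lev}

theorem LevS_inv (a b : Fin 1 ⊕ Fin 1 → Pt) (h : E 1 a b) (ha : a ∈ LevS) : b ∈ LevS := by
  have := h.lt le_rfl ((0, {Sum.inr 0}) : Tm (Fin 1 ⊕ Fin 1)) (0, {Sum.inl 0})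
  rw [val_lev, val_lev, val_lev, val_lev] at this
  exact this.1 ha

noncomputable def levF : LL.Formula (Fin 1 ⊕ Fin 1) := (definable_of_inv 1 LevS LevS_inv).choose

theorem levF_iff (c m : Fin 1 → Pt) : levF.Realize (Sum.elim c m) ↔ (m 0).lev < (c 0).lev :=
  (definable_of_inv 1 LevS LevS_inv).choose_spec _

variable {N : Type u} [LL.Structure N]

theorem no_global (f : Pt ↪ₑ[LL] N) (c : Fin 1 → N)
    (hc : ∀ m : Fin 1 → Pt, levF.Realize (Sum.elim c (f ∘ m)))
    (p : Set (Set (Fin 2 → N))) (hp : IsType LL p) (hd : DefinableOver f p)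
    (hφ : {x | phiX.Realize (Sum.elim x c)} ∈ p) : False := by
  classical
  obtain ⟨m, d, a, hda⟩ := hd 2 phiR
  have hS : ∀ b : Fin 2 → Pt, b ∈ {b : Fin 2 → Pt | d.Realize (Sum.elim b a)} ↔
      {x | phiR.Realize (Sum.elim x (f ∘ b))} ∈ p := by
    intro b
    rw [hda]
    have e : Sum.elim (f ∘ b) (f ∘ a) = f ∘ (Sum.elim b a) := by
      funext z; rcases z with z | z <;> rfl
    rw [e, f.map_formula]
    rfl
  refine no_branch (S := {b : Fin 2 → Pt | d.Realize (Sum.elim b a)}) (definable_fiber d a) ?_ ?_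
  · intro j hj
    let U : (Fin j → ZMod 2) → Set (Fin 2 → N) := fun h =>
      {x | phiR.Realize (Sum.elim x (f ∘ ![mkPt j h, mkPt j 0]))}
    have hcov : {x | phiX.Realize (Sum.elim x c)} ⊆ ⋃ h, U h := by
      intro x hx
      by_contra hcon
      rw [Set.mem_iUnion] at hcon
      push Not at hcon
      -- transfer
      let ρ : (Fin j → ZMod 2) → Fin 2 ⊕ Fin 2 → ((Fin j → ZMod 2) × Fin 2) ⊕ (Fin 2 ⊕ Fin 1) :=
        fun h => Sum.elim (fun i => Sum.inr (Sum.inl i)) fun i => Sum.inl (h, i)
      let ρ' : Fin 1 ⊕ Fin 1 → ((Fin j → ZMod 2) × Fin 2) ⊕ (Fin 2 ⊕ Fin 1) :=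
        Sum.elim (fun i => Sum.inr (Sum.inr i)) fun _ => Sum.inl (0, 1)
      let δ : (Fin j → ZMod 2) ⊕ Bool →
          LL.Formula (((Fin j → ZMod 2) × Fin 2) ⊕ (Fin 2 ⊕ Fin 1)) :=
        Sum.elim (fun h => phiR.relabel (ρ h)) fun b =>
          if b then phiX.relabel Sum.inr else levF.relabel ρ'
      let A : (Fin j → ZMod 2) × Fin 2 → Pt := fun z => ![mkPt j z.1, mkPt j 0] z.2
      obtain ⟨v', hv'⟩ := approxP f δ A (Sum.elim x c)
      have k1 : phiX.Realize v' := by
        have := hv' (Sum.inr true)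
        simp only [δ, Sum.elim_inr, if_true, Formula.realize_relabel] at this
        exact this.1 hx
      have k2 : levF.Realize (Sum.elim (v' ∘ Sum.inr) fun _ => mkPt j 0) := by
        have := hv' (Sum.inr false)
        simp only [δ, Sum.elim_inr, Bool.false_eq_true, if_false, Formula.realize_relabel] at this
        have e1 : Sum.elim (f ∘ A) (Sum.elim x c) ∘ ρ' = Sum.elim c (f ∘ fun _ => mkPt j 0) := by
          funext z; rcases z with z | z <;> rfl
        have e2 : Sum.elim A v' ∘ ρ' = Sum.elim (v' ∘ Sum.inr) fun _ => mkPt j 0 := by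
          funext z; rcases z with z | z <;> rfl
        rw [e1, e2] at this
        exact this.1 (hc _)
      have k3 : ∀ h, ¬ phiR.Realize (Sum.elim (v' ∘ Sum.inl) ![mkPt j h, mkPt j 0]) := by
        intro h hh
        have := hv' (Sum.inl h)
        simp only [δ, Sum.elim_inl, Formula.realize_relabel] at this
        have e1 : Sum.elim (f ∘ A) (Sum.elim x c) ∘ ρ h =
            Sum.elim x (f ∘ ![mkPt j h, mkPt j 0]) := by
          funext z; rcases z with z | z <;> rfl
        have e2 : Sum.elim A v' ∘ ρ h = Sum.elim (v' ∘ Sum.inl) ![mkPt j h, mkPt j 0] := by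
          funext z; rcases z with z | z <;> rfl
        rw [e1, e2] at this
        exact hcon h (this.2 hh)
      rw [levF_iff] at k2
      rw [← Sum.elim_comp_inl_inr v', phiX_iff] at k1
      obtain ⟨g1, g2, g3⟩ := k1
      have k2' : j < ((v' ∘ Sum.inr) 0).lev := k2
      apply k3 fun k => ((v' ∘ Sum.inl) 0).co k + ((v' ∘ Sum.inl) 1).co k
      rw [phiR_iff]
      refine ⟨g1, rfl, (k2'.trans g2).le, ?_⟩
      intro k hk
      have hk' : k < j := hk
      show ((v' ∘ Sum.inl) 0).co k + ((v' ∘ Sum.inl) 1).co k =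
        (if h : k < j then ((v' ∘ Sum.inl) 0).co (⟨k, h⟩ : Fin j) +
          ((v' ∘ Sum.inl) 1).co (⟨k, h⟩ : Fin j) else 0) +
          (if h : k < j then (0 : Fin j → ZMod 2) ⟨k, h⟩ else 0)
      rw [dif_pos hk', dif_pos hk']
      show _ = _ + 0
      rw [add_zero]
    obtain ⟨h, hh⟩ := type_union hp hφ U (fun h => definable_fiber phiR _) hcov
    refine ⟨mkPt j h, mkPt j 0, rfl, rfl, ?_, (hS _).2 hh⟩
    intro heq
    obtain ⟨x, hx1, hx2⟩ := type_inter hp hh hφ
    -- transfer
    let δ : Bool → LL.Formula (Fin 2 ⊕ (Fin 2 ⊕ Fin 1)) := fun b =>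
      if b then phiX.relabel Sum.inr else phiR.relabel
        (Sum.elim (fun i => Sum.inr (Sum.inl i)) Sum.inl)
    obtain ⟨v', hv'⟩ := approxP f δ ![mkPt j h, mkPt j 0] (Sum.elim x c)
    have k1 : phiX.Realize v' := by
      have := hv' true
      simp only [δ, if_true, Formula.realize_relabel] at this
      exact this.1 hx2
    have k2 : phiR.Realize (Sum.elim (v' ∘ Sum.inl) ![mkPt j h, mkPt j 0]) := by
      have := hv' false
      simp only [δ, Bool.false_eq_true, if_false, Formula.realize_relabel] at this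
      have e1 : Sum.elim (f ∘ ![mkPt j h, mkPt j 0]) (Sum.elim x c) ∘
          (Sum.elim (fun i => Sum.inr (Sum.inl i)) Sum.inl) =
          Sum.elim x (f ∘ ![mkPt j h, mkPt j 0]) := by
        funext z; rcases z with z | z <;> rfl
      have e2 : Sum.elim ![mkPt j h, mkPt j 0] v' ∘
          (Sum.elim (fun i => Sum.inr (Sum.inl i)) Sum.inl) =
          Sum.elim (v' ∘ Sum.inl) ![mkPt j h, mkPt j 0] := by
        funext z; rcases z with z | z <;> rfl
      rw [e1, e2] at this
      exact this.1 hx1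
    rw [← Sum.elim_comp_inl_inr v', phiX_iff] at k1
    rw [phiR_iff] at k2
    have k3 := k2.2.2.2 0 hj
    have k4 : ((v' ∘ Sum.inl) 0).co 0 + ((v' ∘ Sum.inl) 1).co 0 =
      (mkPt j h).co 0 + (mkPt j 0).co 0 := k3
    rw [heq, z2add] at k4
    exact k1.2.2 (z2eq k4)
  · intro z w z' w' h1 h2 hl1 hl2 hl3 k hk
    rw [hS] at h1 h2
    obtain ⟨x, hx1, hx2⟩ := type_inter hp h1 h2
    let A : Bool × Fin 2 → Pt := fun i => if i.1 then ![z, w] i.2 else ![z', w'] i.2
    let ρ : Bool → Fin 2 ⊕ Fin 2 → (Bool × Fin 2) ⊕ Fin 2 := fun b =>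
      Sum.elim Sum.inr fun i => Sum.inl (b, i)
    obtain ⟨x', hx'⟩ := approxP f (fun b : Bool => phiR.relabel (ρ b)) A x
    have k1 : phiR.Realize (Sum.elim x' ![z, w]) := by
      have := hx' true
      rw [Formula.realize_relabel, Formula.realize_relabel] at this
      have e1 : Sum.elim (f ∘ A) x ∘ ρ true = Sum.elim x (f ∘ ![z, w]) := by
        funext z; rcases z with z | z <;> rfl
      have e2 : Sum.elim A x' ∘ ρ true = Sum.elim x' ![z, w] := by
        funext z; rcases z with z | z <;> rfl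
      rw [e1, e2] at this
      exact this.1 hx1
    have k2 : phiR.Realize (Sum.elim x' ![z', w']) := by
      have := hx' false
      rw [Formula.realize_relabel, Formula.realize_relabel] at this
      have e1 : Sum.elim (f ∘ A) x ∘ ρ false = Sum.elim x (f ∘ ![z', w']) := by
        funext z; rcases z with z | z <;> rfl
      have e2 : Sum.elim A x' ∘ ρ false = Sum.elim x' ![z', w'] := by
        funext z; rcases z with z | z <;> rfl
      rw [e1, e2] at this
      exact this.1 hx2
    rw [phiR_iff] at k1 k2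
    have ha5 := k1.2.2.2 k hk
    have ha6 := k2.2.2.2 k (show k < z'.lev by rw [hl2]; exact hk)
    exact ha5.symm.trans ha6

instance : Nonempty Pt := ⟨mkPt 0 0⟩

instance : Countable LL.Symbols := by
  have h1 : Countable (Σ l, LL.Functions l) := by
    have : ∀ l, Countable (LL.Functions l) := fun l => inferInstanceAs (Countable Empty)
    infer_instance
  have h2 : Countable (Σ l, LL.Relations l) := by
    have : ∀ l, Countable (LL.Relations l) := fun l =>
      inferInstanceAs (Countable (Σ T : ℕ, Set (Key T (Fin l))))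
    infer_instance
  exact inferInstanceAs (Countable ((Σ l, LL.Functions l) ⊕ (Σ l, LL.Relations l)))

/-- An element above all levels of `Pt` exists in countably saturated extensions. -/
theorem exists_high (f : Pt ↪ₑ[LL] N) (hN : CountablySaturated LL N) :
    ∃ c : Fin 1 → N, ∀ m : Fin 1 → Pt, levF.Realize (Sum.elim c (f ∘ m)) := by
  obtain ⟨enum, henum⟩ := exists_surjective_nat Pt
  obtain ⟨x, hx⟩ := hN (fun _ => 1) (fun _ => levF) (fun n _ => f (enum n)) (by
    intro n
    have h := ae_transfer f (γ := Fin n) (α := Empty) (β := Fin 1)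
      (fun m : Fin n => levF.relabel (Sum.elim Sum.inr fun _ => Sum.inl (Sum.inl m)))
      (fun m => enum m) (by
        intro v
        refine ⟨fun _ => mkPt (1 + ∑ m : Fin n, (enum m).lev) 0, fun m => ?_⟩
        rw [Formula.realize_relabel]
        have e : (Sum.elim (Sum.elim (fun m : Fin n => enum m) v)
            (fun _ : Fin 1 => mkPt (1 + ∑ m : Fin n, (enum m).lev) 0) ∘
            Sum.elim Sum.inr fun _ : Fin 1 => Sum.inl (Sum.inl m)) =
            Sum.elim (fun _ => mkPt (1 + ∑ m : Fin n, (enum m).lev) 0) (fun _ => enum m) := by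
          funext z; rcases z with z | z <;> rfl
        rw [e, levF_iff]
        have := Finset.single_le_sum (f := fun m : Fin n => (enum m).lev)
          (fun _ _ => Nat.zero_le _) (Finset.mem_univ m)
        show (enum m).lev < 1 + ∑ m : Fin n, (enum m).lev
        have h2 : (enum m).lev ≤ ∑ m : Fin n, (enum m).lev := this
        omega) Empty.elim
    obtain ⟨y, hy⟩ := h
    refine ⟨y 0, fun m hm => ?_⟩
    have h2 := hy ⟨m, hm⟩
    rw [Formula.realize_relabel] at h2
    convert h2 using 1
    funext z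
    rcases z with z | z
    · show y 0 = y z
      rw [Subsingleton.elim z 0]
    · rfl)
  refine ⟨fun _ => x, fun m => ?_⟩
  obtain ⟨n, hn⟩ := henum (m 0)
  have h3 := hx n
  convert h3 using 1
  funext z
  rcases z with z | z
  · rfl
  · show f (m z) = f (enum n)
    rw [hn, Subsingleton.elim z 0]

end Pool.Agent.H667.LV
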