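import Pool.Agent.H667.LV.Fork

set_option autoImplicit false

/-!
The formula of the family does not fork over the structure.
-/

namespace Pool.Agent.H667.LV

open Finset FirstOrder FirstOrder.Language Pool.Agent.H667.MT

universe u

/-- The bits of the nodes which avoid a branch. -/
def gam (n j : ℕ) : ZMod 2 := if j = 0 ∨ j = n then 1 else 0

/-- The node of length `n + 1`. -/
def gpt (n : ℕ) : Fin 2 → Pt := ![mkPt (n + 1) fun k => gam n k, mkPt (n + 1) 0]

def High {q : ℕ} (T : ℕ) (e : Fin q → Pt) (x : Fin 2 → Pt) : Prop :=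
  (x 0).lev = (x 1).lev ∧ T ≤ (x 0).lev ∧ ∀ r, (e r).lev + T ≤ (x 0).lev

def Ext (n : ℕ) (x : Fin 2 → Pt) : Prop := Sum.elim x (gpt n) ∈ RR

theorem Ext.bits {n : ℕ} {x : Fin 2 → Pt} (h : Ext n x) (j : ℕ) (hj : j < n + 1) :
    (x 0).co j + (x 1).co j = gam n j := by
  have h1 := h.2.2.2 j hj
  have h2 : (x 0).co j + (x 1).co j = (if h : j < n + 1 then gam n (⟨j, h⟩ : Fin (n + 1)) else 0) +
    (if h : j < n + 1 then (0 : Fin (n + 1) → ZMod 2) ⟨j, h⟩ else 0) := h1
  rw [dif_pos hj, dif_pos hj] at h2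
  rw [h2]
  show gam n j + 0 = gam n j
  rw [add_zero]

def Good {q : ℕ} (n : ℕ) (e : Fin q → Pt) : Prop :=
  ∀ χ : Fin q → ZMod 2, χ ≠ 0 → Vis χ e →
    ¬ ((∀ r, χ r ≠ 0 → n + 1 ≤ (e r).lev) ∧ ∀ j < n + 1, g χ e j = gam n j)

theorem good_exists {I : Type} [Fintype I] (q : I → ℕ) (e : ∀ i, Fin (q i) → Pt) :
    ∃ n : Fin (Fintype.card (Σ i, (Fin (q i) → ZMod 2)) + 1), ∀ i, Good (n + 1) (e i) := by
  classical
  by_contra hc
  push Not at hc
  have h : ∀ n : Fin (Fintype.card (Σ i, (Fin (q i) → ZMod 2)) + 1),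
      ∃ z : Σ i, (Fin (q i) → ZMod 2),
        ∀ j < (n : ℕ) + 1 + 1, g z.2 (e z.1) j = gam ((n : ℕ) + 1) j := by
    intro n
    obtain ⟨i, hi⟩ := hc n
    unfold Good at hi
    push Not at hi
    obtain ⟨χ, _, _, h3⟩ := hi
    exact ⟨⟨i, χ⟩, h3.2⟩
  choose F hF using h
  have hinj : Function.Injective F := by
    have key : ∀ a b : Fin (Fintype.card (Σ i, (Fin (q i) → ZMod 2)) + 1), a < b → F a ≠ F b := by
      intro a b hab heq
      have h1 := hF a (a + 1) (by omega)
      have h2 := hF b (a + 1) (by have : (a : ℕ) < b := hab; omega)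
      rw [heq, h2] at h1
      have hab' : (a : ℕ) < b := hab
      unfold gam at h1
      rw [if_neg (by omega), if_pos (Or.inr rfl)] at h1
      exact zero_ne_one h1
    intro a b hab
    rcases lt_trichotomy a b with h | h | h
    · exact absurd hab (key a b h)
    · exact h
    · exact absurd hab.symm (key b a h)
  have := Fintype.card_le_of_injective F hinj
  rw [Fintype.card_fin] at this
  omega

section core

variable {q : ℕ}

theorem g_two' (χ : Fin 2 ⊕ Fin q → ZMod 2) (x : Fin 2 → Pt) (e : Fin q → Pt) (k : ℕ) :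
    g χ (Sum.elim x e) k = χ (Sum.inl 0) * (x 0).co k + χ (Sum.inl 1) * (x 1).co k +
      g (fun r => χ (Sum.inr r)) e k := by
  unfold g
  rw [Fintype.sum_sum_type, Fin.sum_univ_two]
  rfl

theorem ls_two' (χ : Fin 2 ⊕ Fin q → ZMod 2) (x : Fin 2 → Pt) (e : Fin q → Pt) (l : ℕ) :
    ls χ (Sum.elim x e) l = (if (x 0).lev = l then χ (Sum.inl 0) else 0) +
      (if (x 1).lev = l then χ (Sum.inl 1) else 0) + ls (fun r => χ (Sum.inr r)) e l := by
  unfold ls
  rw [Fintype.sum_sum_type, Fin.sum_univ_two]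
  rfl

theorem vis_high {T : ℕ} (hT : 1 ≤ T) {e : Fin q → Pt} {x : Fin 2 → Pt} (h : High T e x)
    (χ : Fin 2 ⊕ Fin q → ZMod 2) : Vis χ (Sum.elim x e) ↔
      χ (Sum.inl 0) = χ (Sum.inl 1) ∧ Vis (fun r => χ (Sum.inr r)) e := by
  obtain ⟨h1, _, h3⟩ := h
  have hout : ls (fun r => χ (Sum.inr r)) e (x 0).lev = 0 := by
    apply ls_out
    intro r
    have := h3 r
    omega
  constructor
  · intro hv
    have e1 : χ (Sum.inl 0) = χ (Sum.inl 1) := by
      have := hv (x 0).lev
      rw [ls_two', if_pos rfl, if_pos h1.symm, hout, add_zero] at this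
      exact z2eq this
    refine ⟨e1, fun l => ?_⟩
    have := hv l
    rw [ls_two', ← h1, e1, z2add, zero_add] at this
    exact this
  · rintro ⟨e1, e2⟩ l
    rw [ls_two', ← h1, e1, z2add, zero_add]
    exact e2 l

def Top (s : Tm (Fin 2 ⊕ Fin q)) : Prop :=
  s.1 = 0 ∧ (∀ r, Sum.inr r ∉ s.2) ∧ s.2.Nonempty

theorem val_top {s : Tm (Fin 2 ⊕ Fin q)} (hs : Top s) {e : Fin q → Pt} {x : Fin 2 → Pt}
    (h : (x 0).lev = (x 1).lev) : val s (Sum.elim x e) = (x 0).lev := by
  obtain ⟨h1, h2, h3⟩ := hs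
  have hv : Vis s.1 (Sum.elim x e) := by
    rw [h1]
    exact vis_zero _
  have hl : ∀ r ∈ s.2, (Sum.elim x e r).lev = (x 0).lev := by
    intro r hr
    rcases r with r | r
    · fin_cases r
      · rfl
      · exact h.symm
    · exact absurd hr (h2 r)
  have key : ∀ k, k ≤ val s (Sum.elim x e) ↔ k ≤ (x 0).lev := by
    intro k
    rw [le_val (Or.inl h3) hv]
    constructor
    · intro hA
      obtain ⟨r, hr⟩ := h3
      rw [← hl r hr]
      exact hA.1 r hr
    · intro hk
      refine ⟨fun r hr => ?_, fun r hr => ?_, fun j _ => ?_⟩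
      · rw [hl r hr]
        exact hk
      · rw [h1] at hr
        exact absurd rfl hr
      · rw [h1]
        exact g_zero _ _
  exact le_antisymm ((key _).1 le_rfl) ((key _).2 le_rfl)

theorem val_nontop {T n : ℕ} (hT : 1 ≤ T) {e : Fin q → Pt} (hg : Good n e)
    {x x' : Fin 2 → Pt} (hx : High T e x) (hx' : High T e x') (he : Ext n x) (he' : Ext n x')
    {s : Tm (Fin 2 ⊕ Fin q)} (hs : ¬ Top s) :
    val s (Sum.elim x e) = val s (Sum.elim x' e) ∧ val s (Sum.elim x e) + T ≤ (x 0).lev := by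
  have hTl : T ≤ (x 0).lev := hx.2.1
  by_cases hN : NE s
  · by_cases hv : Vis s.1 (Sum.elim x e)
    · have hv2 := (vis_high hT hx s.1).1 hv
      have hv' : Vis s.1 (Sum.elim x' e) := (vis_high hT hx' s.1).2 hv2
      obtain ⟨h01, hve⟩ := hv2
      -- a common form
      have fin : ∀ (B : ℕ) , B + T ≤ (x 0).lev →
          (∀ k, Adm s.1 s.2 (Sum.elim x e) k → k ≤ B) →
          (∀ k, Adm s.1 s.2 (Sum.elim x e) k ↔ Adm s.1 s.2 (Sum.elim x' e) k) →
          val s (Sum.elim x e) = val s (Sum.elim x' e) ∧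
            val s (Sum.elim x e) + T ≤ (x 0).lev := by
        intro B hB h1 h2
        have key : ∀ k, k ≤ val s (Sum.elim x e) ↔ k ≤ val s (Sum.elim x' e) := by
          intro k
          rw [le_val hN hv, le_val hN hv']
          exact h2 k
        refine ⟨le_antisymm ((key _).1 le_rfl) ((key _).2 le_rfl), ?_⟩
        have := h1 _ ((le_val hN hv _).1 le_rfl)
        omega
      have hlx : ∀ (i : Fin 2), (x i).lev = (x 0).lev := by
        intro i
        fin_cases i
        · rfl
        · exact hx.1.symm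
      have hlx' : ∀ (i : Fin 2), (x' i).lev = (x' 0).lev := by
        intro i
        fin_cases i
        · rfl
        · exact hx'.1.symm
      -- transfer of admissibility below the level of a parameter
      have tr : ∀ (r : Fin q) (k : ℕ) (y y' : Fin 2 → Pt), High T e y' →
          (∀ i, (y' i).lev = (y' 0).lev) → k ≤ (e r).lev →
          (∀ j < k, g s.1 (Sum.elim y e) j = 0 → g s.1 (Sum.elim y' e) j = 0) →
          Adm s.1 s.2 (Sum.elim y e) k → Adm s.1 s.2 (Sum.elim y' e) k := by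
        intro r k y y' hy' hly' hk hg hA
        have hk' : k ≤ (y' 0).lev := by
          have := hy'.2.2 r
          omega
        refine ⟨fun z hz => ?_, fun z hz => ?_, fun j hj => hg j hj (hA.2.2 j hj)⟩
        · rcases z with z | z
          · show k ≤ (y' z).lev
            rw [hly' z]
            exact hk'
          · exact hA.1 _ hz
        · rcases z with z | z
          · show k ≤ (y' z).lev
            rw [hly' z]
            exact hk'
          · exact hA.2.1 _ hz
      rcases z2 (s.1 (Sum.inl 0)) with h0 | h0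
      · -- no new elements in the combination
        have h1 : s.1 (Sum.inl 1) = 0 := by rw [← h01]; exact h0
        have hgg : ∀ (y y' : Fin 2 → Pt) j, g s.1 (Sum.elim y e) j = 0 →
            g s.1 (Sum.elim y' e) j = 0 := by
          intro y y' j hj
          rw [g_two', h0, h1, zero_mul, zero_mul] at hj ⊢
          exact hj
        obtain ⟨r, hr⟩ : ∃ r, Sum.inr r ∈ s.2 ∨ s.1 (Sum.inr r) ≠ 0 := by
          by_contra hc
          push Not at hc
          have hz : s.1 = 0 := by
            funext z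
            rcases z with z | z
            · fin_cases z
              · exact h0
              · exact h1
            · exact (hc z).2
          apply hs
          refine ⟨hz, fun r => (hc r).1, ?_⟩
          rcases hN with h | h
          · exact h
          · exact absurd hz h
        have hle : ∀ (y : Fin 2 → Pt) k, Adm s.1 s.2 (Sum.elim y e) k → k ≤ (e r).lev := by
          intro y k hA
          rcases hr with hr | hr
          · exact hA.1 _ hr
          · exact hA.2.1 _ hr
        refine fin (e r).lev (hx.2.2 r) (hle x) fun k => ⟨fun hA => ?_, fun hA => ?_⟩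
        · exact tr r k x x' hx' hlx' (hle x k hA) (fun j _ => hgg x x' j) hA
        · exact tr r k x' x hx hlx (hle x' k hA) (fun j _ => hgg x' x j) hA
      · have h1 : s.1 (Sum.inl 1) = 1 := by rw [← h01]; exact h0
        have hgg : ∀ (y : Fin 2 → Pt), Ext n y → ∀ j < n + 1, g s.1 (Sum.elim y e) j =
            gam n j + g (fun r => s.1 (Sum.inr r)) e j := by
          intro y hy j hj
          rw [g_two', h0, h1, one_mul, one_mul, hy.bits j hj]
        by_cases hχ : (fun r => s.1 (Sum.inr r)) = 0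
        · -- the difference of the new elements starts with 1
          have hA0 : ∀ (y : Fin 2 → Pt), Ext n y → ∀ k, Adm s.1 s.2 (Sum.elim y e) k → k ≤ 0 := by
            intro y hy k hA
            by_contra hk
            push Not at hk
            have := hA.2.2 0 hk
            rw [hgg y hy 0 (by omega), hχ, g_zero, add_zero] at this
            unfold gam at this
            rw [if_pos (Or.inl rfl)] at this
            exact one_ne_zero this
          refine fin 0 (by omega) (hA0 x he) fun k => ⟨fun hA => ?_, fun hA => ?_⟩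
          · rw [Nat.le_zero.1 (hA0 x he k hA)]
            exact adm_zero _ _ _
          · rw [Nat.le_zero.1 (hA0 x' he' k hA)]
            exact adm_zero _ _ _
        · have hgood := hg _ hχ hve
          have hAn : ∀ (y : Fin 2 → Pt), Ext n y → ∀ k, Adm s.1 s.2 (Sum.elim y e) k → k ≤ n := by
            intro y hy k hA
            by_contra hk
            push Not at hk
            apply hgood
            refine ⟨fun r hr => ?_, fun j hj => ?_⟩
            · have := hA.2.1 (Sum.inr r) hr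
              have h5 : k ≤ (e r).lev := this
              omega
            · have := hA.2.2 j (by omega)
              rw [hgg y hy j hj] at this
              exact (z2eq this).symm
          obtain ⟨r, hr⟩ : ∃ r, s.1 (Sum.inr r) ≠ 0 := by
            by_contra hc
            push Not at hc
            exact hχ (funext hc)
          have hle : ∀ (y : Fin 2 → Pt) k, Adm s.1 s.2 (Sum.elim y e) k → k ≤ (e r).lev :=
            fun y k hA => hA.2.1 _ hr
          refine fin (e r).lev (hx.2.2 r) (hle x) fun k => ⟨fun hA => ?_, fun hA => ?_⟩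
          · refine tr r k x x' hx' hlx' (hle x k hA) (fun j hj hz => ?_) hA
            have := hAn x he k hA
            rw [hgg x he j (by omega)] at hz
            rw [hgg x' he' j (by omega)]
            exact hz
          · refine tr r k x' x hx hlx (hle x' k hA) (fun j hj hz => ?_) hA
            have := hAn x' he' k hA
            rw [hgg x' he' j (by omega)] at hz
            rw [hgg x he j (by omega)]
            exact hz
    · have hv' : ¬ Vis s.1 (Sum.elim x' e) := by
        rw [vis_high hT hx'] 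
        rw [vis_high hT hx] at hv
        exact hv
      rw [val_not hv, val_not hv']
      exact ⟨rfl, by omega⟩
  · rw [val_empty hN, val_empty hN]
    exact ⟨rfl, by omega⟩

theorem core_E {T n : ℕ} (hT : 1 ≤ T) {e : Fin q → Pt} (hg : Good n e)
    {x x' : Fin 2 → Pt} (hx : High T e x) (hx' : High T e x') (he : Ext n x) (he' : Ext n x') :
    E T (Sum.elim x e) (Sum.elim x' e) := by
  intro s t
  by_cases hs : Top s <;> by_cases ht : Top t
  · rw [val_top hs hx.1, val_top ht hx.1, val_top hs hx'.1, val_top ht hx'.1, Nat.sub_self,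
      Nat.sub_self]
  · have h1 := val_nontop hT hg hx hx' he he' ht
    have h2 := val_nontop hT hg hx' hx he' he ht
    rw [val_top hs hx.1, val_top hs hx'.1]
    omega
  · have h1 := val_nontop hT hg hx hx' he he' hs
    have h2 := val_nontop hT hg hx' hx he' he hs
    rw [val_top ht hx.1, val_top ht hx'.1]
    omega
  · rw [(val_nontop hT hg hx hx' he he' hs).1, (val_nontop hT hg hx hx' he he' ht).1]

end core

/-- The set of high pairs. -/
def HH (T q : ℕ) : Set (Fin 2 ⊕ Fin q → Pt) := {v | High T (v ∘ Sum.inr) (v ∘ Sum.inl)}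

theorem HH_inv (T q : ℕ) (hT : 1 ≤ T) (a b : Fin 2 ⊕ Fin q → Pt) (h : E T a b)
    (ha : a ∈ HH T q) : b ∈ HH T q := by
  obtain ⟨h1, h2, h3⟩ := ha
  refine ⟨(h.lev_eq hT (Sum.inl 0) (Sum.inl 1)).1 h1, ?_, fun r => ?_⟩
  · have := h ((0, {Sum.inl 0}) : Tm (Fin 2 ⊕ Fin q)) (0, ∅)
    rw [val_lev, val_lev, val_zero, val_zero] at this
    have h4 : T ≤ (a (Sum.inl 0)).lev := h2
    show T ≤ (b (Sum.inl 0)).lev
    omega
  · have := h ((0, {Sum.inl 0}) : Tm (Fin 2 ⊕ Fin q)) (0, {Sum.inr r})
    rw [val_lev, val_lev, val_lev, val_lev] at this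
    have h4 : (a (Sum.inr r)).lev + T ≤ (a (Sum.inl 0)).lev := h3 r
    show (b (Sum.inr r)).lev + T ≤ (b (Sum.inl 0)).lev
    omega

theorem exists_highF (T q : ℕ) : ∃ φ : LL.Formula (Fin 2 ⊕ Fin q), 1 ≤ T →
    ∀ v : Fin 2 ⊕ Fin q → Pt, φ.Realize v ↔ v ∈ HH T q := by
  by_cases hT : 1 ≤ T
  · obtain ⟨φ, hφ⟩ := definable_of_inv T (HH T q) (HH_inv T q hT)
    exact ⟨φ, fun _ => hφ⟩
  · exact ⟨⊥, fun h => absurd h hT⟩

noncomputable def highF (T q : ℕ) : LL.Formula (Fin 2 ⊕ Fin q) := (exists_highF T q).choose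

theorem highF_iff {T q : ℕ} (hT : 1 ≤ T) (x : Fin 2 → Pt) (e : Fin q → Pt) :
    (highF T q).Realize (Sum.elim x e) ↔ High T e x := (exists_highF T q).choose_spec hT _

noncomputable def phiR : LL.Formula (Fin 2 ⊕ Fin 2) := exists_phiR.choose

theorem phiR_iff (v : Fin 2 ⊕ Fin 2 → Pt) : phiR.Realize v ↔ v ∈ RR := exists_phiR.choose_spec v

/-- The formula `φ(x, y; c)` of the family. -/
noncomputable def phiX : LL.Formula (Fin 2 ⊕ Fin 1) := exists_phiX.choose.relabel Sum.swap

theorem phiX_iff (x : Fin 2 → Pt) (c : Fin 1 → Pt) : phiX.Realize (Sum.elim x c) ↔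
    (x 0).lev = (x 1).lev ∧ (c 0).lev < (x 0).lev ∧ (x 0).co 0 ≠ (x 1).co 0 := by
  rw [phiX, Formula.realize_relabel, exists_phiX.choose_spec]
  rfl

section allF

variable {L : FirstOrder.Language.{0, 0}} {q : ℕ}

/-- The formula saying that all `x` with `A(x; e)` and `B(x; z)` satisfy `C(x; e)`. -/
noncomputable def allF (A : L.Formula (Fin 2 ⊕ Fin q)) (B : L.Formula (Fin 2 ⊕ Fin 2))
    (C : L.Formula (Fin 2 ⊕ Fin q)) : L.Formula (Fin 2 ⊕ Fin q) :=
  (Formula.iExs (Fin 2)
    ((A.relabel (Sum.elim Sum.inr (Sum.inl ∘ Sum.inr)) ⊓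
      B.relabel (Sum.elim Sum.inr (Sum.inl ∘ Sum.inl)) ⊓
      (C.relabel (Sum.elim Sum.inr (Sum.inl ∘ Sum.inr))).not :
        L.Formula ((Fin 2 ⊕ Fin q) ⊕ Fin 2)))).not

theorem realize_allF {K : Type u} [L.Structure K] (A : L.Formula (Fin 2 ⊕ Fin q))
    (B : L.Formula (Fin 2 ⊕ Fin 2)) (C : L.Formula (Fin 2 ⊕ Fin q)) (z : Fin 2 → K)
    (e : Fin q → K) : (allF A B C).Realize (Sum.elim z e) ↔
      ∀ x : Fin 2 → K, A.Realize (Sum.elim x e) → B.Realize (Sum.elim x z) →
        C.Realize (Sum.elim x e) := by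
  have e1 : ∀ x : Fin 2 → K, (Sum.elim (Sum.elim z e) x ∘
      (Sum.elim Sum.inr (Sum.inl ∘ Sum.inr) : Fin 2 ⊕ Fin q → (Fin 2 ⊕ Fin q) ⊕ Fin 2)) =
        Sum.elim x e := by
    intro x; funext i; rcases i with i | i <;> rfl
  have e2 : ∀ x : Fin 2 → K, (Sum.elim (Sum.elim z e) x ∘
      (Sum.elim Sum.inr (Sum.inl ∘ Sum.inl) : Fin 2 ⊕ Fin 2 → (Fin 2 ⊕ Fin q) ⊕ Fin 2)) =
        Sum.elim x z := by
    intro x; funext i; rcases i with i | i <;> rfl
  rw [allF, Formula.realize_not, Formula.realize_iExs]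
  simp only [Formula.realize_inf, Formula.realize_not, Formula.realize_relabel, e1, e2]
  push Not
  constructor
  · intro h x h1 h2
    exact h x ⟨h1, h2⟩
  · intro h x h1
    exact h x h1.1 h1.2

end allF

/-- The dichotomy. -/
theorem dich {q : ℕ} (ψ : LL.Formula (Fin 2 ⊕ Fin q)) : ∃ T, 1 ≤ T ∧ ∀ (n : ℕ) (e : Fin q → Pt),
    Good n e → (allF (highF T q) phiR ψ).Realize (Sum.elim (gpt n) e) ∨
      (allF (highF T q) phiR ψ.not).Realize (Sum.elim (gpt n) e) := by
  obtain ⟨T, hT, hψ⟩ := formula_inv ψ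
  refine ⟨T, hT, fun n e hg => ?_⟩
  simp only [realize_allF, highF_iff hT, phiR_iff, Formula.realize_not]
  by_contra hc
  push Not at hc
  obtain ⟨⟨x, h1, h2, h3⟩, x', h1', h2', h3'⟩ := hc
  exact h3 ((hψ _ _ (core_E hT hg h1 h1' h2 h2')).2 h3')

section trans

variable {N : Type u} [LL.Structure N]

theorem high_exists (f : Pt ↪ₑ[LL] N) {I : Type} [Fintype I] (T q : I → ℕ) (hT : ∀ i, 1 ≤ T i)
    (n : ℕ) (c : ∀ i, Fin (q i) → N) : ∃ x : Fin 2 → N,
      (∀ i, (highF (T i) (q i)).Realize (Sum.elim x (c i))) ∧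
        phiR.Realize (Sum.elim x (f ∘ gpt n)) := by
  classical
  let ρ : ∀ i, Fin 2 ⊕ Fin (q i) → (Fin 2 ⊕ (Σ i, Fin (q i))) ⊕ Fin 2 := fun i =>
    Sum.elim Sum.inr fun j => Sum.inl (Sum.inr ⟨i, j⟩)
  let δ : Option I → LL.Formula ((Fin 2 ⊕ (Σ i, Fin (q i))) ⊕ Fin 2) := fun o =>
    o.elim (phiR.relabel (Sum.elim Sum.inr (Sum.inl ∘ Sum.inl))) fun i =>
      (highF (T i) (q i)).relabel (ρ i)
  have key := ae_transfer f δ (gpt n) (by
    intro v
    let l : ℕ := n + 1 + ∑ i, T i + ∑ z, (v z).lev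
    refine ⟨![mkPt l fun k => gam n k, mkPt l 0], ?_⟩
    rintro (_ | i)
    · show (phiR.relabel (Sum.elim Sum.inr (Sum.inl ∘ Sum.inl))).Realize _
      rw [Formula.realize_relabel, phiR_iff]
      refine ⟨rfl, rfl, ?_, ?_⟩
      · show n + 1 ≤ l
        omega
      · intro k hk
        have hk' : k < n + 1 := hk
        have hk2 : k < l := by omega
        show (if h : k < l then gam n (⟨k, h⟩ : Fin l) else 0) +
            (if h : k < l then (0 : Fin l → ZMod 2) ⟨k, h⟩ else 0) =
          (if h : k < n + 1 then gam n (⟨k, h⟩ : Fin (n + 1)) else 0) +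
            (if h : k < n + 1 then (0 : Fin (n + 1) → ZMod 2) ⟨k, h⟩ else 0)
        rw [dif_pos hk2, dif_pos hk2, dif_pos hk', dif_pos hk']
        rfl
    · show ((highF (T i) (q i)).relabel (ρ i)).Realize _
      rw [Formula.realize_relabel]
      have e1 : (Sum.elim (Sum.elim (gpt n) v) ![mkPt l fun k => gam n k, mkPt l 0] ∘ ρ i) =
          Sum.elim ![mkPt l fun k => gam n k, mkPt l 0] fun j => v ⟨i, j⟩ := by
        funext z; rcases z with z | z <;> rfl
      rw [e1, highF_iff (hT i)]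
      have h1 : T i ≤ ∑ i, T i := Finset.single_le_sum (f := T) (fun _ _ => Nat.zero_le _)
        (Finset.mem_univ i)
      refine ⟨rfl, ?_, fun r => ?_⟩
      · show T i ≤ l
        omega
      · have h2 : (v ⟨i, r⟩).lev ≤ ∑ z, (v z).lev :=
          Finset.single_le_sum (f := fun z => (v z).lev) (fun _ _ => Nat.zero_le _)
            (Finset.mem_univ (⟨i, r⟩ : Σ i, Fin (q i)))
        show (v ⟨i, r⟩).lev + T i ≤ l
        omega) (fun z => c z.1 z.2)
  obtain ⟨x, hx⟩ := key
  refine ⟨x, fun i => ?_, ?_⟩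
  · have h1 := hx (some i)
    have h2 : ((highF (T i) (q i)).relabel (ρ i)).Realize
        (Sum.elim (Sum.elim (f ∘ gpt n) fun z : (Σ i, Fin (q i)) => c z.1 z.2) x) := h1
    rw [Formula.realize_relabel] at h2
    convert h2 using 1
    funext z; rcases z with z | z <;> rfl
  · have h1 := hx none
    have h2 : (phiR.relabel (Sum.elim Sum.inr (Sum.inl ∘ Sum.inl))).Realize
        (Sum.elim (Sum.elim (f ∘ gpt n) fun z : (Σ i, Fin (q i)) => c z.1 z.2) x) := h1
    rw [Formula.realize_relabel] at h2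
    convert h2 using 1
    funext z; rcases z with z | z <;> rfl

/-- High pairs above the node satisfy the formula of the family. -/
theorem phiX_of_high (f : Pt ↪ₑ[LL] N) (n : ℕ) (x : Fin 2 → N) (c : Fin 1 → N)
    (h1 : (highF 1 1).Realize (Sum.elim x c)) (h2 : phiR.Realize (Sum.elim x (f ∘ gpt n))) :
    phiX.Realize (Sum.elim x c) := by
  let δ : Fin 3 → LL.Formula (Fin 2 ⊕ (Fin 2 ⊕ Fin 1)) := ![(highF 1 1).relabel Sum.inr,
    phiR.relabel (Sum.elim (Sum.inr ∘ Sum.inl) Sum.inl), phiX.relabel Sum.inr]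
  obtain ⟨v', hv'⟩ := approxP f δ (gpt n) (Sum.elim x c)
  have g0 : (highF 1 1).Realize (Sum.elim x c) ↔ (highF 1 1).Realize v' := by
    have := hv' 0
    have h3 : ((highF 1 1).relabel Sum.inr).Realize (Sum.elim (f ∘ gpt n) (Sum.elim x c)) ↔
      ((highF 1 1).relabel Sum.inr).Realize (Sum.elim (gpt n) v') := this
    rw [Formula.realize_relabel, Formula.realize_relabel] at h3
    exact h3
  have g2 : phiX.Realize (Sum.elim x c) ↔ phiX.Realize v' := by
    have := hv' 2
    have h3 : (phiX.relabel Sum.inr).Realize (Sum.elim (f ∘ gpt n) (Sum.elim x c)) ↔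
      (phiX.relabel Sum.inr).Realize (Sum.elim (gpt n) v') := this
    rw [Formula.realize_relabel, Formula.realize_relabel] at h3
    exact h3
  have g1 : phiR.Realize (Sum.elim x (f ∘ gpt n)) ↔
      phiR.Realize (Sum.elim (v' ∘ Sum.inl) (gpt n)) := by
    have := hv' 1
    have h3 : (phiR.relabel (Sum.elim (Sum.inr ∘ Sum.inl) Sum.inl)).Realize
      (Sum.elim (f ∘ gpt n) (Sum.elim x c)) ↔
      (phiR.relabel (Sum.elim (Sum.inr ∘ Sum.inl) Sum.inl)).Realize
        (Sum.elim (gpt n) v') := this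
    rw [Formula.realize_relabel, Formula.realize_relabel] at h3
    have e1 : Sum.elim (f ∘ gpt n) (Sum.elim x c) ∘ (Sum.elim (Sum.inr ∘ Sum.inl) Sum.inl) =
        Sum.elim x (f ∘ gpt n) := by
      funext z; rcases z with z | z <;> rfl
    have e2 : Sum.elim (gpt n) v' ∘ (Sum.elim (Sum.inr ∘ Sum.inl) Sum.inl) =
        Sum.elim (v' ∘ Sum.inl) (gpt n) := by
      funext z; rcases z with z | z <;> rfl
    rw [e1, e2] at h3
    exact h3
  rw [g2]
  have e3 : v' = Sum.elim (v' ∘ Sum.inl) (v' ∘ Sum.inr) := (Sum.elim_comp_inl_inr v').symm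
  have k0 := g0.1 h1
  have k1 := g1.1 h2
  rw [e3] at k0 ⊢
  rw [highF_iff le_rfl] at k0
  rw [phiX_iff]
  have k2 : Ext n (v' ∘ Sum.inl) := (phiR_iff _).1 k1
  refine ⟨k0.1, k0.2.2 0, ?_⟩
  intro hc
  have := k2.bits 0 (by omega)
  rw [hc, z2add] at this
  unfold gam at this
  rw [if_pos (Or.inl rfl)] at this
  exact zero_ne_one this

/-- **The formula of the family does not fork over `Pt`.** -/
theorem not_forks (f : Pt ↪ₑ[LL] N) (c : Fin 1 → N) : ¬ Forks f phiX c := by
  classical
  rintro ⟨K, r, ψ, cc, hdiv, himp⟩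
  choose T hT hd using fun k => dich (ψ k)
  -- the node
  obtain ⟨n, hn⟩ : ∃ n : ℕ, ∀ k,
      (allF (highF (T k) (r k)) phiR (ψ k)).Realize (Sum.elim (f ∘ gpt n) (cc k)) ∨
      (allF (highF (T k) (r k)) phiR (ψ k).not).Realize (Sum.elim (f ∘ gpt n) (cc k)) := by
    let Nm := Fintype.card (Σ i, (Fin (r i) → ZMod 2)) + 1
    let δ : Fin Nm × Fin K × Bool → LL.Formula ((Fin Nm × Fin 2) ⊕ (Σ i, Fin (r i))) := fun d =>
      if d.2.2 then (allF (highF (T d.2.1) (r d.2.1)) phiR (ψ d.2.1)).relabel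
        (Sum.elim (fun i => Sum.inl (d.1, i)) fun j => Sum.inr ⟨d.2.1, j⟩)
      else (allF (highF (T d.2.1) (r d.2.1)) phiR (ψ d.2.1).not).relabel
        (Sum.elim (fun i => Sum.inl (d.1, i)) fun j => Sum.inr ⟨d.2.1, j⟩)
    obtain ⟨v', hv'⟩ := approxP f δ (fun z : Fin Nm × Fin 2 => gpt (z.1 + 1) z.2)
      (fun z : (Σ i, Fin (r i)) => cc z.1 z.2)
    obtain ⟨n, hn⟩ := good_exists r fun i j => v' ⟨i, j⟩
    refine ⟨n + 1, fun k => ?_⟩
    have e1 : Sum.elim (f ∘ fun z : Fin Nm × Fin 2 => gpt (z.1 + 1) z.2)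
        (fun z : (Σ i, Fin (r i)) => cc z.1 z.2) ∘
        (Sum.elim (fun i => Sum.inl (n, i)) fun j => Sum.inr ⟨k, j⟩) =
        Sum.elim (f ∘ gpt (n + 1)) (cc k) := by
      funext z; rcases z with z | z <;> rfl
    have e2 : Sum.elim (fun z : Fin Nm × Fin 2 => gpt (z.1 + 1) z.2) v' ∘
        (Sum.elim (fun i => Sum.inl (n, i)) fun j => Sum.inr ⟨k, j⟩) =
        Sum.elim (gpt (n + 1)) (fun j => v' ⟨k, j⟩) := by
      funext z; rcases z with z | z <;> rfl
    rcases hd k (n + 1) (fun j => v' ⟨k, j⟩) (hn k) with h | h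
    · left
      have h1 := hv' (n, k, true)
      simp only [δ, if_true, Formula.realize_relabel, e1, e2] at h1
      exact h1.2 h
    · right
      have h1 := hv' (n, k, false)
      simp only [δ, Bool.false_eq_true, if_false, Formula.realize_relabel, e1, e2] at h1
      exact h1.2 h
  by_cases hpos : ∃ k, (allF (highF (T k) (r k)) phiR (ψ k)).Realize (Sum.elim (f ∘ gpt n) (cc k))
  · -- this formula does not divide
    obtain ⟨k, hk⟩ := hpos
    obtain ⟨m, s, hs, hin⟩ := hdiv k
    apply hin (fun i : Fin m => (i : ℕ)) (fun i j hij => hij)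
    obtain ⟨x, hx1, hx2⟩ := high_exists f (fun _ : Fin m => T k) (fun _ => r k) (fun _ => hT k) n
      (fun i => s i)
    refine ⟨x, fun i => ?_⟩
    have h1 := hs i 2 ((allF (highF (T k) (r k)) phiR (ψ k)).relabel Sum.swap) (gpt n)
    rw [Formula.realize_relabel, Formula.realize_relabel] at h1
    have e1 : ∀ y : Fin (r k) → N, Sum.elim y (f ∘ gpt n) ∘ Sum.swap =
        Sum.elim (f ∘ gpt n) y := by
      intro y; funext z; rcases z with z | z <;> rfl
    rw [e1, e1] at h1
    have h2 := h1.1 hk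
    rw [realize_allF] at h2
    exact h2 x (hx1 i) hx2
  · push Not at hpos
    obtain ⟨x, hx1, hx2⟩ := high_exists f (fun o : Option (Fin K) => o.elim 1 T)
      (fun o => o.elim 1 r) (by rintro (_ | k); exacts [le_rfl, hT k]) n
      (fun o => match o with
        | none => c
        | some k => cc k)
    have h1 := phiX_of_high f n x c (hx1 none) hx2
    obtain ⟨k, hk⟩ := himp x h1
    have h2 := (hn k).resolve_left (hpos k)
    rw [realize_allF] at h2
    have h3 := h2 x (hx1 (some k)) hx2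
    rw [Formula.realize_not] at h3
    exact h3 hk

end trans

end Pool.Agent.H667.LV
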