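import Mathlib

set_option autoImplicit false

/-!
Levels `l` and torsors `N_l` of the groups `(ℤ/2)^l`: the numbers attached to a tuple of points, and
the equivalence relations `E T` on tuples (equal truncated differences of the numbers).
-/

namespace Pool.Agent.H667.LV

open Finset

/-- Points: a level and a sequence of bits which vanishes from the level on. -/
@[ext] structure Pt where
  lev : ℕ
  co : ℕ → ZMod 2
  supp : ∀ k, lev ≤ k → co k = 0

theorem z2 (x : ZMod 2) : x = 0 ∨ x = 1 := by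
  revert x; decide

theorem z2add (x : ZMod 2) : x + x = 0 := by
  revert x; decide

theorem z2eq {x y : ZMod 2} (h : x + y = 0) : x = y := by
  revert x y; decide

theorem z2three {x y z : ZMod 2} (h1 : x ≠ y) (h2 : x ≠ z) : y = z := by
  revert x y z; decide

section defs

variable {ι : Type} [Fintype ι]

/-- The sum of the points with coefficients `χ`. -/
def g (χ : ι → ZMod 2) (a : ι → Pt) (k : ℕ) : ZMod 2 := ∑ r, χ r * (a r).co k

/-- The sum of the coefficients at the level `l`. -/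
def ls (χ : ι → ZMod 2) (a : ι → Pt) (l : ℕ) : ZMod 2 := ∑ r, if (a r).lev = l then χ r else 0

/-- Visible combinations: those with an even number of points at each level. -/
def Vis (χ : ι → ZMod 2) (a : ι → Pt) : Prop := ∀ l, ls χ a l = 0

/-- The combination can be compared with a point at the level `l`. -/
def CoVis (χ : ι → ZMod 2) (a : ι → Pt) (l : ℕ) : Prop := ∀ l', ls χ a l' = if l' = l then 1 else 0

def Adm (χ : ι → ZMod 2) (W : Finset ι) (a : ι → Pt) (k : ℕ) : Prop :=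
  (∀ r ∈ W, k ≤ (a r).lev) ∧ (∀ r, χ r ≠ 0 → k ≤ (a r).lev) ∧ ∀ j < k, g χ a j = 0

/-- Terms for numbers. -/
abbrev Tm (ι : Type) := (ι → ZMod 2) × Finset ι

open Classical in
/-- The number of a term. -/
noncomputable def val (s : Tm ι) (a : ι → Pt) : ℕ :=
  if Vis s.1 a then Nat.findGreatest (Adm s.1 s.2 a)
    (∑ r ∈ s.2, (a r).lev + ∑ r, if s.1 r ≠ 0 then (a r).lev else 0) else 0

/-- Equal differences up to the threshold `T`. -/
def E (T : ℕ) (a b : ι → Pt) : Prop :=
  ∀ s t : Tm ι, min T (val s a - val t a) = min T (val s b - val t b)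

def NE (s : Tm ι) : Prop := s.2.Nonempty ∨ s.1 ≠ 0

theorem Adm.mono {χ : ι → ZMod 2} {W : Finset ι} {a : ι → Pt} {k k' : ℕ} (h : Adm χ W a k)
    (hk : k' ≤ k) : Adm χ W a k' :=
  ⟨fun r hr => hk.trans (h.1 r hr), fun r hr => hk.trans (h.2.1 r hr),
    fun j hj => h.2.2 j (hj.trans_le hk)⟩

theorem adm_zero (χ : ι → ZMod 2) (W : Finset ι) (a : ι → Pt) : Adm χ W a 0 :=
  ⟨fun _ _ => Nat.zero_le _, fun _ _ => Nat.zero_le _, fun _ h => absurd h (Nat.not_lt_zero _)⟩

theorem le_val {s : Tm ι} {a : ι → Pt} (hs : NE s) (hv : Vis s.1 a) (k : ℕ) :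
    k ≤ val s a ↔ Adm s.1 s.2 a k := by
  classical
  rw [val, if_pos hv]
  constructor
  · intro h
    have h1 : Adm s.1 s.2 a (Nat.findGreatest (Adm s.1 s.2 a)
      (∑ r ∈ s.2, (a r).lev + ∑ r, if s.1 r ≠ 0 then (a r).lev else 0)) :=
      Nat.findGreatest_spec (P := Adm s.1 s.2 a) (Nat.zero_le _) (adm_zero _ _ _)
    exact h1.mono h
  · intro h
    refine Nat.le_findGreatest ?_ h
    rcases hs with ⟨r, hr⟩ | hs
    · calc k ≤ (a r).lev := h.1 r hr
        _ ≤ ∑ r ∈ s.2, (a r).lev := Finset.single_le_sum (f := fun r => (a r).lev)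
            (fun _ _ => Nat.zero_le _) hr
        _ ≤ _ := Nat.le_add_right _ _
    · have : ∃ r, s.1 r ≠ 0 := by
        by_contra hc
        push Not at hc
        exact hs (funext hc)
      obtain ⟨r, hr⟩ := this
      calc k ≤ (a r).lev := h.2.1 r hr
        _ = if s.1 r ≠ 0 then (a r).lev else 0 := by rw [if_pos hr]
        _ ≤ ∑ r, if s.1 r ≠ 0 then (a r).lev else 0 := Finset.single_le_sum
            (f := fun r => if s.1 r ≠ 0 then (a r).lev else 0) (fun _ _ => Nat.zero_le _)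
            (Finset.mem_univ r)
        _ ≤ _ := Nat.le_add_left _ _

theorem val_not {s : Tm ι} {a : ι → Pt} (hv : ¬ Vis s.1 a) : val s a = 0 := by
  rw [val, if_neg hv]

theorem val_empty {s : Tm ι} {a : ι → Pt} (hs : ¬ NE s) : val s a = 0 := by
  classical
  unfold NE at hs
  push Not at hs
  obtain ⟨h1, h2⟩ := hs
  rw [val]
  split_ifs
  · have : (∑ r ∈ s.2, (a r).lev + ∑ r, if s.1 r ≠ 0 then (a r).lev else 0) = 0 := by
      rw [h1, h2]; simp
    rw [this]; rfl
  · rfl

theorem vis_zero (a : ι → Pt) : Vis (0 : ι → ZMod 2) a := by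
  intro l; simp [ls]

theorem g_zero (a : ι → Pt) (k : ℕ) : g (0 : ι → ZMod 2) a k = 0 := by simp [g]

theorem g_add (χ χ' : ι → ZMod 2) (a : ι → Pt) (k : ℕ) : g (χ + χ') a k = g χ a k + g χ' a k := by
  simp [g, add_mul, Finset.sum_add_distrib]

theorem ls_add (χ χ' : ι → ZMod 2) (a : ι → Pt) (l : ℕ) :
    ls (χ + χ') a l = ls χ a l + ls χ' a l := by
  rw [ls, ls, ls, ← Finset.sum_add_distrib]
  refine Finset.sum_congr rfl fun r _ => ?_
  split_ifs <;> simp

theorem val_lev (a : ι → Pt) (r : ι) : val ((0 : ι → ZMod 2), ({r} : Finset ι)) a = (a r).lev := by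
  have hne : NE ((0 : ι → ZMod 2), ({r} : Finset ι)) := Or.inl ⟨r, Finset.mem_singleton_self r⟩
  have key : ∀ k, k ≤ val ((0 : ι → ZMod 2), ({r} : Finset ι)) a ↔ k ≤ (a r).lev := by
    intro k
    rw [le_val hne (vis_zero a)]
    constructor
    · intro h
      exact h.1 r (Finset.mem_singleton_self r)
    · intro h
      refine ⟨?_, ?_, ?_⟩
      · intro r' hr'
        rw [Finset.mem_singleton] at hr'
        subst hr'
        exact h
      · intro r' hr'
        exact absurd rfl hr'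
      · intro j _
        exact g_zero a j
  exact le_antisymm ((key _).1 le_rfl) ((key _).2 le_rfl)

theorem val_zero (a : ι → Pt) : val ((0 : ι → ZMod 2), (∅ : Finset ι)) a = 0 := by
  apply val_empty
  rintro (h | h)
  · exact Finset.not_nonempty_empty h
  · exact h rfl

theorem E.refl (T : ℕ) (a : ι → Pt) : E T a a := fun _ _ => rfl

theorem E.symm {T : ℕ} {a b : ι → Pt} (h : E T a b) : E T b a := fun s t => (h s t).symm

theorem E.trans {T : ℕ} {a b c : ι → Pt} (h : E T a b) (h' : E T b c) : E T a c :=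
  fun s t => (h s t).trans (h' s t)

theorem E.mono {T T' : ℕ} {a b : ι → Pt} (h : E T a b) (hT : T' ≤ T) : E T' a b := by
  intro s t
  have := h s t
  omega

theorem E.lt {T : ℕ} {a b : ι → Pt} (h : E T a b) (hT : 1 ≤ T) (s t : Tm ι) :
    val s a < val t a ↔ val s b < val t b := by
  have := h t s
  omega

theorem E.lev_eq {T : ℕ} {a b : ι → Pt} (h : E T a b) (hT : 1 ≤ T) (r r' : ι) :
    (a r).lev = (a r').lev ↔ (b r).lev = (b r').lev := by
  have h1 := h ((0 : ι → ZMod 2), ({r} : Finset ι)) ((0 : ι → ZMod 2), ({r'} : Finset ι))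
  have h2 := h ((0 : ι → ZMod 2), ({r'} : Finset ι)) ((0 : ι → ZMod 2), ({r} : Finset ι))
  rw [val_lev, val_lev, val_lev, val_lev] at h1 h2
  omega

theorem ls_lev {T : ℕ} {a b : ι → Pt} (h : E T a b) (hT : 1 ≤ T) (χ : ι → ZMod 2) (r' : ι) :
    ls χ a (a r').lev = ls χ b (b r').lev := by
  unfold ls
  refine Finset.sum_congr rfl fun r _ => ?_
  by_cases hc : (a r).lev = (a r').lev
  · rw [if_pos hc, if_pos ((h.lev_eq hT r r').1 hc)]
  · rw [if_neg hc, if_neg (fun hc' => hc ((h.lev_eq hT r r').2 hc'))]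

theorem ls_out {a : ι → Pt} (χ : ι → ZMod 2) {l : ℕ} (h : ∀ r, (a r).lev ≠ l) : ls χ a l = 0 := by
  unfold ls
  exact Finset.sum_eq_zero fun r _ => if_neg (h r)

theorem E.vis' {T : ℕ} {a b : ι → Pt} (h : E T a b) (hT : 1 ≤ T) {χ : ι → ZMod 2}
    (hv : Vis χ a) : Vis χ b := by
  intro l
  by_cases hl : ∃ r, (b r).lev = l
  · obtain ⟨r, rfl⟩ := hl
    rw [← ls_lev h hT]
    exact hv _
  · push Not at hl
    exact ls_out χ hl

theorem E.vis {T : ℕ} {a b : ι → Pt} (h : E T a b) (hT : 1 ≤ T) (χ : ι → ZMod 2) :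
    Vis χ a ↔ Vis χ b := ⟨h.vis' hT, h.symm.vis' hT⟩

theorem E.covis' {T : ℕ} {a b : ι → Pt} (h : E T a b) (hT : 1 ≤ T) {χ : ι → ZMod 2} {r0 : ι}
    (hv : CoVis χ a (a r0).lev) : CoVis χ b (b r0).lev := by
  intro l
  by_cases hl : ∃ r, (b r).lev = l
  · obtain ⟨r, rfl⟩ := hl
    rw [← ls_lev h hT, hv]
    by_cases hc : (a r).lev = (a r0).lev
    · rw [if_pos hc, if_pos ((h.lev_eq hT r r0).1 hc)]
    · rw [if_neg hc, if_neg (fun hc' => hc ((h.lev_eq hT r r0).2 hc'))]
  · push Not at hl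
    rw [ls_out χ hl, if_neg]
    intro hc
    exact hl r0 hc.symm

theorem E.covis {T : ℕ} {a b : ι → Pt} (h : E T a b) (hT : 1 ≤ T) (χ : ι → ZMod 2) (r0 : ι) :
    CoVis χ a (a r0).lev ↔ CoVis χ b (b r0).lev := ⟨h.covis' hT, h.symm.covis' hT⟩

end defs

section subst

variable {ι κ : Type} [Fintype ι] [Fintype κ] [DecidableEq ι] [DecidableEq κ]

/-- Push forward of coefficients. -/
def push (σ : κ → ι) (χ : κ → ZMod 2) (i : ι) : ZMod 2 := ∑ r, if σ r = i then χ r else 0

theorem sum_push (σ : κ → ι) (χ : κ → ZMod 2) (f : ι → ZMod 2) :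
    ∑ i, push σ χ i * f i = ∑ r, χ r * f (σ r) := by
  unfold push
  simp only [Finset.sum_mul]
  rw [Finset.sum_comm]
  refine Finset.sum_congr rfl fun r _ => ?_
  simp only [ite_mul, zero_mul]
  rw [Finset.sum_ite_eq]
  simp

theorem g_push (σ : κ → ι) (χ : κ → ZMod 2) (a : ι → Pt) (k : ℕ) :
    g (push σ χ) a k = g χ (a ∘ σ) k := sum_push σ χ fun i => (a i).co k

theorem ls_push (σ : κ → ι) (χ : κ → ZMod 2) (a : ι → Pt) (l : ℕ) :
    ls (push σ χ) a l = ls χ (a ∘ σ) l := by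
  have h := sum_push σ χ fun i => if (a i).lev = l then 1 else 0
  simp only [mul_ite, mul_one, mul_zero] at h
  exact h

theorem vis_push (σ : κ → ι) (χ : κ → ZMod 2) (a : ι → Pt) :
    Vis (push σ χ) a ↔ Vis χ (a ∘ σ) := by
  unfold Vis
  simp only [ls_push]

/-- Terms for the numbers of a substituted tuple. -/
def sub (σ : κ → ι) (s : Tm κ) : Tm ι :=
  (push σ s.1, (s.2 ∪ Finset.univ.filter fun r => s.1 r ≠ 0).image σ)

theorem push_ne {σ : κ → ι} {χ : κ → ZMod 2} {i : ι} (h : push σ χ i ≠ 0) :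
    ∃ r, σ r = i ∧ χ r ≠ 0 := by
  obtain ⟨r, _, hr⟩ := Finset.exists_ne_zero_of_sum_ne_zero h
  by_cases hc : σ r = i
  · exact ⟨r, hc, by rwa [if_pos hc] at hr⟩
  · rw [if_neg hc] at hr
    exact absurd rfl hr

theorem adm_sub (σ : κ → ι) (s : Tm κ) (a : ι → Pt) (k : ℕ) :
    Adm (sub σ s).1 (sub σ s).2 a k ↔ Adm s.1 s.2 (a ∘ σ) k := by
  unfold Adm sub
  simp only [g_push, Finset.mem_image, Finset.mem_union, Finset.mem_filter, Finset.mem_univ,
    true_and, Function.comp_apply]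
  constructor
  · rintro ⟨h1, h2, h3⟩
    exact ⟨fun r hr => h1 _ ⟨r, Or.inl hr, rfl⟩, fun r hr => h1 _ ⟨r, Or.inr hr, rfl⟩, h3⟩
  · rintro ⟨h1, h2, h3⟩
    refine ⟨?_, ?_, h3⟩
    · rintro i ⟨r, hr | hr, rfl⟩
      · exact h1 r hr
      · exact h2 r hr
    · intro i hi
      obtain ⟨r, rfl, hr⟩ := push_ne hi
      exact h2 r hr

theorem ne_sub (σ : κ → ι) (s : Tm κ) : NE (sub σ s) ↔ NE s := by
  unfold NE sub
  simp only [Finset.image_nonempty]
  constructor
  · rintro (⟨r, hr⟩ | h)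
    · rw [Finset.mem_union] at hr
      rcases hr with hr | hr
      · exact Or.inl ⟨r, hr⟩
      · refine Or.inr fun h => ?_
        simp [h] at hr
    · refine Or.inr fun h' => h ?_
      rw [h']
      funext i
      simp [push]
  · rintro (⟨r, hr⟩ | h)
    · exact Or.inl ⟨r, Finset.mem_union_left _ hr⟩
    · left
      by_contra hc
      apply h
      funext r
      by_contra hr
      exact hc ⟨r, Finset.mem_union_right _ (by simpa using hr)⟩

theorem val_sub (σ : κ → ι) (s : Tm κ) (a : ι → Pt) : val (sub σ s) a = val s (a ∘ σ) := by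
  by_cases hs : NE s
  · have hs' := (ne_sub σ s).2 hs
    by_cases hv : Vis s.1 (a ∘ σ)
    · have hv' : Vis (sub σ s).1 a := (vis_push σ s.1 a).2 hv
      have key : ∀ k, k ≤ val (sub σ s) a ↔ k ≤ val s (a ∘ σ) := fun k => by
        rw [le_val hs' hv', le_val hs hv, adm_sub]
      exact le_antisymm ((key _).1 le_rfl) ((key _).2 le_rfl)
    · rw [val_not hv, val_not]
      exact fun h => hv ((vis_push σ s.1 a).1 h)
  · rw [val_empty hs, val_empty]
    exact fun h => hs ((ne_sub σ s).1 h)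

theorem E.comp {T : ℕ} {a b : ι → Pt} (h : E T a b) (σ : κ → ι) : E T (a ∘ σ) (b ∘ σ) := by
  intro s t
  rw [← val_sub, ← val_sub, ← val_sub, ← val_sub]
  exact h _ _

end subst

end Pool.Agent.H667.LV
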