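import Pool.Agent.H667.LV.Defs

set_option autoImplicit false

/-!
Transfer of finite configurations between models of a complete theory.
-/

namespace Pool.Agent.H667.MT

open FirstOrder FirstOrder.Language

universe u

variable {L : FirstOrder.Language.{0, 0}}

theorem sentence_iff {M : Type} [L.Structure M] {N : Type u} [L.Structure N]
    (hN : N ⊨ L.completeTheory M) (σ : L.Sentence) : N ⊨ σ ↔ M ⊨ σ := by
  constructor
  · intro h
    by_contra hc
    have h1 : M ⊨ σ.not := by
      rw [Sentence.Realize, Formula.realize_not]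
      exact hc
    have h2 : N ⊨ σ.not := hN.realize_of_mem _ h1
    rw [Sentence.Realize, Formula.realize_not] at h2
    exact h2 h
  · intro h
    exact hN.realize_of_mem _ h

/-- Finite configurations exist in all models. -/
theorem approx {M : Type} [L.Structure M] {N : Type u} [L.Structure N]
    (hN : N ⊨ L.completeTheory M) {β D : Type} [Finite β] [Finite D] (δ : D → L.Formula β)
    (v : β → N) : ∃ v' : β → M, ∀ d, ((δ d).Realize v ↔ (δ d).Realize v') := by
  classical
  let χ : L.Formula β := BoundedFormula.iInf fun d => if (δ d).Realize v then δ d else (δ d).not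
  have hχ : χ.Realize v := by
    show BoundedFormula.Realize (BoundedFormula.iInf _) _ _
    rw [BoundedFormula.realize_iInf]
    intro d
    by_cases h : (δ d).Realize v
    · rw [if_pos h]
      exact h
    · rw [if_neg h]
      exact h
  let σ : L.Sentence := Formula.iExs β (χ.relabel (Sum.inr : β → Empty ⊕ β))
  have hσ : N ⊨ σ := by
    rw [Sentence.Realize, Formula.realize_iExs]
    refine ⟨v, ?_⟩
    rw [Formula.realize_relabel]
    exact hχ
  rw [sentence_iff hN] at hσ
  rw [Sentence.Realize, Formula.realize_iExs] at hσ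
  obtain ⟨v', hv'⟩ := hσ
  rw [Formula.realize_relabel] at hv'
  refine ⟨v', fun d => ?_⟩
  have h1 : (if (δ d).Realize v then δ d else (δ d).not).Realize v' := by
    have h2 : BoundedFormula.Realize χ v' default := hv'
    have h3 := (BoundedFormula.realize_iInf (L := L) (M := M)
      (f := fun d => if (δ d).Realize v then δ d else (δ d).not)).1 h2 d
    exact h3
  by_cases h : (δ d).Realize v
  · rw [if_pos h] at h1
    exact ⟨fun _ => h1, fun _ => h⟩
  · rw [if_neg h, Formula.realize_not] at h1
    exact ⟨fun h' => absurd h' h, fun h' => absurd h' h1⟩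

/-- No ICT patterns in the theory if there are no large finite patterns in the structure. -/
theorem dpMinimal_of {M : Type} [L.Structure M]
    (h : ∀ (p q : ℕ) (φ : L.Formula (Fin 1 ⊕ Fin p)) (ψ : L.Formula (Fin 1 ⊕ Fin q)),
      ∃ n : ℕ, ∀ (a : Fin n → Fin p → M) (c : Fin n → Fin q → M) (x : Fin n → Fin n → M),
      ¬ ∀ i j k, (φ.Realize (Sum.elim (fun _ => x i j) (a k)) ↔ k = i) ∧
        (ψ.Realize (Sum.elim (fun _ => x i j) (c k)) ↔ k = j)) :
    DpMinimal.{u} (L.completeTheory M) := by
  intro N _ hN p q φ ψ a b hab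
  obtain ⟨n, hn⟩ := h p q φ ψ
  choose x hx using hab
  let β := (Fin n × Fin p) ⊕ (Fin n × Fin q) ⊕ (Fin n × Fin n)
  let v : β → N := Sum.elim (fun z => a z.1 z.2) (Sum.elim (fun z => b z.1 z.2)
    fun z => x z.1 z.2 n)
  let fφ : Fin n → Fin n → Fin n → (Fin 1 ⊕ Fin p → β) := fun i j k =>
    Sum.elim (fun _ => Sum.inr (Sum.inr (i, j))) fun z => Sum.inl (k, z)
  let fψ : Fin n → Fin n → Fin n → (Fin 1 ⊕ Fin q → β) := fun i j k =>
    Sum.elim (fun _ => Sum.inr (Sum.inr (i, j))) fun z => Sum.inr (Sum.inl (k, z))
  let δ : (Fin n × Fin n × Fin n) × Bool → L.Formula β := fun d =>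
    if d.2 then φ.relabel (fφ d.1.1 d.1.2.1 d.1.2.2) else ψ.relabel (fψ d.1.1 d.1.2.1 d.1.2.2)
  obtain ⟨v', hv'⟩ := approx hN δ v
  refine hn (fun k z => v' (Sum.inl (k, z))) (fun k z => v' (Sum.inr (Sum.inl (k, z))))
    (fun i j => v' (Sum.inr (Sum.inr (i, j)))) ?_
  intro i j k
  obtain ⟨h1, h2, h3⟩ := hx i j n
  constructor
  · have h4 := hv' ((i, j, k), true)
    simp only [δ, if_true, Formula.realize_relabel] at h4
    have e1 : v ∘ fφ i j k = Sum.elim (fun _ => x i j n) (a k) := by
      funext z; rcases z with z | z <;> rfl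
    have e2 : v' ∘ fφ i j k = Sum.elim (fun _ => v' (Sum.inr (Sum.inr (i, j))))
        fun z => v' (Sum.inl (k, z)) := by
      funext z; rcases z with z | z <;> rfl
    rw [e1, e2] at h4
    rw [← h4]
    constructor
    · intro h5
      by_contra hne
      exact (h3 k k.2).1 (fun h => hne (Fin.ext h)) h5
    · rintro rfl
      exact h1
  · have h4 := hv' ((i, j, k), false)
    simp only [δ, Bool.false_eq_true, if_false, Formula.realize_relabel] at h4
    have e1 : v ∘ fψ i j k = Sum.elim (fun _ => x i j n) (b k) := by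
      funext z; rcases z with z | z <;> rfl
    have e2 : v' ∘ fψ i j k = Sum.elim (fun _ => v' (Sum.inr (Sum.inr (i, j))))
        fun z => v' (Sum.inr (Sum.inl (k, z))) := by
      funext z; rcases z with z | z <;> rfl
    rw [e1, e2] at h4
    rw [← h4]
    constructor
    · intro h5
      by_contra hne
      exact (h3 k k.2).2 (fun h => hne (Fin.ext h)) h5
    · rintro rfl
      exact h2

/-- NIP for the theory from the structure. -/
theorem nip_of {M : Type} [L.Structure M]
    (h : ∀ (p q : ℕ) (φ : L.Formula (Fin p ⊕ Fin q)), ∃ n : ℕ, ∀ b : Fin n → Fin q → M,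
      ¬ ∀ S : Set (Fin n), ∃ a : Fin p → M, ∀ i, (φ.Realize (Sum.elim a (b i)) ↔ i ∈ S)) :
    NIP.{u} (L.completeTheory M) := by
  intro p q φ
  obtain ⟨n, hn⟩ := h p q φ
  refine ⟨n, fun N _ hN b hb => ?_⟩
  choose a ha using hb
  let β := (Fin n × Fin q) ⊕ (Set (Fin n) × Fin p)
  let v : β → N := Sum.elim (fun z => b z.1 z.2) fun z => a z.1 z.2
  let f : Set (Fin n) → Fin n → (Fin p ⊕ Fin q → β) := fun S i =>
    Sum.elim (fun z => Sum.inr (S, z)) fun z => Sum.inl (i, z)
  obtain ⟨v', hv'⟩ := approx hN (fun d : Set (Fin n) × Fin n => φ.relabel (f d.1 d.2)) v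
  refine hn (fun i z => v' (Sum.inl (i, z))) fun S => ⟨fun z => v' (Sum.inr (S, z)), fun i => ?_⟩
  have h4 := hv' (S, i)
  simp only [Formula.realize_relabel] at h4
  have e1 : v ∘ f S i = Sum.elim (a S) (b i) := by
    funext z; rcases z with z | z <;> rfl
  have e2 : v' ∘ f S i = Sum.elim (fun z => v' (Sum.inr (S, z))) fun z => v' (Sum.inl (i, z)) := by
    funext z; rcases z with z | z <;> rfl
  rw [e1, e2] at h4
  rw [← h4]
  exact ha S i

section pattern

variable {N : Type u} [L.Structure N] {J : Type u} [LinearOrder J] {k : ℕ}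

/-- Indiscernibility for families of indices with the same order pattern. -/
theorem Indisc.pattern {B : Set N} {e : J → Fin k → N} (h : Indisc (L := L) B e) {X : Type}
    [Finite X] {m : ℕ} (φ : L.Formula ((X × Fin k) ⊕ Fin m)) (b : Fin m → N) (hb : ∀ i, b i ∈ B)
    (f f' : X → J) (hf : ∀ x y, f x < f y ↔ f' x < f' y) :
    φ.Realize (Sum.elim (fun x => e (f x.1) x.2) b) ↔
      φ.Realize (Sum.elim (fun x => e (f' x.1) x.2) b) := by
  classical
  have := Fintype.ofFinite X
  let S := Finset.univ.image f
  let S' := Finset.univ.image f'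
  have hmem : ∀ x, f x ∈ S := fun x => Finset.mem_image_of_mem f (Finset.mem_univ x)
  have hmem' : ∀ x, f' x ∈ S' := fun x => Finset.mem_image_of_mem f' (Finset.mem_univ x)
  have heq : ∀ x y, f x = f y ↔ f' x = f' y := by
    intro x y
    have h1 := hf x y
    have h2 := hf y x
    constructor
    · intro h3
      rcases lt_trichotomy (f' x) (f' y) with h4 | h4 | h4
      · exact absurd h3 (h1.2 h4).ne
      · exact h4
      · exact absurd h3.symm (h2.2 h4).ne
    · intro h3
      rcases lt_trichotomy (f x) (f y) with h4 | h4 | h4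
      · exact absurd h3 (h1.1 h4).ne
      · exact h4
      · exact absurd h3.symm (h2.1 h4).ne
  -- the order isomorphism between the images
  have hex : ∀ s : S, ∃ x, f x = s := fun s => by
    obtain ⟨x, _, hx⟩ := Finset.mem_image.1 s.2
    exact ⟨x, hx⟩
  choose w hw using hex
  let n := S.card
  let i : Fin n → J := S.orderEmbOfFin rfl
  have hi : StrictMono i := (S.orderEmbOfFin rfl).strictMono
  have hiS : ∀ t, i t ∈ S := fun t => Finset.orderEmbOfFin_mem S rfl t
  let j : Fin n → J := fun t => f' (w ⟨i t, hiS t⟩)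
  have hj : StrictMono j := by
    intro t t' htt
    show f' (w ⟨i t, hiS t⟩) < f' (w ⟨i t', hiS t'⟩)
    rw [← hf, hw, hw]
    exact hi htt
  have hsurj : ∀ x, ∃ t, i t = f x := by
    intro x
    have h1 : f x ∈ (S : Set J) := hmem x
    rw [← Finset.range_orderEmbOfFin S rfl] at h1
    obtain ⟨t, ht⟩ := h1
    exact ⟨t, ht⟩
  choose ρ hρ using hsurj
  have hρ' : ∀ x, j (ρ x) = f' x := by
    intro x
    show f' (w ⟨i (ρ x), _⟩) = f' x
    rw [← heq, hw]
    exact hρ x
  let φ' : L.Formula ((Fin n × Fin k) ⊕ Fin m) :=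
    φ.relabel (Sum.map (fun z : X × Fin k => (ρ z.1, z.2)) id)
  have key := h n m φ' b hb i j hi hj
  simp only [φ', Formula.realize_relabel] at key
  have e1 : Sum.elim (fun x : Fin n × Fin k => e (i x.1) x.2) b ∘
      Sum.map (fun z : X × Fin k => (ρ z.1, z.2)) id = Sum.elim (fun x => e (f x.1) x.2) b := by
    funext z
    rcases z with z | z
    · show e (i (ρ z.1)) z.2 = e (f z.1) z.2
      rw [hρ]
    · rfl
  have e2 : Sum.elim (fun x : Fin n × Fin k => e (j x.1) x.2) b ∘
      Sum.map (fun z : X × Fin k => (ρ z.1, z.2)) id = Sum.elim (fun x => e (f' x.1) x.2) b := by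
    funext z
    rcases z with z | z
    · show e (j (ρ z.1)) z.2 = e (f' z.1) z.2
      rw [hρ']
    · rfl
  rw [e1, e2] at key
  exact key

/-- Single parameters and single elements suffice. -/
def OneStep (L : FirstOrder.Language.{0, 0}) (N : Type u) [L.Structure N] : Prop :=
  ∀ (J : Type u) [LinearOrder J] (c : J) (k : ℕ) (e : J → Fin k → N) (b : N),
    (∃ i, i < c) → (∀ i < c, ∃ j, i < j ∧ j < c) → (∃ i, c < i) → (∀ i > c, ∃ j, c < j ∧ j < i) →
    Indisc (L := L) ∅ e → Indisc (L := L) {b} (fun i : {i : J // i ≠ c} => e i) →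
    ∀ (n : ℕ) (φ : L.Formula ((Fin n × Fin k) ⊕ Fin 1)) (i : Fin n → J), StrictMono i →
      ∀ x0, i x0 = c → ∃ d, d < c ∧ (∀ x < x0, i x < d) ∧
        (φ.Realize (Sum.elim (fun x => e (i x.1) x.2) fun _ => b) ↔
          φ.Realize (Sum.elim (fun x => e (Function.update i x0 d x.1) x.2) fun _ => b))

theorem one_indisc {L : FirstOrder.Language.{0, 0}} {N : Type u} [L.Structure N]
    (h : OneStep L N) (J : Type u) [LinearOrder J] (c : J) (k : ℕ) (e : J → Fin k → N) (b : N)
    (h1 : ∃ i, i < c) (h2 : ∀ i < c, ∃ j, i < j ∧ j < c) (h3 : ∃ i, c < i)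
    (h4 : ∀ i > c, ∃ j, c < j ∧ j < i) (h5 : Indisc (L := L) ∅ e)
    (h6 : Indisc (L := L) {b} (fun i : {i : J // i ≠ c} => e i)) : Indisc (L := L) {b} e := by
  classical
  -- every increasing sequence of indices is equivalent to one which avoids `c`
  have key : ∀ (n : ℕ) (φ : L.Formula ((Fin n × Fin k) ⊕ Fin 1)) (i : Fin n → J), StrictMono i →
      ∃ i' : Fin n → {i : J // i ≠ c}, StrictMono i' ∧
        (φ.Realize (Sum.elim (fun x => e (i x.1) x.2) fun _ => b) ↔
          φ.Realize (Sum.elim (fun x => e (i' x.1) x.2) fun _ => b)) := by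
    intro n φ i hi
    by_cases hc : ∃ x0, i x0 = c
    · obtain ⟨x0, hx0⟩ := hc
      obtain ⟨d, hd1, hd2, hd3⟩ := h J c k e b h1 h2 h3 h4 h5 h6 n φ i hi x0 hx0
      have hne : ∀ x, Function.update i x0 d x ≠ c := by
        intro x
        by_cases hx : x = x0
        · rw [hx, Function.update_self]
          exact hd1.ne
        · rw [Function.update_of_ne hx, ← hx0]
          exact fun h => hx (hi.injective h)
      refine ⟨fun x => ⟨Function.update i x0 d x, hne x⟩, ?_, hd3⟩
      intro x y hxy
      show Function.update i x0 d x < Function.update i x0 d y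
      by_cases hx : x = x0
      · subst hx
        have hy : y ≠ x := hxy.ne'
        rw [Function.update_self, Function.update_of_ne hy]
        exact hd1.trans (by rw [← hx0]; exact hi hxy)
      · rw [Function.update_of_ne hx]
        by_cases hy : y = x0
        · subst hy
          rw [Function.update_self]
          exact hd2 x hxy
        · rw [Function.update_of_ne hy]
          exact hi hxy
    · push Not at hc
      exact ⟨fun x => ⟨i x, hc x⟩, fun x y hxy => hi hxy, Iff.rfl⟩
  intro n m φ b' hb' i j hi hj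
  -- all parameters are `b`
  have hbb : ∀ t, b' t = b := fun t => hb' t
  let φ' : L.Formula ((Fin n × Fin k) ⊕ Fin 1) := φ.relabel (Sum.map id fun _ => 0)
  have e1 : ∀ f : Fin n × Fin k → N, φ.Realize (Sum.elim f b') ↔
      φ'.Realize (Sum.elim f fun _ => b) := by
    intro f
    simp only [φ', Formula.realize_relabel]
    have : Sum.elim f (fun _ : Fin 1 => b) ∘ Sum.map id (fun _ : Fin m => (0 : Fin 1)) =
        Sum.elim f b' := by
      funext z
      rcases z with z | z
      · rfl
      · exact (hbb z).symm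
    rw [this]
  rw [e1, e1]
  obtain ⟨i', hi', e2⟩ := key n φ' i hi
  obtain ⟨j', hj', e3⟩ := key n φ' j hj
  rw [e2, e3]
  exact h6 n 1 φ' (fun _ => b) (fun _ => rfl) i' j' hi' hj'

/-- **Reduction of distality to single parameters.** -/
theorem distal_of {L : FirstOrder.Language.{0, 0}} {N : Type u} [L.Structure N]
    (h : OneStep L N) : DistalSequences L N := by
  classical
  intro J _ c k e B h1 h2 h3 h4 h5 h6
  -- induction on the number of parameters
  have key : ∀ (m k : ℕ) (e : J → Fin k → N) (b : Fin m → N), Indisc (L := L) ∅ e →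
      Indisc (L := L) (Set.range b) (fun i : {i : J // i ≠ c} => e i) →
      Indisc (L := L) (Set.range b) e := by
    intro m
    induction m with
    | zero =>
      intro k e b h5 h6
      have : Set.range b = ∅ := by
        rw [Set.range_eq_empty_iff]
        infer_instance
      rw [this]
      exact h5
    | succ m ih =>
      intro k e b h5 h6
      let b0 : Fin m → N := fun t => b t.castSucc
      have hb0 : Set.range b0 ⊆ Set.range b := by
        rintro _ ⟨t, rfl⟩
        exact ⟨_, rfl⟩
      have g1 : Indisc (L := L) (Set.range b0) e := by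
        refine ih k e b0 h5 ?_
        intro n m' φ b' hb' i j hi hj
        exact h6 n m' φ b' (fun t => hb0 (hb' t)) i j hi hj
      -- the sequence with the parameters `b0` added
      let e' : J → Fin (k + m) → N := fun t => Fin.append (e t) b0
      have conv : ∀ {J' : Type u} [LinearOrder J'] (ee : J' → Fin k → N) (n m' : ℕ)
          (φ : L.Formula ((Fin n × Fin (k + m)) ⊕ Fin m')) (b' : Fin m' → N),
          ∃ φ' : L.Formula ((Fin n × Fin k) ⊕ Fin (m' + m)), ∀ i : Fin n → J',
            (φ.Realize (Sum.elim (fun x => Fin.append (ee (i x.1)) b0 x.2) b') ↔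
              φ'.Realize (Sum.elim (fun x => ee (i x.1) x.2) (Fin.append b' b0))) := by
        intro J' _ ee n m' φ b'
        refine ⟨φ.relabel (Sum.elim (fun z => Fin.addCases (fun y => Sum.inl (z.1, y))
          (fun y => Sum.inr (Fin.natAdd m' y)) z.2) fun z => Sum.inr (Fin.castAdd m z)), fun i => ?_⟩
        rw [Formula.realize_relabel]
        apply iff_of_eq
        congr 1
        funext z
        rcases z with ⟨z1, z2⟩ | z
        · simp only [Sum.elim_inl, Function.comp_apply]
          refine Fin.addCases (fun y => ?_) (fun y => ?_) z2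
          · simp
          · simp
        · simp
      have g2 : Indisc (L := L) ∅ e' := by
        intro n m' φ b' hb' i j hi hj
        obtain ⟨φ', hφ'⟩ := conv e n m' φ b'
        have hm' : ∀ t, Fin.append b' b0 t ∈ Set.range b0 := by
          intro t
          refine Fin.addCases (fun y => ?_) (fun y => ?_) t
          · exact absurd (hb' y) (Set.notMem_empty _)
          · rw [Fin.append_right]
            exact ⟨y, rfl⟩
        exact (hφ' i).trans ((g1 n _ φ' _ hm' i j hi hj).trans (hφ' j).symm)
      have g3 : Indisc (L := L) {b (Fin.last m)} (fun i : {i : J // i ≠ c} => e' i) := by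
        intro n m' φ b' hb' i j hi hj
        obtain ⟨φ', hφ'⟩ := conv (fun i : {i : J // i ≠ c} => e i) n m' φ b'
        have hm' : ∀ t, Fin.append b' b0 t ∈ Set.range b := by
          intro t
          refine Fin.addCases (fun y => ?_) (fun y => ?_) t
          · rw [Fin.append_left, hb' y]
            exact ⟨_, rfl⟩
          · rw [Fin.append_right]
            exact ⟨_, rfl⟩
        exact (hφ' i).trans ((h6 n _ φ' _ hm' i j hi hj).trans (hφ' j).symm)
      have g4 := one_indisc h J c (k + m) e' (b (Fin.last m)) h1 h2 h3 h4 g2 g3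
      -- back
      intro n m' φ b' hb' i j hi hj
      choose τ hτ using hb'
      let φ' : L.Formula ((Fin n × Fin (k + m)) ⊕ Fin 1) ⊕ Unit := Sum.inr ()
      rcases Nat.eq_zero_or_pos n with hn | hn
      · subst hn
        have : i = j := Subsingleton.elim _ _
        rw [this]
      · let z0 : Fin n := ⟨0, hn⟩
        let ρ : Fin (m + 1) → (Fin n × Fin (k + m)) ⊕ Fin 1 := fun t =>
          Fin.lastCases (Sum.inr 0) (fun y => Sum.inl (z0, Fin.natAdd k y)) t
        let ψ : L.Formula ((Fin n × Fin (k + m)) ⊕ Fin 1) :=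
          φ.relabel (Sum.elim (fun z => Sum.inl (z.1, Fin.castAdd m z.2)) fun t => ρ (τ t))
        have e1 : ∀ i : Fin n → J, (φ.Realize (Sum.elim (fun x => e (i x.1) x.2) b') ↔
            ψ.Realize (Sum.elim (fun x => e' (i x.1) x.2) fun _ => b (Fin.last m))) := by
          intro i
          simp only [ψ, Formula.realize_relabel]
          apply iff_of_eq
          congr 1
          funext z
          rcases z with z | z
          · simp [e']
          · simp only [Sum.elim_inr, Function.comp_apply]
            rw [← hτ z]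
            generalize τ z = t
            refine Fin.lastCases ?_ (fun y => ?_) t
            · simp [ρ]
            · simp [ρ, e', b0]
        rw [e1, e1]
        exact g4 n 1 ψ _ (fun _ => rfl) i j hi hj
  intro n m φ b hb i j hi hj
  have h7 : Indisc (L := L) (Set.range b) (fun i : {i : J // i ≠ c} => e i) := by
    intro n' m' φ' b' hb' i' j' hi' hj'
    refine h6 n' m' φ' b' (fun t => ?_) i' j' hi' hj'
    obtain ⟨s, hs⟩ := hb' t
    rw [← hs]
    exact hb s
  exact key m k e b h5 h7 n m φ b (fun t => ⟨t, rfl⟩) i j hi hj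

end pattern

end Pool.Agent.H667.MT
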