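import Pool.Agent.H667.LV.Dist
import Pool.Agent.H667.LV.Tr

set_option autoImplicit false

/-!
The theory of the structure `Pt` has distal indiscernible sequences.
-/

namespace Pool.Agent.H667.LV

open Finset FirstOrder FirstOrder.Language Pool.Agent.H667.MT

universe u

/-- Finite configurations in a model are approximated in `Pt`. -/
theorem approx_key {N : Type u} [LL.Structure N] (hN : N ⊨ LL.completeTheory Pt) {β : Type}
    [Fintype β] (v : β → N) (T M : ℕ) {D : Type} [Finite D] (δ : D → LL.Formula β) :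
    ∃ v' : β → Pt, (∀ d, ((δ d).Realize v ↔ (δ d).Realize v')) ∧
      ∀ (K : Type) [Fintype K] [DecidableEq K] (x x' : K → β), Fintype.card K ≤ M →
        (∀ ψ : LL.Formula K, ψ.Realize (v ∘ x) ↔ ψ.Realize (v ∘ x')) →
          E T (v' ∘ x) (v' ∘ x') := by
  classical
  let X := Σ m : Fin (M + 1), (Fin m → β) × Key T (Fin m)
  let δ' : D ⊕ X → LL.Formula β := Sum.elim δ fun z => keyF T z.2.1 z.2.2
  obtain ⟨v', hv'⟩ := approx hN δ' v
  refine ⟨v', fun d => hv' (Sum.inl d), ?_⟩
  intro K _ _ x x' hK hψ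
  let ρ : Fin (Fintype.card K) → K := (Fintype.equivFin K).symm
  let κ : Key T (Fin (Fintype.card K)) := key T (v' ∘ x' ∘ ρ)
  have h1 : (keyF T (x' ∘ ρ) κ).Realize v' := by
    rw [realize_keyF]
  have h2 := (hv' (Sum.inr ⟨⟨Fintype.card K, Nat.lt_succ_of_le hK⟩, (x' ∘ ρ, κ)⟩)).2 h1
  have h3 : (keyF T (x ∘ ρ) κ).Realize v := (hψ (keyF T ρ κ)).2 h2
  have h4 := (hv' (Sum.inr ⟨⟨Fintype.card K, Nat.lt_succ_of_le hK⟩, (x ∘ ρ, κ)⟩)).1 h3
  have h5 : key T (v' ∘ x ∘ ρ) = key T (v' ∘ x' ∘ ρ) := h4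
  have h6 := (key_eq.1 h5).comp (Fintype.equivFin K)
  have e : ∀ y : K → β, (v' ∘ y ∘ ρ) ∘ (Fintype.equivFin K) = v' ∘ y := by
    intro y
    funext z
    simp [ρ]
  rw [e, e] at h6
  exact h6

theorem pat2 {J : Type u} [LinearOrder J] {i j : J} (h : i < j) : StrictMono ![i, j] := by
  rw [Fin.strictMono_iff_lt_succ]
  intro t
  fin_cases t
  exact h

theorem pat3 {J : Type u} [LinearOrder J] {i j k : J} (h : i < j) (h' : j < k) :
    StrictMono ![i, j, k] := by
  rw [Fin.strictMono_iff_lt_succ]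
  intro t
  fin_cases t
  · exact h
  · exact h'

theorem exists_above {J : Type u} [LinearOrder J] {c : J} (h1 : ∃ i, i < c)
    (h2 : ∀ i < c, ∃ j, i < j ∧ j < c) (S : Finset J) (hS : ∀ s ∈ S, s < c) :
    ∃ d, d < c ∧ ∀ s ∈ S, s < d := by
  classical
  induction S using Finset.induction with
  | empty =>
    obtain ⟨i, hi⟩ := h1
    exact ⟨i, hi, fun s hs => absurd hs (Finset.notMem_empty _)⟩
  | insert s S _ ih =>
    obtain ⟨d, hd, hd'⟩ := ih fun s hs => hS s (Finset.mem_insert_of_mem hs)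
    obtain ⟨j, hj1, hj2⟩ := h2 (max s d) (max_lt (hS s (Finset.mem_insert_self _ _)) hd)
    refine ⟨j, hj2, fun t ht => ?_⟩
    rcases Finset.mem_insert.1 ht with rfl | ht
    · exact (le_max_left _ _).trans_lt hj1
    · exact ((hd' t ht).trans_le (le_max_right _ _)).trans hj1

theorem exists_below {J : Type u} [LinearOrder J] {c : J} (h1 : ∃ i, c < i)
    (h2 : ∀ i > c, ∃ j, c < j ∧ j < i) (S : Finset J) (hS : ∀ s ∈ S, c < s) :
    ∃ d, c < d ∧ ∀ s ∈ S, d < s := by
  classical
  induction S using Finset.induction with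
  | empty =>
    obtain ⟨i, hi⟩ := h1
    exact ⟨i, hi, fun s hs => absurd hs (Finset.notMem_empty _)⟩
  | insert s S _ ih =>
    obtain ⟨d, hd, hd'⟩ := ih fun s hs => hS s (Finset.mem_insert_of_mem hs)
    obtain ⟨j, hj1, hj2⟩ := h2 (min s d) (lt_min (hS s (Finset.mem_insert_self _ _)) hd)
    refine ⟨j, hj1, fun t ht => ?_⟩
    rcases Finset.mem_insert.1 ht with rfl | ht
    · exact hj2.trans_le (min_le_left _ _)
    · exact hj2.trans ((min_le_right _ _).trans_lt (hd' t ht))

theorem oneStep {N : Type u} [LL.Structure N] (hN : N ⊨ LL.completeTheory Pt) : OneStep LL N := by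
  classical
  intro J _ c k e b hc1 hc2 hc3 hc4 hI hIb n φ i hi x0 hx0
  -- the neighbours
  obtain ⟨d0, hd0, hd0'⟩ := exists_above hc1 hc2 ((Finset.univ.filter fun x => x < x0).image i)
    (by
      intro s hs
      simp only [Finset.mem_image, Finset.mem_filter, Finset.mem_univ, true_and] at hs
      obtain ⟨x, hx, rfl⟩ := hs
      rw [← hx0]
      exact hi hx)
  obtain ⟨d1, hd01, hd1⟩ := hc2 d0 hd0
  obtain ⟨d4, hd4, hd4'⟩ := exists_below hc3 hc4 ((Finset.univ.filter fun x => x0 < x).image i)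
    (by
      intro s hs
      simp only [Finset.mem_image, Finset.mem_filter, Finset.mem_univ, true_and] at hs
      obtain ⟨x, hx, rfl⟩ := hs
      rw [← hx0]
      exact hi hx)
  obtain ⟨d3, hd3, hd34⟩ := hc4 d4 hd4
  have hlow : ∀ x < x0, i x < d0 := fun x hx => hd0' _ (Finset.mem_image_of_mem _ (by simpa using hx))
  have hup : ∀ x > x0, d4 < i x := fun x hx => hd4' _ (Finset.mem_image_of_mem _ (by simpa using hx))
  refine ⟨d1, hd1, fun x hx => (hlow x hx).trans hd01, ?_⟩
  let D : Fin 5 → J := ![d0, d1, c, d3, d4]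
  have hD : StrictMono D := by
    rw [Fin.strictMono_iff_lt_succ]
    intro t
    fin_cases t
    · exact hd01
    · exact hd1
    · exact hd3
    · exact hd34
  have hDlow : ∀ t, d0 ≤ D t := fun t => hD.monotone (Fin.zero_le t)
  have hDup : ∀ t, D t ≤ d4 := fun t => hD.monotone (Fin.le_last t)
  -- the five tuples
  let est : Fin 5 → Fin n × Fin k → N := fun t z => e (Function.update i x0 (D t) z.1) z.2
  -- patterns of indices
  have hpat : ∀ {R : Type} (τ τ' : R → Fin 5), (∀ r r', τ r < τ r' ↔ τ' r < τ' r') →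
      ∀ x y : {x : Fin n // x ≠ x0} ⊕ R,
      (Sum.elim (fun x : {x : Fin n // x ≠ x0} => i x) (fun r => D (τ r)) x <
        Sum.elim (fun x : {x : Fin n // x ≠ x0} => i x) (fun r => D (τ r)) y ↔
      Sum.elim (fun x : {x : Fin n // x ≠ x0} => i x) (fun r => D (τ' r)) x <
        Sum.elim (fun x : {x : Fin n // x ≠ x0} => i x) (fun r => D (τ' r)) y) := by
    intro R τ τ' hτ x y
    rcases x with x | r <;> rcases y with y | r'
    · exact Iff.rfl
    · show i x < D (τ r') ↔ i x < D (τ' r')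
      rcases lt_or_gt_of_ne x.2 with h | h
      · exact ⟨fun _ => (hlow _ h).trans_le (hDlow _), fun _ => (hlow _ h).trans_le (hDlow _)⟩
      · exact ⟨fun h' => absurd (h'.trans_le (hDup _)) (hup _ h).not_gt,
          fun h' => absurd (h'.trans_le (hDup _)) (hup _ h).not_gt⟩
    · show D (τ r) < i y ↔ D (τ' r) < i y
      rcases lt_or_gt_of_ne y.2 with h | h
      · exact ⟨fun h' => absurd ((hDlow _).trans_lt h') (hlow _ h).not_gt,
          fun h' => absurd ((hDlow _).trans_lt h') (hlow _ h).not_gt⟩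
      · exact ⟨fun _ => (hDup _).trans_lt (hup _ h), fun _ => (hDup _).trans_lt (hup _ h)⟩
    · show D (τ r) < D (τ r') ↔ D (τ' r) < D (τ' r')
      rw [hD.lt_iff_lt, hD.lt_iff_lt]
      exact hτ r r'
  have hA : ∀ {R : Type} [Finite R] (τ τ' : R → Fin 5), (∀ r r', τ r < τ r' ↔ τ' r < τ' r') →
      ∀ ψ : LL.Formula (R × (Fin n × Fin k)),
        (ψ.Realize (fun z => est (τ z.1) z.2) ↔ ψ.Realize (fun z => est (τ' z.1) z.2)) := by
    intro R _ τ τ' hτ ψ
    let ρ : R × (Fin n × Fin k) → (({x : Fin n // x ≠ x0} ⊕ R) × Fin k) ⊕ Fin 0 := fun z =>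
      if h : z.2.1 = x0 then Sum.inl (Sum.inr z.1, z.2.2) else Sum.inl (Sum.inl ⟨z.2.1, h⟩, z.2.2)
    have key := hI.pattern (X := {x : Fin n // x ≠ x0} ⊕ R) (ψ.relabel ρ) (fun x => x.elim0)
      (fun x => x.elim0) _ _ (hpat τ τ' hτ)
    rw [Formula.realize_relabel, Formula.realize_relabel] at key
    have e1 : ∀ τ : R → Fin 5, (Sum.elim (fun x : ({x : Fin n // x ≠ x0} ⊕ R) × Fin k =>
        e (Sum.elim (fun x : {x : Fin n // x ≠ x0} => i x) (fun r => D (τ r)) x.1) x.2)
        (fun x : Fin 0 => x.elim0)) ∘ ρ = fun z => est (τ z.1) z.2 := by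
      intro τ
      funext z
      by_cases h : z.2.1 = x0
      · have e2 : ρ z = Sum.inl (Sum.inr z.1, z.2.2) := dif_pos h
        show Sum.elim _ _ (ρ z) = e (Function.update i x0 (D (τ z.1)) z.2.1) z.2.2
        rw [e2, h, Function.update_self]
        rfl
      · have e2 : ρ z = Sum.inl (Sum.inl ⟨z.2.1, h⟩, z.2.2) := dif_neg h
        show Sum.elim _ _ (ρ z) = e (Function.update i x0 (D (τ z.1)) z.2.1) z.2.2
        rw [e2, Function.update_of_ne h]
        rfl
    rw [e1, e1] at key
    exact key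
  have hB : ∀ {R : Type} [Finite R] (τ τ' : R → Fin 5), (∀ r r', τ r < τ r' ↔ τ' r < τ' r') →
      (∀ r, τ r ≠ 2) → (∀ r, τ' r ≠ 2) →
      ∀ ψ : LL.Formula (Option (R × (Fin n × Fin k))),
        (ψ.Realize (fun z => z.elim b fun z => est (τ z.1) z.2) ↔
          ψ.Realize (fun z => z.elim b fun z => est (τ' z.1) z.2)) := by
    intro R _ τ τ' hτ h2 h2' ψ
    let ρ : Option (R × (Fin n × Fin k)) → (({x : Fin n // x ≠ x0} ⊕ R) × Fin k) ⊕ Fin 1 := fun z =>
      z.elim (Sum.inr 0) fun z => if h : z.2.1 = x0 then Sum.inl (Sum.inr z.1, z.2.2)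
        else Sum.inl (Sum.inl ⟨z.2.1, h⟩, z.2.2)
    have hne : ∀ (τ : R → Fin 5), (∀ r, τ r ≠ 2) → ∀ x,
        Sum.elim (fun x : {x : Fin n // x ≠ x0} => i x) (fun r => D (τ r)) x ≠ c := by
      intro τ h x
      rcases x with x | r
      · show i x ≠ c
        rw [← hx0]
        exact fun h => x.2 (hi.injective h)
      · show D (τ r) ≠ D 2
        exact fun h' => h r (hD.injective h')
    have key := hIb.pattern (X := {x : Fin n // x ≠ x0} ⊕ R) (ψ.relabel ρ) (fun _ => b)
      (fun _ => rfl) (fun x => ⟨_, hne τ h2 x⟩) (fun x => ⟨_, hne τ' h2' x⟩) (hpat τ τ' hτ)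
    rw [Formula.realize_relabel, Formula.realize_relabel] at key
    have e1 : ∀ τ : R → Fin 5, (Sum.elim (fun x : ({x : Fin n // x ≠ x0} ⊕ R) × Fin k =>
        e (Sum.elim (fun x : {x : Fin n // x ≠ x0} => i x) (fun r => D (τ r)) x.1) x.2)
        (fun _ : Fin 1 => b)) ∘ ρ = fun z => z.elim b fun z => est (τ z.1) z.2 := by
      intro τ
      funext z
      rcases z with _ | z
      · rfl
      · by_cases h : z.2.1 = x0
        · have e2 : ρ (some z) = Sum.inl (Sum.inr z.1, z.2.2) := dif_pos h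
          show Sum.elim _ _ (ρ (some z)) = e (Function.update i x0 (D (τ z.1)) z.2.1) z.2.2
          rw [e2, h, Function.update_self]
          rfl
        · have e2 : ρ (some z) = Sum.inl (Sum.inl ⟨z.2.1, h⟩, z.2.2) := dif_neg h
          show Sum.elim _ _ (ρ (some z)) = e (Function.update i x0 (D (τ z.1)) z.2.1) z.2.2
          rw [e2, Function.update_of_ne h]
          rfl
    rw [e1, e1] at key
    exact key
  -- transfer to `Pt`
  obtain ⟨T, hT, hφ⟩ := formula_inv φ
  let v : Option (Fin 5 × (Fin n × Fin k)) → N := fun z => z.elim b fun z => est z.1 z.2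
  let at' : Fin 5 → ((Fin n × Fin k) ⊕ Fin 1) → Option (Fin 5 × (Fin n × Fin k)) := fun t z =>
    Sum.elim (fun z => some (t, z)) (fun _ => none) z
  obtain ⟨v', hv1, hv2⟩ := approx_key hN v T (3 * Fintype.card (Fin n × Fin k) + 1)
    (fun t : Fin 5 => φ.relabel (at' t))
  have hφ1 : ∀ t, (φ.Realize (Sum.elim (est t) fun _ => b) ↔
      φ.Realize (v' ∘ at' t)) := by
    intro t
    have := hv1 t
    rw [Formula.realize_relabel, Formula.realize_relabel] at this
    rw [← this]
    apply iff_of_eq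
    congr 1
    funext z
    rcases z with z | z <;> rfl
  have e2 : (fun x : Fin n × Fin k => e (i x.1) x.2) = est 2 := by
    funext z
    show e (i z.1) z.2 = e (Function.update i x0 c z.1) z.2
    rw [← hx0, Function.update_eq_self]
  rw [e2]
  show φ.Realize (Sum.elim (est 2) fun _ => b) ↔ φ.Realize (Sum.elim (est 1) fun _ => b)
  rw [hφ1, hφ1]
  apply hφ
  -- the configuration
  let e' : Fin 5 → Fin n × Fin k → Pt := fun t z => v' (some (t, z))
  let b' : Pt := v' none
  have hEA : ∀ {R : Type} [Fintype R] [DecidableEq R] (τ τ' : R → Fin 5), Fintype.card R ≤ 3 →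
      (∀ r r', τ r < τ r' ↔ τ' r < τ' r') →
      E T (fun z : R × (Fin n × Fin k) => e' (τ z.1) z.2) (fun z => e' (τ' z.1) z.2) := by
    intro R _ _ τ τ' hR hτ
    refine hv2 (R × (Fin n × Fin k)) (fun z => some (τ z.1, z.2)) (fun z => some (τ' z.1, z.2)) ?_ ?_
    · rw [Fintype.card_prod]
      have := Nat.mul_le_mul_right (Fintype.card (Fin n × Fin k)) hR
      omega
    · intro ψ
      exact hA τ τ' hτ ψ
  have hEB : ∀ {R : Type} [Fintype R] [DecidableEq R] (τ τ' : R → Fin 5), Fintype.card R ≤ 3 →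
      (∀ r r', τ r < τ r' ↔ τ' r < τ' r') → (∀ r, τ r ≠ 2) → (∀ r, τ' r ≠ 2) →
      E T (fun z : Option (R × (Fin n × Fin k)) => z.elim b' fun z => e' (τ z.1) z.2)
        (fun z => z.elim b' fun z => e' (τ' z.1) z.2) := by
    intro R _ _ τ τ' hR hτ h2 h2'
    have hh := hv2 (Option (R × (Fin n × Fin k))) (fun z => z.elim none fun z => some (τ z.1, z.2))
      (fun z => z.elim none fun z => some (τ' z.1, z.2)) ?_ ?_
    · have e3 : ∀ τ : R → Fin 5, (v' ∘ fun z : Option (R × (Fin n × Fin k)) =>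
          z.elim none fun z => some (τ z.1, z.2)) = fun z => z.elim b' fun z => e' (τ z.1) z.2 := by
        intro τ
        funext z
        rcases z with _ | z <;> rfl
      rw [e3, e3] at hh
      exact hh
    · rw [Fintype.card_option, Fintype.card_prod]
      have := Nat.mul_le_mul_right (Fintype.card (Fin n × Fin k)) hR
      omega
    · intro ψ
      have e3 : ∀ τ : R → Fin 5, (v ∘ fun z : Option (R × (Fin n × Fin k)) =>
          z.elim none fun z => some (τ z.1, z.2)) = fun z => z.elim b fun z => est (τ z.1) z.2 := by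
        intro τ
        funext z
        rcases z with _ | z <;> rfl
      rw [e3, e3]
      exact hB τ τ' hτ h2 h2' ψ
  have hconf : Conf T e' b' := by
    refine ⟨?_, ?_, ?_, ?_, ?_⟩
    · intro i j
      have h := (hEA (fun _ : Fin 1 => i) (fun _ => j) (by decide) (fun _ _ => by simp)).comp
        fun z : Fin n × Fin k => (0, z)
      exact h
    · intro i j i' j' h1 h2
      have h := (hEA ![i, j] ![i', j'] (by decide) (by
        intro r r'
        rw [(pat2 h1).lt_iff_lt, (pat2 h2).lt_iff_lt])).comp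
        (Sum.elim (fun z => (0, z)) (fun z => (1, z)) :
          (Fin n × Fin k) ⊕ (Fin n × Fin k) → Fin 2 × (Fin n × Fin k))
      have e3 : ∀ i j : Fin 5, (fun z : Fin 2 × (Fin n × Fin k) => e' (![i, j] z.1) z.2) ∘
          (Sum.elim (fun z => (0, z)) (fun z => (1, z)) :
          (Fin n × Fin k) ⊕ (Fin n × Fin k) → Fin 2 × (Fin n × Fin k)) =
          Sum.elim (e' i) (e' j) := by
        intro i j
        funext z
        rcases z with z | z <;> rfl
      rw [e3, e3] at h
      exact h
    · intro i j l i' j' l' h1 h2 h3 h4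
      have h := (hEA ![i, j, l] ![i', j', l'] (by decide) (by
        intro r r'
        rw [(pat3 h1 h2).lt_iff_lt, (pat3 h3 h4).lt_iff_lt])).comp
        (Sum.elim (fun z => (0, z)) (Sum.elim (fun z => (1, z)) (fun z => (2, z))) :
          (Fin n × Fin k) ⊕ (Fin n × Fin k) ⊕ (Fin n × Fin k) → Fin 3 × (Fin n × Fin k))
      have e3 : ∀ i j l : Fin 5, (fun z : Fin 3 × (Fin n × Fin k) => e' (![i, j, l] z.1) z.2) ∘
          (Sum.elim (fun z => (0, z)) (Sum.elim (fun z => (1, z)) (fun z => (2, z)))) =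
          Sum.elim (e' i) (Sum.elim (e' j) (e' l)) := by
        intro i j l
        funext z
        rcases z with z | z | z <;> rfl
      rw [e3, e3] at h
      exact h
    · intro i j hi hj
      have h := (hEB (fun _ : Fin 1 => i) (fun _ => j) (by decide) (fun _ _ => by simp)
        (fun _ => hi) (fun _ => hj)).comp (Option.map fun z : Fin n × Fin k => ((0 : Fin 1), z))
      have e3 : ∀ i : Fin 5, (fun z : Option (Fin 1 × (Fin n × Fin k)) =>
          z.elim b' fun z => e' i z.2) ∘ (Option.map fun z : Fin n × Fin k => ((0 : Fin 1), z)) =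
          ext (e' i) b' := by
        intro i
        funext z
        rcases z with _ | z <;> rfl
      rw [e3, e3] at h
      exact h
    · intro i j i' j' n1 n2 n3 n4 h1 h2
      have h := (hEB ![i, j] ![i', j'] (by decide) (by
        intro r r'
        rw [(pat2 h1).lt_iff_lt, (pat2 h2).lt_iff_lt])
        (by intro r; fin_cases r <;> assumption) (by intro r; fin_cases r <;> assumption)).comp
        (Option.map (Sum.elim (fun z => (0, z)) (fun z => (1, z)) :
          (Fin n × Fin k) ⊕ (Fin n × Fin k) → Fin 2 × (Fin n × Fin k)))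
      have e3 : ∀ i j : Fin 5, (fun z : Option (Fin 2 × (Fin n × Fin k)) =>
          z.elim b' fun z => e' (![i, j] z.1) z.2) ∘
          (Option.map (Sum.elim (fun z => (0, z)) (fun z => (1, z)) :
          (Fin n × Fin k) ⊕ (Fin n × Fin k) → Fin 2 × (Fin n × Fin k))) =
          ext (Sum.elim (e' i) (e' j)) b' := by
        intro i j
        funext z
        rcases z with _ | z | z <;> rfl
      rw [e3, e3] at h
      exact h
  have hfin := (conf_main hT hconf).comp
    (Sum.elim some (fun _ => none) : (Fin n × Fin k) ⊕ Fin 1 → Option (Fin n × Fin k))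
  have e3 : ∀ t, ext (e' t) b' ∘ (Sum.elim some (fun _ => none) :
      (Fin n × Fin k) ⊕ Fin 1 → Option (Fin n × Fin k)) = v' ∘ at' t := by
    intro t
    funext z
    rcases z with z | z <;> rfl
  rw [e3, e3] at hfin
  exact hfin

theorem distalSequences {N : Type u} [LL.Structure N] (hN : N ⊨ LL.completeTheory Pt) :
    DistalSequences LL N := distal_of (oneStep hN)

end Pool.Agent.H667.LV
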