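import Pool.Agent.H667.LV.BF

set_option autoImplicit false

/-!
The structure on the set of points: all relations which are unions of classes of `E T`, for some `T`.
Every formula defines such a relation.
-/

namespace Pool.Agent.H667.LV

open Finset FirstOrder FirstOrder.Language

/-- Keys: the truncated differences of the numbers. -/
abbrev Key (T : ℕ) (ι : Type) := Tm ι → Tm ι → Fin (T + 1)

/-- The key of a tuple. -/
noncomputable def key {ι : Type} [Fintype ι] (T : ℕ) (a : ι → Pt) : Key T ι := fun s t =>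
  ⟨min T (val s a - val t a), Nat.lt_succ_of_le (min_le_left _ _)⟩

theorem key_eq {ι : Type} [Fintype ι] {T : ℕ} {a b : ι → Pt} :
    key T a = key T b ↔ E T a b := by
  constructor
  · intro h s t
    have := congrFun (congrFun h s) t
    exact congrArg Fin.val this
  · intro h
    funext s t
    exact Fin.ext (h s t)

/-- The language: an `n`-ary relation symbol for each threshold `T` and each set of keys. -/
def LL : FirstOrder.Language.{0, 0} where
  Functions := fun _ => Empty
  Relations := fun n => Σ T : ℕ, Set (Key T (Fin n))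

instance : LL.Structure Pt where
  funMap := fun f => f.elim
  RelMap := fun {_} R a => key R.1 a ∈ R.2

theorem relMap_iff {n : ℕ} (R : LL.Relations n) (a : Fin n → Pt) :
    Structure.RelMap R a ↔ key R.1 a ∈ R.2 := Iff.rfl

section eq

variable {ι : Type} [Fintype ι] [DecidableEq ι]

theorem ls_pair (a : ι → Pt) {r r' : ι} (hne : r ≠ r') (l : ℕ) :
    ls (Pi.single r 1 + Pi.single r' 1) a l =
      (if (a r).lev = l then 1 else 0) + (if (a r').lev = l then 1 else 0) := by
  rw [ls_add]
  congr 1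
  · unfold ls
    rw [Finset.sum_eq_single r]
    · rw [Pi.single_eq_same]
    · intro i _ hi
      rw [Pi.single_eq_of_ne hi, ite_self]
    · intro h
      exact absurd (Finset.mem_univ _) h
  · unfold ls
    rw [Finset.sum_eq_single r']
    · rw [Pi.single_eq_same]
    · intro i _ hi
      rw [Pi.single_eq_of_ne hi, ite_self]
    · intro h
      exact absurd (Finset.mem_univ _) h

theorem g_single (a : ι → Pt) (r : ι) (k : ℕ) : g (Pi.single r 1) a k = (a r).co k := by
  unfold g
  rw [Finset.sum_eq_single r]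
  · rw [Pi.single_eq_same, one_mul]
  · intro i _ hi
    rw [Pi.single_eq_of_ne hi, zero_mul]
  · intro h
    exact absurd (Finset.mem_univ _) h

theorem eq_iff (a : ι → Pt) {r r' : ι} (hne : r ≠ r') : a r = a r' ↔
    (a r).lev = (a r').lev ∧ (a r).lev ≤ val (Pi.single r 1 + Pi.single r' 1, {r}) a := by
  have hNE : NE ((Pi.single r 1 + Pi.single r' 1, {r}) : Tm ι) :=
    Or.inl ⟨r, Finset.mem_singleton_self r⟩
  have hvis : (a r).lev = (a r').lev → Vis (Pi.single r 1 + Pi.single r' 1) a := by
    intro h l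
    rw [ls_pair a hne, h]
    exact z2add _
  constructor
  · intro h
    have hl : (a r).lev = (a r').lev := by rw [h]
    refine ⟨hl, ?_⟩
    rw [le_val hNE (hvis hl)]
    refine ⟨?_, ?_, fun j _ => ?_⟩
    · intro i hi
      rw [Finset.mem_singleton] at hi
      rw [hi]
    · intro i hi
      by_cases h1 : i = r
      · rw [h1]
      · by_cases h2 : i = r'
        · rw [h2, hl]
        · exfalso
          apply hi
          show (Pi.single r 1 : ι → ZMod 2) i + (Pi.single r' 1 : ι → ZMod 2) i = 0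
          rw [Pi.single_eq_of_ne h1, Pi.single_eq_of_ne h2, add_zero]
    · rw [g_add, g_single, g_single, h]
      exact z2add _
  · rintro ⟨hl, h⟩
    rw [le_val hNE (hvis hl)] at h
    refine Pt.ext hl (funext fun k => ?_)
    by_cases hk : k < (a r).lev
    · have := h.2.2 k hk
      rw [g_add, g_single, g_single] at this
      exact z2eq this
    · rw [(a r).supp k (not_lt.1 hk), (a r').supp k (by rw [← hl]; exact not_lt.1 hk)]

theorem E.eq_of_eq {T : ℕ} (hT : 1 ≤ T) {a b : ι → Pt} (h : E T a b) (r r' : ι)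
    (hr : a r = a r') : b r = b r' := by
  by_cases hne : r = r'
  · rw [hne]
  · rw [eq_iff a hne] at hr
    rw [eq_iff b hne]
    refine ⟨(h.lev_eq hT r r').1 hr.1, ?_⟩
    have h1 := h ((0 : ι → ZMod 2), ({r} : Finset ι)) (Pi.single r 1 + Pi.single r' 1, {r})
    rw [val_lev, val_lev] at h1
    have := hr.2
    omega

end eq

/-- The relation defined by a formula is invariant under `E T` for some `T`. -/
def Inv {α : Type} {k : ℕ} (φ : LL.BoundedFormula α k) : Prop :=
  ∃ (ι : Type) (_ : Fintype ι) (t : ι → α ⊕ Fin k) (T : ℕ), 1 ≤ T ∧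
    ∀ (v : α → Pt) (xs : Fin k → Pt) (v' : α → Pt) (xs' : Fin k → Pt),
      E T (Sum.elim v xs ∘ t) (Sum.elim v' xs' ∘ t) → (φ.Realize v xs ↔ φ.Realize v' xs')

/-- Terms are variables. -/
theorem term_var {β : Type} (t : LL.Term β) : ∃ x, t = Term.var x := by
  rcases t with x | ⟨f, _⟩
  · exact ⟨x, rfl⟩
  · exact f.elim

theorem inv_all {α : Type} {k : ℕ} (φ : LL.BoundedFormula α k) : Inv φ := by
  classical
  induction φ with
  | falsum =>
    exact ⟨Empty, inferInstance, Empty.elim, 1, le_rfl, fun _ _ _ _ _ => Iff.rfl⟩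
  | @equal n t₁ t₂ =>
    obtain ⟨x, rfl⟩ := term_var t₁
    obtain ⟨y, rfl⟩ := term_var t₂
    refine ⟨Bool, inferInstance, fun b => if b then x else y, 1, le_rfl, ?_⟩
    intro v xs v' xs' h
    have h1 : ∀ (v : α → Pt) (xs : Fin n → Pt), (BoundedFormula.equal (Term.var x)
        (Term.var y) : LL.BoundedFormula α n).Realize v xs ↔
        (Sum.elim v xs ∘ fun b : Bool => if b then x else y) true =
        (Sum.elim v xs ∘ fun b : Bool => if b then x else y) false := fun v xs => Iff.rfl
    rw [h1, h1]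
    exact ⟨fun e => h.eq_of_eq le_rfl _ _ e, fun e => h.symm.eq_of_eq le_rfl _ _ e⟩
  | @rel n l R ts =>
    choose t ht using fun i => term_var (ts i)
    refine ⟨Fin l, inferInstance, t, max R.1 1, le_max_right _ _, ?_⟩
    intro v xs v' xs' h
    have h1 : ∀ (v : α → Pt) (xs : Fin n → Pt), (BoundedFormula.rel R ts).Realize v xs ↔
        key R.1 (Sum.elim v xs ∘ t) ∈ R.2 := by
      intro v xs
      show Structure.RelMap R (fun i => (ts i).realize (Sum.elim v xs)) ↔ _
      have : (fun i => (ts i).realize (Sum.elim v xs)) = Sum.elim v xs ∘ t := by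
        funext i
        rw [ht i]
        rfl
      rw [this, relMap_iff]
    rw [h1, h1, key_eq.2 (h.mono (le_max_left _ _))]
  | @imp n f₁ f₂ ih₁ ih₂ =>
    obtain ⟨ι₁, _, t₁, T₁, hT₁, h₁⟩ := ih₁
    obtain ⟨ι₂, _, t₂, T₂, _, h₂⟩ := ih₂
    refine ⟨ι₁ ⊕ ι₂, inferInstance, Sum.elim t₁ t₂, max T₁ T₂, le_max_of_le_left hT₁, ?_⟩
    intro v xs v' xs' h
    have e₁ := h₁ v xs v' xs' ((h.comp Sum.inl).mono (le_max_left _ _))
    have e₂ := h₂ v xs v' xs' ((h.comp Sum.inr).mono (le_max_right _ _))
    show (f₁.Realize v xs → f₂.Realize v xs) ↔ (f₁.Realize v' xs' → f₂.Realize v' xs')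
    rw [e₁, e₂]
  | @all n f ih =>
    obtain ⟨ι, _, t, T, hT, h⟩ := ih
    let ι' := {i : ι // t i ≠ Sum.inr (Fin.last n)}
    have ht' : ∀ i : ι', ∃ x : α ⊕ Fin n, t i.1 = Sum.map id Fin.castSucc x := by
      intro i
      rcases hti : t i.1 with x | x
      · exact ⟨Sum.inl x, rfl⟩
      · have hx : x ≠ Fin.last n := fun hx => i.2 (by rw [hti, hx])
        obtain ⟨y, hy⟩ := Fin.exists_castSucc_eq.2 hx
        exact ⟨Sum.inr y, by rw [← hy]; rfl⟩
    choose t' ht' using ht'
    let σ : ι → Option ι' := fun i => if hi : t i ≠ Sum.inr (Fin.last n) then some ⟨i, hi⟩ else none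
    have hσ : ∀ (v : α → Pt) (xs : Fin n → Pt) (c : Pt),
        ext (Sum.elim v xs ∘ t') c ∘ σ = Sum.elim v (Fin.snoc xs c) ∘ t := by
      intro v xs c
      funext i
      by_cases hi : t i ≠ Sum.inr (Fin.last n)
      · have e1 : σ i = some ⟨i, hi⟩ := dif_pos hi
        show ext (Sum.elim v xs ∘ t') c (σ i) = Sum.elim v (Fin.snoc xs c) (t i)
        rw [e1, ht' ⟨i, hi⟩]
        show Sum.elim v xs (t' ⟨i, hi⟩) = _
        rcases t' ⟨i, hi⟩ with x | x
        · rfl
        · simp [Fin.snoc_castSucc]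
      · have e1 : σ i = none := dif_neg hi
        rw [not_not] at hi
        show ext (Sum.elim v xs ∘ t') c (σ i) = Sum.elim v (Fin.snoc xs c) (t i)
        rw [e1, hi]
        simp [ext, Fin.snoc_last]
    refine ⟨ι', inferInstance, t', 2 * T, by omega, ?_⟩
    have main : ∀ (v : α → Pt) (xs : Fin n → Pt) (v' : α → Pt) (xs' : Fin n → Pt),
        E (2 * T) (Sum.elim v xs ∘ t') (Sum.elim v' xs' ∘ t') → (∀ c, f.Realize v' (Fin.snoc xs' c)) →
          ∀ c, f.Realize v (Fin.snoc xs c) := by
      intro v xs v' xs' hE hall c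
      obtain ⟨d, hd⟩ := forth hT hE c
      have h2 := hd.comp σ
      rw [hσ, hσ] at h2
      exact (h _ _ _ _ h2).2 (hall d)
    intro v xs v' xs' hE
    exact ⟨main _ _ _ _ hE.symm, main _ _ _ _ hE⟩

/-- Formulas in finitely many variables. -/
theorem formula_inv {ι : Type} [Fintype ι] (φ : LL.Formula ι) :
    ∃ T, 1 ≤ T ∧ ∀ v v' : ι → Pt, E T v v' → (φ.Realize v ↔ φ.Realize v') := by
  classical
  obtain ⟨κ, _, t, T, hT, h⟩ := inv_all φ
  refine ⟨T, hT, fun v v' hE => h v default v' default ?_⟩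
  let t' : κ → ι := fun k => Sum.elim id (fun x : Fin 0 => x.elim0) (t k)
  have e : ∀ v : ι → Pt, (Sum.elim v default ∘ t : κ → Pt) = v ∘ t' := by
    intro v
    funext k
    show Sum.elim v default (t k) = v (Sum.elim id (fun x : Fin 0 => x.elim0) (t k))
    rcases t k with x | x
    · rfl
    · exact x.elim0
  rw [e, e]
  exact hE.comp t'

/-- The formula saying that the key of the tuple is `k`. -/
noncomputable def keyF {ι : Type} [Fintype ι] {n : ℕ} (T : ℕ) (x : Fin n → ι) (k : Key T (Fin n)) :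
    LL.Formula ι :=
  (BoundedFormula.rel (⟨T, {k}⟩ : LL.Relations n) fun i => Term.var (Sum.inl (x i)) :
    LL.BoundedFormula ι 0)

theorem realize_keyF {ι : Type} [Fintype ι] {n : ℕ} (T : ℕ) (x : Fin n → ι) (k : Key T (Fin n))
    (v : ι → Pt) : (keyF T x k).Realize v ↔ key T (v ∘ x) = k := Iff.rfl

end Pool.Agent.H667.LV
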